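import Mathlib

/-!
The block cancellation algorithm and its deterministic invariants.
-/

set_option autoImplicit false

namespace Pool.Agent.Lib.MP_29d7aa_lc

/-- Signed sets of columns. -/
abbrev Grp : Type := List (ℕ × Bool)

/-- The sign attached to a Boolean. -/
def sg (s : Bool) : ℤ := cond s 1 (-1)

/-- The signed sum of a row over a signed set of columns. -/
def val (r : List Bool) (g : Grp) : ℤ := (g.map fun e => cond (r.getD e.1 false) (sg e.2) 0).sum

/-- Reversal of all signs. -/
def neg (g : Grp) : Grp := g.map fun e => (e.1, !e.2)

/-- The signed sums over a block of rows. -/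
def pat (R : List (List Bool)) (g : Grp) : List ℤ := R.map fun r => val r g

/-- The pattern is a standard basis vector. -/
def isU (R : List (List Bool)) (g : Grp) : Bool :=
  decide ((R.map fun r => val r g * val r g).sum = 1) && decide ((R.map fun r => val r g).sum = 1)

/-- One step of pairing: the state is (waiting groups, pairs). -/
def pairStep (R : List (List Bool)) (s : List Grp × List Grp) (g : Grp) : List Grp × List Grp :=
  cond (s.1.filter fun h => decide (pat R h = pat R g)).isEmpty (g :: s.1, s.2)
    (s.1.filter fun h => !decide (pat R h = pat R g),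
      (g ++ neg ((s.1.filter fun h => decide (pat R h = pat R g)).flatMap fun h => h)) :: s.2)

/-- Pairing of groups with equal patterns. -/
def pairUp (R : List (List Bool)) (G : List Grp) : List Grp × List Grp :=
  G.foldl (pairStep R) ([], [])

/-- Scalar product of patterns. -/
def dot (R : List (List Bool)) (g x : Grp) : ℤ := (R.map fun r => val r g * val r x).sum

/-- One step of repair: the state is (finished columns, unused groups). -/
def fixStep (R : List (List Bool)) (s : Grp × List Grp) (g : Grp) : Grp × List Grp :=
  cond (decide (dot R g s.1 = 0)) (s.1, g :: s.2)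
    (cond (decide ((dot R g s.1).toNat = 0)) (g ++ s.1, s.2) (neg g ++ s.1, s.2))

/-- One level of the algorithm. -/
def step (R : List (List Bool)) (s : Grp × List Grp) : Grp × List Grp :=
  let a := pairUp R (s.2.filter fun g => !isU R g)
  let b := (s.2.filter fun g => isU R g).foldl (fixStep R) ((a.1.flatMap fun h => h) ++ s.1, [])
  let c := pairUp R b.2
  ((c.1.flatMap fun h => h) ++ b.1, a.2 ++ c.2)

/-- All levels. -/
def run : List ℕ → List (List Bool) → Grp × List Grp → Grp
  | [], _, s => (s.2.flatMap fun h => h) ++ s.1
  | b :: bs, A, s => run bs (A.drop b) (step (A.take b) s)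

/-- The sign sequence of the groups of level `k`. -/
def sig : ℕ → List Bool
  | 0 => [true]
  | k + 1 => sig k ++ (sig k).map fun s => !s

theorem length_sig (k : ℕ) : (sig k).length = 2 ^ k := by
  induction k with
  | zero => rfl
  | succ k ih => simp [sig, ih, pow_succ]; ring

theorem fm_eq (G : List Grp) : (G.flatMap fun h => h) = G.flatten := by
  induction G with
  | nil => rfl
  | cons g G ih => simp [ih]

@[simp] theorem val_nil (r : List Bool) : val r [] = 0 := rfl

@[simp] theorem val_append (r : List Bool) (g h : Grp) : val r (g ++ h) = val r g + val r h := by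
  simp [val]

theorem val_cons (r : List Bool) (e : ℕ × Bool) (g : Grp) :
    val r (e :: g) = cond (r.getD e.1 false) (sg e.2) 0 + val r g := by
  simp [val]

theorem sg_not (s : Bool) : sg (!s) = -sg s := by cases s <;> rfl

@[simp] theorem val_neg (r : List Bool) (g : Grp) : val r (neg g) = -val r g := by
  induction g with
  | nil => rfl
  | cons e g ih =>
    have : neg (e :: g) = (e.1, !e.2) :: neg g := rfl
    rw [this, val_cons, val_cons, ih, sg_not]
    cases r.getD e.1 false <;> simp
    ring

theorem val_flatten (r : List Bool) (G : List Grp) :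
    val r G.flatten = (G.map fun g => val r g).sum := by
  induction G with
  | nil => rfl
  | cons g G ih => simp [ih]

theorem natAbs_val_le (r : List Bool) (g : Grp) : (val r g).natAbs ≤ g.length := by
  induction g with
  | nil => simp
  | cons e g ih =>
    rw [val_cons, List.length_cons]
    have : (cond (r.getD e.1 false) (sg e.2) 0).natAbs ≤ 1 := by
      cases r.getD e.1 false <;> cases e.2 <;> simp [sg]
    omega

@[simp] theorem idx_neg (g : Grp) : (neg g).map Prod.fst = g.map Prod.fst := by
  simp [neg, Function.comp_def]

@[simp] theorem length_neg (g : Grp) : (neg g).length = g.length := by simp [neg]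

theorem snd_neg (g : Grp) : (neg g).map Prod.snd = (g.map Prod.snd).map fun s => !s := by
  simp [neg, Function.comp_def]

/-- The multiset of the columns used. -/
def ids (G : List Grp) : Multiset ℕ := (G.flatten.map Prod.fst : List ℕ)

@[simp] theorem ids_nil : ids [] = 0 := rfl

theorem ids_cons (g : Grp) (G : List Grp) : ids (g :: G) = (g.map Prod.fst : List ℕ) + ids G := by
  simp [ids]

theorem ids_append (G H : List Grp) : ids (G ++ H) = ids G + ids H := by
  simp [ids]

theorem ids_filter (G : List Grp) (c : Grp → Bool) :
    ids (G.filter c) + ids (G.filter fun g => !c g) = ids G := by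
  induction G with
  | nil => simp
  | cons g G ih =>
    cases h : c g
    · simp only [List.filter_cons, h, Bool.false_eq_true, if_false, Bool.not_false, if_true,
        ids_cons, ← ih]
      abel
    · simp only [List.filter_cons, h, Bool.false_eq_true, if_false, Bool.not_true, if_true,
        ids_cons, ← ih]
      abel

/-- What pairing guarantees. -/
structure PairInv (R : List (List Bool)) (Q : Grp → Prop) (G : List Grp)
    (s : List Grp × List Grp) : Prop where
  ids_eq : ids s.1 + ids s.2 = ids G
  wait : ∀ g ∈ s.1, Q g
  nodup : (s.1.map (pat R)).Nodup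
  pairs : ∀ h ∈ s.2, ∃ g g', Q g ∧ Q g' ∧ pat R g = pat R g' ∧ h = g ++ neg g'

theorem pairStep_inv {R : List (List Bool)} {Q : Grp → Prop} {G : List Grp}
    {s : List Grp × List Grp} (h : PairInv R Q G s) {g : Grp} (hg : Q g) :
    PairInv R Q (G ++ [g]) (pairStep R s g) := by
  unfold pairStep
  cases hE : (s.1.filter fun h => decide (pat R h = pat R g)).isEmpty
  · simp only [cond_false]
    have h1 : ∃ g', (s.1.filter fun h => decide (pat R h = pat R g)) = [g'] := by
      have h2 : ((s.1.filter fun h => decide (pat R h = pat R g)).map (pat R)).Nodup :=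
        h.nodup.sublist (List.filter_sublist.map _)
      cases hF : (s.1.filter fun h => decide (pat R h = pat R g)) with
      | nil => simp [hF] at hE
      | cons g' t =>
        cases t with
        | nil => exact ⟨g', rfl⟩
        | cons g'' t =>
          have m1 : g' ∈ (s.1.filter fun h => decide (pat R h = pat R g)) := by simp [hF]
          have m2 : g'' ∈ (s.1.filter fun h => decide (pat R h = pat R g)) := by simp [hF]
          simp only [List.mem_filter, decide_eq_true_eq] at m1 m2
          rw [hF] at h2
          simp [m1.2, m2.2] at h2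
    obtain ⟨g', hg'⟩ := h1
    have m1 : g' ∈ (s.1.filter fun h => decide (pat R h = pat R g)) := by simp [hg']
    simp only [List.mem_filter, decide_eq_true_eq] at m1
    refine ⟨?_, fun x hx => h.wait x (List.mem_filter.1 hx).1,
      h.nodup.sublist (List.filter_sublist.map _), ?_⟩
    · have h3 := ids_filter s.1 (fun h => decide (pat R h = pat R g))
      rw [hg'] at h3
      rw [hg', ids_append, ← h.ids_eq, ← h3]
      simp only [ids_cons, ids_nil, List.flatMap_cons, List.flatMap_nil, List.append_nil,
        List.map_append, idx_neg, ← Multiset.coe_add]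
      abel
    · intro x hx
      rcases List.mem_cons.1 hx with rfl | hx
      · exact ⟨g, g', hg, h.wait _ m1.1, m1.2.symm, by simp [hg']⟩
      · exact h.pairs x hx
  · simp only [cond_true]
    refine ⟨?_, ?_, ?_, h.pairs⟩
    · rw [ids_append, ← h.ids_eq, ids_cons, ids_cons]
      simp only [ids_nil]
      abel
    · intro x hx
      rcases List.mem_cons.1 hx with rfl | hx
      · exact hg
      · exact h.wait x hx
    · rw [List.map_cons, List.nodup_cons]
      refine ⟨fun hm => ?_, h.nodup⟩
      obtain ⟨x, hx, hx'⟩ := List.mem_map.1 hm
      have : x ∈ (s.1.filter fun h => decide (pat R h = pat R g)) := by simp [hx, hx']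
      rw [List.isEmpty_iff.1 hE] at this
      simp at this

theorem pairUp_inv (R : List (List Bool)) {Q : Grp → Prop} {G : List Grp} (hG : ∀ g ∈ G, Q g) :
    PairInv R Q G (pairUp R G) := by
  have key : ∀ (H K : List Grp) (s : List Grp × List Grp), PairInv R Q K s → (∀ g ∈ H, Q g) →
      PairInv R Q (K ++ H) (H.foldl (pairStep R) s) := by
    intro H
    induction H with
    | nil => intro K s h _; simpa using h
    | cons g H ih =>
      intro K s h hH
      have := ih (K ++ [g]) _ (pairStep_inv h (hH g List.mem_cons_self))
        (fun x hx => hH x (List.mem_cons_of_mem _ hx))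
      simpa using this
  have := key G [] ([], []) ⟨by simp, by simp, by simp, by simp⟩ hG
  simpa [pairUp] using this

theorem val_eq_of_pat {R : List (List Bool)} {g g' : Grp} (h : pat R g = pat R g')
    {r : List Bool} (hr : r ∈ R) : val r g = val r g' :=
  List.map_inj_left.1 h r hr

/-- Few patterns. -/
theorem length_le_of_nodup {R : List (List Bool)} {W : List Grp} {N : ℕ}
    (hW : ∀ g ∈ W, g.length ≤ N) (hn : (W.map (pat R)).Nodup) :
    W.length ≤ (2 * N + 1) ^ R.length := by
  classical
  have key : ∀ b : ℕ, ∃ S : Finset (List ℤ), S.card ≤ (2 * N + 1) ^ b ∧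
      ∀ l : List ℤ, l.length = b → (∀ z ∈ l, z.natAbs ≤ N) → l ∈ S := by
    intro b
    induction b with
    | zero => exact ⟨{[]}, by simp, fun l hl _ => by simpa using hl⟩
    | succ b ih =>
      obtain ⟨S, hS, hS'⟩ := ih
      refine ⟨((Finset.Icc (-(N : ℤ)) N) ×ˢ S).image fun x => x.1 :: x.2, ?_, ?_⟩
      · refine Finset.card_image_le.trans ?_
        rw [Finset.card_product, Int.card_Icc, pow_succ, mul_comm]
        have : ((N : ℤ) + 1 - -(N : ℤ)).toNat = 2 * N + 1 := by omega
        rw [this]
        exact Nat.mul_le_mul_right _ hS
      · intro l hl hz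
        cases l with
        | nil => simp at hl
        | cons z l =>
          refine Finset.mem_image.2 ⟨(z, l), Finset.mem_product.2 ⟨?_, hS' l (by simpa using hl)
            (fun y hy => hz y (List.mem_cons_of_mem _ hy))⟩, rfl⟩
          have := hz z List.mem_cons_self
          simp only [Finset.mem_Icc]
          omega
  obtain ⟨S, hS, hS'⟩ := key R.length
  have h1 : (W.map (pat R)).toFinset ⊆ S := by
    intro l hl
    obtain ⟨g, hg, rfl⟩ := List.mem_map.1 (List.mem_toFinset.1 hl)
    refine hS' _ (by simp [pat]) (fun z hz => ?_)
    obtain ⟨r, -, rfl⟩ := List.mem_map.1 hz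
    exact (natAbs_val_le r g).trans (hW g hg)
  have h2 := Finset.card_le_card h1
  rw [List.toFinset_card_of_nodup hn, List.length_map] at h2
  exact h2.trans hS

theorem sum_sq_zero {R : List (List Bool)} {f : List Bool → ℤ}
    (h : (R.map fun r => f r * f r).sum = 0) : ∀ r ∈ R, f r = 0 := by
  induction R with
  | nil => simp
  | cons a R ih =>
    have h1 : 0 ≤ (R.map fun r => f r * f r).sum :=
      List.sum_nonneg (fun z hz => by
        obtain ⟨r, -, rfl⟩ := List.mem_map.1 hz
        exact mul_self_nonneg _)
    have h2 := mul_self_nonneg (f a)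
    simp only [List.map_cons, List.sum_cons] at h
    intro r hr
    rcases List.mem_cons.1 hr with rfl | hr
    · exact mul_self_eq_zero.1 (by omega)
    · exact ih (by omega) r hr

/-- Structure of unit patterns. -/
theorem isU_spec {R : List (List Bool)} {g : Grp} (h : isU R g = true) :
    ∃ r R', R.Perm (r :: R') ∧ val r g = 1 ∧ ∀ r' ∈ R', val r' g = 0 := by
  classical
  simp only [isU, Bool.and_eq_true, decide_eq_true_eq] at h
  have h1 : ∃ r ∈ R, val r g ≠ 0 := by
    by_contra hc
    push Not at hc
    have : (R.map fun r => val r g).sum = 0 := List.sum_eq_zero (fun z hz => by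
      obtain ⟨r, hr, rfl⟩ := List.mem_map.1 hz
      exact hc r hr)
    omega
  obtain ⟨r, hr, hr'⟩ := h1
  have hp := List.perm_cons_erase hr
  have h2 := (hp.map fun r => val r g * val r g).sum_eq
  have h3 := (hp.map fun r => val r g).sum_eq
  simp only [List.map_cons, List.sum_cons] at h2 h3
  have h4 : 0 ≤ ((R.erase r).map fun r => val r g * val r g).sum :=
    List.sum_nonneg (fun z hz => by
      obtain ⟨r, -, rfl⟩ := List.mem_map.1 hz
      exact mul_self_nonneg _)
  have h5 : 0 < val r g * val r g := mul_self_pos.2 hr'
  have h6 := sum_sq_zero (f := fun r => val r g) (R := R.erase r) (by omega)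
  have h7 : ((R.erase r).map fun r => val r g).sum = 0 := List.sum_eq_zero (fun z hz => by
    obtain ⟨r, hr, rfl⟩ := List.mem_map.1 hz
    exact h6 r hr)
  exact ⟨r, R.erase r, hp, by omega, h6⟩

/-- The total defect on a block. -/
def defect (R : List (List Bool)) (x : Grp) : ℕ := (R.map fun r => (val r x).natAbs).sum

/-- What the repair pass guarantees. -/
structure FixInv (R : List (List Bool)) (N : ℕ) (Q : Grp → Prop) (x : Grp) (U : List Grp)
    (s : Grp × List Grp) : Prop where
  ids_eq : (s.1.map Prod.fst : List ℕ) + ids s.2 = (x.map Prod.fst : List ℕ) + ids U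
  keep : ∀ g ∈ s.2, Q g
  len : s.1.length + N * defect R s.1 ≤ x.length + N * defect R x
  dec : ∀ r ∈ R, (val r s.1).natAbs ≤ (val r x).natAbs - U.countP fun g => decide (val r g = 1)
  old : ∀ r, (∀ g, Q g → val r g = 0) → val r s.1 = val r x

theorem fixStep_inv {R : List (List Bool)} {N : ℕ} {Q : Grp → Prop} {x : Grp} {U : List Grp}
    {s : Grp × List Grp} (h : FixInv R N Q x U s) {g : Grp} (hg : Q g) (hU : isU R g = true)
    (hN : g.length ≤ N) : FixInv R N Q x (U ++ [g]) (fixStep R s g) := by
  obtain ⟨r0, R', hp, h1, h0⟩ := isU_spec hU
  have hd : dot R g s.1 = val r0 s.1 := by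
    have := (hp.map fun r => val r g * val r s.1).sum_eq
    simp only [List.map_cons, List.sum_cons, h1, one_mul] at this
    rw [dot, this, List.sum_eq_zero, add_zero]
    intro z hz
    obtain ⟨r, hr, rfl⟩ := List.mem_map.1 hz
    rw [h0 r hr, zero_mul]
  have hr : ∀ r ∈ R, r = r0 ∨ val r g = 0 := fun r hr => by
    rcases List.mem_cons.1 (hp.subset hr) with h | h
    · exact Or.inl h
    · exact Or.inr (h0 r h)
  have hdef : ∀ y : Grp, (∀ r ∈ R', val r y = val r s.1) →
      (val r0 y).natAbs + 1 = (val r0 s.1).natAbs → defect R y + 1 = defect R s.1 := by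
    intro y hy hy'
    have e1 := (hp.map fun r => (val r y).natAbs).sum_eq
    have e2 := (hp.map fun r => (val r s.1).natAbs).sum_eq
    have e3 : (R'.map fun r => (val r y).natAbs) = R'.map fun r => (val r s.1).natAbs :=
      List.map_congr_left fun r hr => by rw [hy r hr]
    simp only [List.map_cons, List.sum_cons] at e1 e2
    rw [defect, defect, e1, e2, e3]
    omega
  have hl := h.len
  unfold fixStep
  rw [hd]
  by_cases c0 : val r0 s.1 = 0
  · simp only [c0, decide_true, cond_true]
    refine ⟨?_, ?_, h.len, fun r hr' => ?_, h.old⟩
    · rw [ids_cons, ids_append, ids_cons, ← add_assoc, ← add_assoc, ← h.ids_eq]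
      simp only [ids_nil]
      abel
    · intro y hy
      rcases List.mem_cons.1 hy with rfl | hy
      · exact hg
      · exact h.keep y hy
    · have := h.dec r hr'
      rcases hr r hr' with rfl | h2
      · simp [c0]
      · simpa [List.countP_append, h2] using this
  · simp only [c0, decide_false, cond_false]
    by_cases c1 : (val r0 s.1).toNat = 0
    · simp only [c1, decide_true, cond_true]
      refine ⟨?_, h.keep, ?_, fun r hr' => ?_, fun r hr' => ?_⟩
      · rw [ids_append, ids_cons, ← add_assoc, ← h.ids_eq]
        simp only [ids_nil, List.map_append, ← Multiset.coe_add]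
        abel
      · have := hdef (g ++ s.1) (fun r hr => by simp [h0 r hr]) (by simp [h1]; omega)
        rw [← this, mul_add] at hl
        simp only [List.length_append]
        omega
      · have := h.dec r hr'
        rcases hr r hr' with rfl | h2
        · simp only [List.countP_append, val_append, h1, List.countP_cons, List.countP_nil,
            decide_true, if_true]
          omega
        · simpa [List.countP_append, h2] using this
      · simp [hr' g hg, h.old r hr']
    · simp only [c1, decide_false, cond_false]
      refine ⟨?_, h.keep, ?_, fun r hr' => ?_, fun r hr' => ?_⟩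
      · rw [ids_append, ids_cons, ← add_assoc, ← h.ids_eq]
        simp only [ids_nil, List.map_append, ← Multiset.coe_add, idx_neg]
        abel
      · have := hdef (neg g ++ s.1) (fun r hr => by simp [h0 r hr]) (by simp [h1]; omega)
        rw [← this, mul_add] at hl
        simp only [List.length_append, length_neg]
        omega
      · have := h.dec r hr'
        rcases hr r hr' with rfl | h2
        · simp only [List.countP_append, val_append, val_neg, h1, List.countP_cons,
            List.countP_nil, decide_true, if_true]
          omega
        · simpa [List.countP_append, h2] using this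
      · simp [hr' g hg, h.old r hr']

theorem fix_inv (R : List (List Bool)) (N : ℕ) {Q : Grp → Prop} (x : Grp) {U : List Grp}
    (hU : ∀ g ∈ U, Q g ∧ isU R g = true ∧ g.length ≤ N) :
    FixInv R N Q x U (U.foldl (fixStep R) (x, [])) := by
  have key : ∀ (H K : List Grp) (s : Grp × List Grp), FixInv R N Q x K s →
      (∀ g ∈ H, Q g ∧ isU R g = true ∧ g.length ≤ N) →
      FixInv R N Q x (K ++ H) (H.foldl (fixStep R) s) := by
    intro H
    induction H with
    | nil => intro K s h _; simpa using h
    | cons g H ih =>
      intro K s h hH
      have hg := hH g List.mem_cons_self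
      have := ih (K ++ [g]) _ (fixStep_inv h hg.1 hg.2.1 hg.2.2)
        (fun x hx => hH x (List.mem_cons_of_mem _ hx))
      simpa using this
  have := key U [] (x, []) ⟨by simp, by simp, le_rfl, by simp, by simp⟩ hU
  simpa using this

end Pool.Agent.Lib.MP_29d7aa_lc
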