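import Pool.Agent.Lib.MP_29d7aa_lc.Main

/-!
The choice of the parameters and the final probability bound.
-/

set_option autoImplicit false

namespace Pool.Agent.Lib.MP_29d7aa_lc

open Finset

/-- The number of levels. -/
def lev (m : ℕ) : ℕ := ((List.range m).filter fun k => decide (k * k * k < m)).length

/-- The budget of one level. -/
def bet (m : ℕ) : ℕ := 6 * m / (m.bits.length - 1) + 1

/-- The block sizes. -/
def blocks (m : ℕ) : List ℕ := (List.range (lev m)).map fun k => bet m / (k + 2) + 1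

/-- The initial groups. -/
def init (n : ℕ) : List Grp := (List.range n).map fun j => [(j, true)]

/-- The colouring algorithm. -/
def out (A : List (List Bool)) : List Bool :=
  (List.range (A.headD []).length).map fun j =>
    decide ((j, true) ∈ run (blocks A.length) A ([], init (A.headD []).length))

theorem le_lev (m : ℕ) : m ≤ lev m ^ 3 := by
  by_contra hc
  have h1 : List.range (lev m + 1) ⊆ (List.range m).filter fun k => decide (k * k * k < m) := by
    intro k hk
    have h2 : k ^ 3 ≤ lev m ^ 3 := Nat.pow_le_pow_left (by simpa [Nat.lt_succ_iff] using hk) _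
    have h3 : k ≤ k ^ 3 := Nat.le_self_pow (by norm_num) _
    have h4 : k * k * k = k ^ 3 := by ring
    simp only [List.mem_filter, List.mem_range, decide_eq_true_eq]
    omega
  have := (List.subperm_of_subset List.nodup_range h1).length_le
  rw [List.length_range] at this
  exact absurd this (by unfold lev; omega)

theorem lev_le {m c : ℕ} (h : m ≤ c ^ 3) : lev m ≤ c := by
  have h1 : ((List.range m).filter fun k => decide (k * k * k < m)) ⊆ List.range c := by
    intro k hk
    simp only [List.mem_filter, List.mem_range, decide_eq_true_eq] at hk ⊢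
    by_contra hc
    have h2 : c ^ 3 ≤ k ^ 3 := Nat.pow_le_pow_left (by omega) _
    have h4 : k * k * k = k ^ 3 := by ring
    omega
  simpa [lev] using (List.subperm_of_subset (List.nodup_range.filter _) h1).length_le

theorem lev_le_self (m : ℕ) : lev m ≤ m := by
  simpa [lev] using List.length_filter_le (fun k => decide (k * k * k < m)) (List.range m)

theorem ok_range {B : ℕ} {f : ℕ → ℕ} (l : ℕ) : ∀ k, (∀ i < k + l, (i + 2) * f i ≤ B) →
    Ok B k ((List.range' k l).map f) := by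
  induction l with
  | zero => intro k _; trivial
  | succ l ih => exact fun k h => ⟨h k (by omega), ih (k + 1) fun i hi => h i (by omega)⟩

theorem ok_blocks (m : ℕ) : Ok (bet m + lev m + 1) 0 (blocks m) := by
  rw [blocks, List.range_eq_range']
  refine ok_range _ 0 fun i hi => ?_
  have := Nat.mul_div_le (bet m) (i + 2)
  rw [mul_add]
  omega

theorem pow_aux {j : ℕ} (h : 10 ≤ j) : 84 * j + 56 ≤ 2 ^ j := by
  induction j, h using Nat.le_induction with
  | base => norm_num
  | succ j hj ih => rw [pow_succ]; omega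

theorem params {m : ℕ} (hm : 2 ^ 30 ≤ m) : ∃ l : ℕ, 30 ≤ l ∧ 2 ^ l ≤ m ∧ m < 2 ^ (l + 1) ∧
    6 * m ≤ l * bet m ∧ l * bet m ≤ 6 * m + l ∧
    l * (l + 8 + 4 * lev m + lev m * (lev m + l + 2)) ≤ m := by
  have h1 : 30 < m.size := Nat.lt_size.2 hm
  have h2 : 2 ^ (m.size - 1) ≤ m := Nat.lt_size.1 (by omega)
  have h3 : m < 2 ^ (m.size - 1 + 1) := by
    rw [Nat.sub_add_cancel (by omega)]
    exact Nat.lt_size_self m
  have h4 : bet m = 6 * m / (m.size - 1) + 1 := by rw [bet, Nat.size_eq_bits_len]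
  refine ⟨m.size - 1, by omega, h2, h3, ?_, ?_, ?_⟩
  · rw [h4]
    exact (Nat.lt_mul_div_succ _ (by omega)).le
  · have := Nat.mul_div_le (6 * m) (m.size - 1)
    rw [h4, mul_add]
    omega
  · have h9 : 30 ≤ m.size - 1 := by omega
    generalize m.size - 1 = l at *
    have h5 := pow_aux (j := l / 3) (by omega)
    have h6 : lev m ≤ 2 * 2 ^ (l / 3) := lev_le (by
      rw [← pow_succ', ← pow_mul]
      exact h3.le.trans (Nat.pow_le_pow_right (by omega) (by omega)))
    have h7 : (2 ^ (l / 3)) ^ 3 ≤ m := by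
      rw [← pow_mul]
      exact (Nat.pow_le_pow_right (by omega) (by omega)).trans h2
    have h8 : 28 * l ≤ 2 ^ (l / 3) := by omega
    generalize 2 ^ (l / 3) = c at *
    have h10 : lev m * (lev m + l + 2) ≤ 2 * c * (4 * c) := Nat.mul_le_mul h6 (by omega)
    have h11 : l + 8 + 4 * lev m + lev m * (lev m + l + 2) ≤ 28 * (c * c) := by nlinarith
    calc _ ≤ l * (28 * (c * c)) := Nat.mul_le_mul_left _ h11
      _ = 28 * l * (c * c) := by ring
      _ ≤ c * (c * c) := Nat.mul_le_mul_right _ h8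
      _ = c ^ 3 := by ring
      _ ≤ m := h7

theorem log_bounds {m l : ℕ} (h1 : 2 ^ l ≤ m) (h2 : m < 2 ^ (l + 1)) :
    l * Real.log 2 ≤ Real.log m ∧ Real.log m ≤ (l + 1) * Real.log 2 := by
  have h3 : (2 : ℝ) ^ l ≤ m := by exact_mod_cast h1
  have h4 : (m : ℝ) ≤ 2 ^ (l + 1) := by exact_mod_cast h2.le
  have h5 : (0 : ℝ) < 2 ^ l := by positivity
  constructor
  · rw [← Real.log_pow]
    exact Real.log_le_log h5 h3
  · have := Real.log_le_log (by linarith) h4
    rwa [Real.log_pow, Nat.cast_add, Nat.cast_one] at this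

theorem le_sum_blocks {m : ℕ} (hm : 2 ^ 30 ≤ m) : m ≤ (blocks m).sum := by
  obtain ⟨l, h1, h2, h3, h4, -, -⟩ := params hm
  have h5 := (log_bounds h2 h3).1
  have h6 : ((blocks m).sum : ℝ) = ∑ k ∈ range (lev m), ((bet m / (k + 2) + 1 : ℕ) : ℝ) := by
    rw [← Nat.cast_sum]
    rfl
  have h7 : ∑ k ∈ range (lev m), (bet m : ℝ) * (1 / (k + 2)) ≤ (blocks m).sum := by
    rw [h6]
    refine sum_le_sum fun k _ => ?_
    have : ((bet m : ℕ) : ℝ) ≤ ((k + 2) * (bet m / (k + 2) + 1) : ℕ) := by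
      exact_mod_cast (Nat.lt_mul_div_succ _ (by omega)).le
    rw [mul_one_div, div_le_iff₀ (by positivity)]
    rw [Nat.cast_mul] at this
    push_cast at this ⊢
    linarith
  have h8 := log_add_one_le_harmonic (lev m + 1)
  have h9 : ((harmonic (lev m + 1) : ℚ) : ℝ) = ∑ k ∈ range (lev m), (1 / (k + 2) : ℝ) + 1 := by
    rw [harmonic, sum_range_succ']
    push_cast
    simp only [one_div, inv_one, add_left_inj]
    exact sum_congr rfl fun k _ => by ring
  have h10 : Real.log m ≤ 3 * Real.log ((lev m + 1 + 1 : ℕ) : ℝ) := by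
    have a1 : (m : ℝ) ≤ ((lev m + 1 + 1 : ℕ) : ℝ) ^ 3 := by
      exact_mod_cast (le_lev m).trans (Nat.pow_le_pow_left (by omega) _)
    have := Real.log_le_log (by exact_mod_cast (by omega : 0 < m)) a1
    rwa [Real.log_pow, Nat.cast_ofNat] at this
  have h11 := Real.log_two_gt_d9
  have h12 : (30 : ℝ) ≤ l := by exact_mod_cast h1
  have h13 : (l : ℝ) / 6 ≤ ∑ k ∈ range (lev m), (1 / (k + 2) : ℝ) := by nlinarith
  have h14 : (6 * m : ℝ) ≤ l * bet m := by exact_mod_cast h4
  rw [← mul_sum] at h7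
  have h15 := mul_le_mul_of_nonneg_left h13 (Nat.cast_nonneg (α := ℝ) (bet m))
  exact_mod_cast (by linarith : (m : ℝ) ≤ (blocks m).sum)

theorem size_ok {m n : ℕ} (hm : 2 ^ 30 ≤ m) (hn : Real.exp (7 * m / Real.log m) ≤ n) {p : ℝ}
    (hp : 1 ≤ p * m) : 2 * ((2 * 2 ^ lev m * 2 ^ (bet m + lev m + 1) *
      (2 + 2 ^ lev m * m) ^ lev m : ℕ) : ℝ) ≤ n * p / (2 * 2 ^ lev m * 2 ^ (bet m + lev m + 1)) := by
  obtain ⟨l, h1, h2, h3, -, h4, h5⟩ := params hm
  obtain ⟨h6, h7⟩ := log_bounds h2 h3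
  generalize lev m = L at *
  generalize bet m = β at *
  have a1 : 2 + 2 ^ L * m ≤ 2 ^ (L + l + 2) := by
    have b1 := Nat.one_le_two_pow (n := L)
    have b2 := Nat.one_le_two_pow (n := l)
    rw [pow_succ] at h3
    rw [add_assoc, pow_add, pow_add]
    nlinarith
  have a2 : 2 * (2 * 2 ^ L * 2 ^ (β + L + 1) * (2 + 2 ^ L * m) ^ L) *
      (2 * 2 ^ L * 2 ^ (β + L + 1)) * m ≤ 2 ^ (2 * β + l + 6 + 4 * L + L * (L + l + 2)) := by
    calc _ ≤ 2 * (2 * 2 ^ L * 2 ^ (β + L + 1) * (2 ^ (L + l + 2)) ^ L) *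
          (2 * 2 ^ L * 2 ^ (β + L + 1)) * 2 ^ (l + 1) := by gcongr
      _ = _ := by rw [← pow_mul, mul_comm (L + l + 2)]; ring
  have a3 : l * (2 * β + l + 6 + 4 * L + L * (L + l + 2)) ≤ 13 * m := by nlinarith
  generalize 2 * β + l + 6 + 4 * L + L * (L + l + 2) = E at *
  have a4 : (l : ℝ) * E ≤ 13 * m := by exact_mod_cast a3
  have a5 := Real.log_two_gt_d9
  have a6 := Real.log_two_lt_d9
  have a7 : (30 : ℝ) ≤ l := by exact_mod_cast h1
  have a8 : 0 < Real.log m := by nlinarith
  have a9 : (2 : ℝ) ^ E ≤ n := by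
    refine le_trans ?_ hn
    rw [← Real.exp_log (show (0 : ℝ) < 2 ^ E by positivity), Real.log_pow, Real.exp_le_exp,
      le_div_iff₀ a8]
    have b1 : (0 : ℝ) ≤ E := Nat.cast_nonneg _
    have b2 : Real.log 2 * Real.log 2 ≤ 0.49 := by nlinarith
    calc E * Real.log 2 * Real.log m ≤ E * Real.log 2 * (31 / 30 * l * Real.log 2) := by
          gcongr
          nlinarith
      _ = 31 / 30 * (l * E) * (Real.log 2 * Real.log 2) := by ring
      _ ≤ 31 / 30 * (13 * m) * 0.49 := by gcongr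
      _ ≤ 7 * m := by nlinarith [Nat.cast_nonneg (α := ℝ) m]
  have a10 : (0 : ℝ) < m := by exact_mod_cast (by omega : 0 < m)
  have a11 : 2 * ((2 * 2 ^ L * 2 ^ (β + L + 1) * (2 + 2 ^ L * m) ^ L : ℕ) : ℝ) *
      (2 * 2 ^ L * 2 ^ (β + L + 1)) * m ≤ 2 ^ E := by exact_mod_cast a2
  rw [le_div_iff₀ (by positivity)]
  refine le_of_mul_le_mul_right ((a11.trans a9).trans ?_) a10
  rw [mul_assoc]
  exact le_mul_of_one_le_right (Nat.cast_nonneg _) hp

theorem fail_ok {m : ℕ} (hm : 2 ^ 30 ≤ m) {μ : ℝ} (hμ : 2 * ((2 * 2 ^ lev m *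
    2 ^ (bet m + lev m + 1) * (2 + 2 ^ lev m * m) ^ lev m : ℕ) : ℝ) ≤ μ) :
    m * (4 / μ) ≤ Real.exp (-(m / Real.log m)) := by
  obtain ⟨l, h1, h2, h3, h4, -, h5⟩ := params hm
  obtain ⟨h6, -⟩ := log_bounds h2 h3
  generalize lev m = L at *
  generalize bet m = β at *
  have a1 : 2 * 2 ^ (β + 1) ≤ 2 * 2 ^ L * 2 ^ (β + L + 1) * (2 + 2 ^ L * m) ^ L := by
    have b1 := Nat.one_le_two_pow (n := L)
    have b2 : 1 ≤ (2 + 2 ^ L * m) ^ L := Nat.one_le_pow _ _ (by omega)
    calc _ = 2 * 1 * 2 ^ (β + 0 + 1) * 1 := by ring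
      _ ≤ _ := by gcongr <;> omega
  have a2 : (4 * 2 ^ (β + 1) : ℝ) ≤ μ := by
    refine le_trans ?_ hμ
    have : ((2 * 2 ^ (β + 1) : ℕ) : ℝ) ≤ _ := Nat.cast_le.2 a1
    push_cast at this ⊢
    linarith
  have a3 : (m : ℝ) ≤ 2 ^ (l + 1) := by exact_mod_cast h3.le
  have a4 : (6 * m : ℝ) ≤ l * β := by exact_mod_cast h4
  have a5 : (l * l : ℝ) ≤ m := by
    exact_mod_cast (Nat.mul_le_mul_left l (by omega)).trans h5
  have a6 := Real.log_two_gt_d9
  have a7 : (30 : ℝ) ≤ l := by exact_mod_cast h1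
  have a8 : 0 < Real.log m := by nlinarith
  have a9 : m / Real.log m ≤ (β - l) * Real.log 2 := by
    rw [div_le_iff₀ a8]
    have b1 : (5 * m : ℝ) ≤ l * (β - l) := by linarith
    have b2 : (0 : ℝ) ≤ β - l := by
      by_contra hc
      nlinarith
    have b3 : 0.4 ≤ Real.log 2 * Real.log 2 := by nlinarith
    calc (m : ℝ) ≤ 5 * m * 0.4 := by nlinarith
      _ ≤ l * (β - l) * (Real.log 2 * Real.log 2) := by gcongr
      _ = (β - l) * Real.log 2 * (l * Real.log 2) := by ring
      _ ≤ _ := by gcongr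
  have a10 : 0 < μ := lt_of_lt_of_le (by positivity) a2
  calc m * (4 / μ) ≤ 2 ^ (l + 1) * (4 / (4 * 2 ^ (β + 1))) := by gcongr
    _ = Real.exp (-((β - l) * Real.log 2)) := by
      rw [show -((β - l) * Real.log 2) = l * Real.log 2 - β * Real.log 2 by ring, Real.exp_sub,
        Real.exp_nat_mul, Real.exp_nat_mul, Real.exp_log (by norm_num)]
      field_simp
      ring
    _ ≤ _ := Real.exp_le_exp.2 (by linarith)

theorem sum_eq_val {n : ℕ} (a : Fin n → Bool) {x : Grp}
    (hx : (x.map Prod.fst).Perm (List.range n)) :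
    ∑ j : Fin n, (if a j then 1 else 0) *
      (if ((List.range n).map fun j => decide ((j, true) ∈ x)).getD j false then 1 else -1 : ℤ) =
      val (List.ofFn a) x := by
  have hn : (x.map Prod.fst).Nodup := hx.symm.nodup List.nodup_range
  let F : ℕ → ℤ := fun j => cond ((List.ofFn a).getD j false) (sg (decide ((j, true) ∈ x))) 0
  have h1 : val (List.ofFn a) x = ((x.map Prod.fst).map F).sum := by
    rw [val, List.map_map]
    congr 1
    refine List.map_congr_left fun e he => ?_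
    obtain ⟨j, s⟩ := e
    have : decide ((j, true) ∈ x) = s := by
      cases s
      · exact decide_eq_false fun h => by simpa using List.inj_on_of_nodup_map hn he h rfl
      · exact decide_eq_true he
    simp only [Function.comp, F, this]
  rw [h1, (hx.map F).sum_eq, show ((List.range n).map F).sum = ∑ j ∈ range n, F j from rfl,
    ← Fin.sum_univ_eq_sum_range]
  refine sum_congr rfl fun j _ => ?_
  simp only [F, List.getD_eq_getElem?_getD, List.getElem?_map, List.getElem?_range j.isLt,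
    List.getElem?_ofFn, j.isLt]
  by_cases h2 : (j.val, true) ∈ x <;> cases h3 : a j <;> simp [sg, h2, h3]

theorem ids_init (n : ℕ) : ids (init n) = (List.range n : List ℕ) := by
  unfold ids init
  congr 1
  induction List.range n with
  | nil => rfl
  | cons a l ih => rw [List.map_cons, List.flatten_cons, List.map_append, ih]; rfl

theorem out_correct {m n : ℕ} (hm : 2 ^ 30 ≤ m) (hn : Real.exp (7 * m / Real.log m) ≤ n) {p : ℝ}
    (hp : 1 ≤ p * m) (hp' : p ≤ 1 / 2) :
    1 - Real.exp (-(m / Real.log m)) ≤ ∑ A : Fin m → Fin n → Bool,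
      (∏ i, ∏ j, if A i j then p else 1 - p) *
        if ∀ i, |∑ j : Fin n, (if A i j then 1 else 0) *
          (if (out (List.ofFn fun i => List.ofFn (A i))).getD j false then 1 else -1 : ℤ)| ≤ 1
        then 1 else 0 := by
  have h0 : 0 < p := by
    by_contra hc
    nlinarith [Nat.cast_nonneg (α := ℝ) m]
  have h1 := size_ok hm hn hp
  have h2 := (main_bound h0 hp' h1 (blocks m) 0 m ([], init n) (ok_blocks m) (by simp [blocks])
    (le_sum_blocks hm) le_rfl (by simp [ids_init]) (by simp [init, sig]) (by simp)).trans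
    (fail_ok hm h1)
  refine le_trans (sub_le_sub_left h2 1) ?_
  rw [sub_eq_add_neg, ← neg_one_mul, ← ExL_mul, ← ExL_const (p := p) (n := n) m 1, ← ExL_add,
    ExL_const, ExL_ofFn]
  refine sum_le_sum fun A _ => mul_le_mul_of_nonneg_left ?_
    (prod_nonneg fun i _ => prod_nonneg fun j _ => by split_ifs <;> linarith)
  have e1 : rows (List.ofFn A) = List.ofFn fun i => List.ofFn (A i) := by
    rw [rows, List.map_ofFn]
    rfl
  have e2 : ((List.ofFn fun i => List.ofFn (A i)).headD []).length = n := by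
    obtain ⟨m, rfl⟩ : ∃ k, m = k + 1 := ⟨m - 1, by omega⟩
    simp [List.ofFn_succ]
  rw [e1, out, e2, List.length_ofFn]
  have e3 := run_ids (blocks m) (List.ofFn fun i => List.ofFn (A i)) ([], init n)
  simp only [List.map_nil, Multiset.coe_nil, zero_add, ids_init, Multiset.coe_eq_coe] at e3
  simp only [sum_eq_val _ e3]
  split_ifs with c1 c2 c2
  · norm_num
  · norm_num
  · norm_num
  · refine absurd (fun i => ?_) c2
    have : ¬1 < (val (List.ofFn (A i)) _).natAbs :=
      fun h => c1 ⟨_, List.mem_ofFn.2 ⟨i, rfl⟩, h⟩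
    rw [Int.abs_eq_natAbs]
    omega

end Pool.Agent.Lib.MP_29d7aa_lc
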