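import Pool.Agent.Lib.MP_29d7aa_lc.Poly

/-!
The greedy exchange algorithm and its running time.
-/

set_option autoImplicit false

namespace Pool.Agent.Lib.MP_29d7aa_lc.Gd

open Pool.Agent.Lib.MP_acf5a6_lc N487b59b3

/-- The colouring given by the list of the exchanged pairs. -/
def colr (J : List ℕ) (e : ℕ) (fl : List Bool) : List Bool :=
  J.map fun j => xor (j + e).bodd (!fl.getD (j + e).div2 false)

/-- The signed row sums. -/
def dv (J : List ℕ) (A : List (List Bool)) (x : List Bool) : List ℤ :=
  A.map fun r => (J.map fun j => cond (r.getD j false) (sg (x.getD j false)) 0).sum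

/-- The barrier, scaled to an integer. -/
def fq (Q : ℕ) (U : List ℕ) (v : ℤ) : ℕ :=
  cond (decide (v.toNat = 0)) (Q * 2 ^ (U.take (1 - v).toNat).length) (Q / v.toNat)

/-- The potential at a given position of the barrier, scaled to an integer. -/
def psiN (c K L Q : ℕ) (U : List ℕ) (d : List ℤ) (b : ℕ) : ℕ :=
  c * b + K * (d.map fun z => fq Q U (b - L * z) + fq Q U (b + L * z)).sum

/-- The potential, scaled to an integer. -/
def potN (c K L Q : ℕ) (U W : List ℕ) (d : List ℤ) : ℕ :=
  (W.map (psiN c K L Q U d)).foldl min (psiN c K L Q U d 0)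

/-- The factorial of the length of a range. -/
def fac (U : List ℕ) : ℕ := U.foldl (fun c j => c * (j + 1)) 1

/-- The potential of a list of exchanges. -/
def potF (J U W : List ℕ) (A : List (List Bool)) (B : ℕ) (fl : List Bool) : ℕ :=
  potN (A.length * fac U) ((B * (A.length.bits.length / B + 1)) * (B * (A.length.bits.length / B + 1)))
    (A.length.bits.length / B + 1) (fac U) U W (dv J A (colr J J.length.bodd.toNat fl))

/-- The greedy colouring with parameter `B`. -/
def greedy (J U W : List ℕ) (A : List (List Bool)) (B : ℕ) : List Bool :=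
  colr J J.length.bodd.toNat ((J.take J.length.div2).foldl
    (fun fl _ => fl ++ [decide (potF J U W A B (fl ++ [true]) < potF J U W A B fl)])
    (cond J.length.bodd [false] []))

/-- The discrepancy of a colouring. -/
def disc (J : List ℕ) (A : List (List Bool)) (x : List Bool) : ℕ :=
  ((dv J A x).map Int.natAbs).foldl max 0

/-- The best of the colourings. -/
def best (J U W : List ℕ) (A : List (List Bool)) : List Bool :=
  (J.map (greedy J U W A)).foldl (fun c x => cond (decide (disc J A x < disc J A c)) x c) (out A)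

/-- The colouring algorithm. -/
def out2 (A : List (List Bool)) : List Bool :=
  best (List.range (A.headD []).length)
    (List.range (2 * (4 * (A.headD []).length * (A.length + 1)) + 1))
    (List.range (4 * (A.headD []).length * (A.length + 1) + 1)) A

variable {α : Type} [N487b59b3 α]

@[fun_prop] theorem colr_PT {J : α → List ℕ} {e : α → ℕ} {fl : α → List Bool} (hJ : PT J)
    (he : PT e) (hf : PT fl) : PT (fun a => colr (J a) (e a) (fl a)) := by
  unfold colr
  fun_prop

@[fun_prop] theorem dv_PT {J : α → List ℕ} {A : α → List (List Bool)} {x : α → List Bool}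
    (hJ : PT J) (hA : PT A) (hx : PT x) : PT (fun a => dv (J a) (A a) (x a)) := by
  unfold dv sg
  fun_prop

@[fun_prop] theorem pow_PT {U : α → List ℕ} (hU : PT U) : PT (fun a => 2 ^ (U a).length) :=
  (PT.twoPowSz (PT.ulen' hU)).of_eq fun a => by simp [ulen]

@[fun_prop] theorem fq_PT {Q : α → ℕ} {U : α → List ℕ} {v : α → ℤ} (hQ : PT Q) (hU : PT U)
    (hv : PT v) : PT (fun a => fq (Q a) (U a) (v a)) := by
  unfold fq
  fun_prop

@[fun_prop] theorem psiN_PT {c K L Q b : α → ℕ} {U : α → List ℕ} {d : α → List ℤ} (hc : PT c)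
    (hK : PT K) (hL : PT L) (hQ : PT Q) (hU : PT U) (hd : PT d) (hb : PT b) :
    PT (fun a => psiN (c a) (K a) (L a) (Q a) (U a) (d a) (b a)) := by
  unfold psiN
  fun_prop

theorem foldl_min_PT {l : α → List ℕ} {x : α → ℕ} (hl : PT l) (hx : PT x) :
    PT (fun a => (l a).foldl min (x a)) :=
  PT.foldlA (g := fun _ => min) (PT.of_eq (f := fun x : α × ℕ × ℕ =>
    if x.2.1 ≤ x.2.2 then x.2.1 else x.2.2) (by fun_prop) fun _ => (min_def _ _).symm) hx hl
    (PB.const 0) fun _ _ _ => sz_nat_mono (min_le_left _ _)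

theorem foldl_max_PT {l : α → List ℕ} {x : α → ℕ} (hl : PT l) (hx : PT x) :
    PT (fun a => (l a).foldl max (x a)) :=
  PT.foldlA (g := fun _ => max) (PT.of_eq (f := fun x : α × ℕ × ℕ =>
    if x.2.1 ≤ x.2.2 then x.2.2 else x.2.1) (by fun_prop) fun _ => (max_def _ _).symm) hx hl
    (B := fun x => sz x.2) (PB.of_PT (by fun_prop)) fun _ c b => by
      rcases max_cases c b with h | h <;> rw [h.1] <;> simp

@[fun_prop] theorem potN_PT {c K L Q : α → ℕ} {U W : α → List ℕ} {d : α → List ℤ} (hc : PT c)
    (hK : PT K) (hL : PT L) (hQ : PT Q) (hU : PT U) (hW : PT W) (hd : PT d) :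
    PT (fun a => potN (c a) (K a) (L a) (Q a) (U a) (W a) (d a)) :=
  foldl_min_PT (PT.map (f := fun a b => psiN (c a) (K a) (L a) (Q a) (U a) (d a) b) (by fun_prop) hW)
    (by fun_prop)

theorem sz_nat_mul (m n : ℕ) : sz (m * n) ≤ sz m + sz n := by
  rw [sz_nat, Nat.size_le, pow_add]
  exact Nat.mul_lt_mul'' (lt_two_pow_sz m) (lt_two_pow_sz n)

@[fun_prop] theorem fac_PT {U : α → List ℕ} (hU : PT U) : PT (fun a => fac (U a)) :=
  PT.foldlA (g := fun _ c j => c * (j + 1)) (by fun_prop) (PT.const _) hU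
    (B := fun x => sz (x.2 + 1)) (PB.of_PT (by fun_prop)) fun _ _ _ => sz_nat_mul _ _

@[fun_prop] theorem toNat_PT {b : α → Bool} (hb : PT b) : PT (fun a => (b a).toNat) :=
  PT.of_eq (f := fun a => cond (b a) 1 0) (by fun_prop) fun a => by cases b a <;> rfl

@[fun_prop] theorem potF_PT {J U W : α → List ℕ} {A : α → List (List Bool)} {B : α → ℕ}
    {fl : α → List Bool} (hJ : PT J) (hU : PT U) (hW : PT W) (hA : PT A) (hB : PT B)
    (hf : PT fl) : PT (fun a => potF (J a) (U a) (W a) (A a) (B a) (fl a)) := by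
  unfold potF
  fun_prop

@[fun_prop] theorem greedy_PT {J U W : α → List ℕ} {A : α → List (List Bool)} {B : α → ℕ}
    (hJ : PT J) (hU : PT U) (hW : PT W) (hA : PT A) (hB : PT B) :
    PT (fun a => greedy (J a) (U a) (W a) (A a) (B a)) :=
  colr_PT hJ (by fun_prop) (PT.foldlA (g := fun a fl (_ : ℕ) => fl ++ [decide
    (potF (J a) (U a) (W a) (A a) (B a) (fl ++ [true]) < potF (J a) (U a) (W a) (A a) (B a) fl)])
    (by fun_prop) (by fun_prop) (by fun_prop) (PB.const 3) fun _ _ _ => by simp)

@[fun_prop] theorem disc_PT {J : α → List ℕ} {A : α → List (List Bool)} {x : α → List Bool}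
    (hJ : PT J) (hA : PT A) (hx : PT x) : PT (fun a => disc (J a) (A a) (x a)) :=
  foldl_max_PT (PT.map (f := fun _ z => Int.natAbs z) (by fun_prop) (by fun_prop)) (PT.const _)

theorem best_PT {J U W : α → List ℕ} {A : α → List (List Bool)}
    (hJ : PT J) (hU : PT U) (hW : PT W) (hA : PT A) :
    PT (fun a => best (J a) (U a) (W a) (A a)) :=
  PT.foldlA (g := fun a c x => cond (decide (disc (J a) (A a) x < disc (J a) (A a) c)) x c)
    (by fun_prop) (PT.comp out_PT hA)
    (PT.map (f := fun a B => greedy (J a) (U a) (W a) (A a) B) (by fun_prop) hJ)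
    (B := fun x => sz x.2) (PB.of_PT (by fun_prop)) fun a c x => by
      cases decide (disc (J a) (A a) x < disc (J a) (A a) c) <;> simp

theorem out2_PT : PT out2 := by
  have h1 : PT fun A : List (List Bool) =>
      (((Un.mk 4).mul (ulen (A.headD []))).mul ((ulen A).add ⟨1⟩)) := by fun_prop
  exact best_PT (PT.urange' (PT.ulen' (by fun_prop)))
    (PT.urange' (PT.unAdd (PT.unMul (PT.const (Un.mk 2)) h1) (PT.const (Un.mk 1))))
    (PT.urange' (PT.unAdd h1 (PT.const (Un.mk 1)))) PT.id'

end Pool.Agent.Lib.MP_29d7aa_lc.Gd
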