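import Pool.Agent.Lib.MP_29d7aa_lc.GRow

/-!
The potential and its expected decrease in one step.
-/

set_option autoImplicit false

noncomputable section

namespace Pool.Agent.Lib.MP_29d7aa_lc.Gd

open Finset

variable {ι : Type} [Fintype ι]

/-- The potential at a given position of the barrier. -/
def Psi (K : ℝ) (L : ℕ) (d : ι → ℤ) (b : ℕ) : ℝ :=
  b + K * ∑ i, (fb (b - L * d i) + fb (b + L * d i))

/-- The potential at the best position of the barrier. -/
def pot (K : ℝ) (L n : ℕ) (d : ι → ℤ) : ℝ := (range (n + 1)).inf' nonempty_range_add_one (Psi K L d)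

/-- The difference of the two entries of a pair of columns. -/
def zv : Fin 3 → ℤ := ![1, -1, 0]

/-- One step: the signs of the pair are exchanged if the potential decreases. -/
def stp (K : ℝ) (L n : ℕ) (d : ι → ℤ) (a : ι → Fin 3) : ι → ℤ :=
  if pot K L n (fun i => d i - 2 * zv (a i)) < pot K L n d then fun i => d i - 2 * zv (a i) else d

variable {K : ℝ} {L B n : ℕ}

theorem pot_le (d : ι → ℤ) {b : ℕ} (hb : b ≤ n) : pot K L n d ≤ Psi K L d b :=
  inf'_le _ (mem_range.2 (by omega))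

theorem pot_eq (K : ℝ) (L n : ℕ) (d : ι → ℤ) : ∃ b ≤ n, pot K L n d = Psi K L d b := by
  obtain ⟨b, hb, h⟩ := exists_mem_eq_inf' (nonempty_range_add_one (n := n)) (Psi K L d)
  exact ⟨b, by simpa [Nat.lt_succ_iff] using hb, h⟩

theorem le_Psi (hK : 0 < K) (d : ι → ℤ) (b : ℕ) : b ≤ Psi K L d b :=
  le_add_of_nonneg_right (mul_nonneg hK.le (sum_nonneg fun _ _ =>
    add_nonneg (fb_pos _).le (fb_pos _).le))

theorem pot_nonneg (hK : 0 < K) (d : ι → ℤ) : 0 ≤ pot K L n d := by
  obtain ⟨b, -, h⟩ := pot_eq K L n d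
  exact h ▸ (Nat.cast_nonneg b).trans (le_Psi hK d b)

theorem stp_le (d : ι → ℤ) (a : ι → Fin 3) : pot K L n (stp K L n d a) ≤ pot K L n d := by
  unfold stp
  split_ifs with h
  · exact h.le
  · exact le_rfl

theorem pot_upper (hL : 1 ≤ L) (hB : 1 ≤ B) (hK : 0 < K)
    (hm : Fintype.card ι * K = (B * L) ^ 2) {d : ι → ℤ} {D : ℕ} (hD : ∀ i, |d i| ≤ D)
    (hn : L * D + B * L ≤ n) : pot K L n d ≤ L * (D + 3 * B) := by
  have h0 : (1 : ℤ) ≤ B * L := one_le_mul_of_one_le_of_one_le (by omega) (by omega)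
  have h1 : (1 : ℝ) ≤ B * L := by exact_mod_cast h0
  have h2 : ∀ v : ℤ, B * L ≤ v → fb v ≤ 1 / (B * L) := fun v hv => by
    refine (fb_anti hv).trans (le_of_eq ?_)
    rw [fb_hi h0]
    push_cast
    rfl
  refine (pot_le d hn).trans ?_
  have h3 : ∑ i, (fb (((L * D + B * L : ℕ) : ℤ) - L * d i) + fb ((L * D + B * L : ℕ) + L * d i)) ≤
      ∑ _i : ι, 2 * (1 / (B * L) : ℝ) := by
    refine sum_le_sum fun i _ => ?_
    have a1 := mul_le_mul_of_nonneg_left (abs_le.1 (hD i)).1 (Nat.cast_nonneg (α := ℤ) L)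
    have a2 := mul_le_mul_of_nonneg_left (abs_le.1 (hD i)).2 (Nat.cast_nonneg (α := ℤ) L)
    rw [two_mul]
    refine add_le_add (h2 _ ?_) (h2 _ ?_) <;> push_cast <;> linarith
  have h4 : K * ∑ _i : ι, 2 * (1 / (B * L) : ℝ) = 2 * (B * L) := by
    rw [sum_const, card_univ, nsmul_eq_mul, ← mul_assoc, mul_comm K, hm]
    field_simp
  have h5 := mul_le_mul_of_nonneg_left h3 hK.le
  rw [Psi]
  push_cast at h5 ⊢
  linarith

theorem pot_lower (hL : 1 ≤ L) (hB : 1 ≤ B) (hK : 0 < K)
    (hm : Fintype.card ι * K = (B * L) ^ 2) (hm' : Fintype.card ι ≤ 2 ^ (B * L)) {d : ι → ℤ}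
    (h : pot K L n d ≤ 51 * (B * L)) (i : ι) : |d i| ≤ 58 * B := by
  by_contra hc
  obtain ⟨b, -, hb⟩ := pot_eq K L n d
  have h0 : 1 ≤ B * L := one_le_mul_of_one_le_of_one_le hB hL
  have h1 : (1 : ℝ) ≤ B * L := by exact_mod_cast h0
  have h2 : (b : ℤ) ≤ 51 * (B * L) := by exact_mod_cast (le_Psi hK d b).trans (hb ▸ h)
  have h3 := mul_le_mul_of_nonneg_left (not_le.1 hc).le (Nat.cast_nonneg (α := ℤ) L)
  have h4 : fb (-(6 + (B * L : ℕ))) ≤ fb (b - L * d i) + fb (b + L * d i) := by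
    have a0 : (1 : ℤ) ≤ B * L := by exact_mod_cast h0
    rcases abs_cases (d i) with a | a <;> rw [a.1] at h3
    · refine le_add_of_le_of_nonneg (fb_anti ?_) (fb_pos _).le
      push_cast
      linarith
    · refine le_add_of_nonneg_of_le (fb_pos _).le (fb_anti ?_)
      push_cast
      linarith
  have h5 : fb (-(6 + (B * L : ℕ))) = 128 * 2 ^ (B * L) := by
    rw [fb_lo (by omega), show (1 : ℤ) - -(6 + (B * L : ℕ)) = (7 + B * L : ℕ) by push_cast; ring,
      zpow_natCast, pow_add]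
    norm_num
  have h6 : (Fintype.card ι : ℝ) ≤ 2 ^ (B * L) := by exact_mod_cast hm'
  have h7 := single_le_sum (f := fun i => fb (b - L * d i) + fb (b + L * d i))
    (fun _ _ => add_nonneg (fb_pos _).le (fb_pos _).le) (mem_univ i)
  have h8 := mul_le_mul_of_nonneg_left ((h5 ▸ h4).trans h7) hK.le
  have h9 := mul_le_mul_of_nonneg_left h6 hK.le
  rw [hb, Psi] at h
  nlinarith [Nat.cast_nonneg (α := ℝ) b]

theorem drift [DecidableEq ι] (hL : 1 ≤ L) (hB : 1 ≤ B) (hBL : 2 ≤ B * L) (hK : 0 < K)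
    (hm : Fintype.card ι * K = (B * L) ^ 2) {r η β : ℝ} (hr : 0 < r) (hr' : r ≤ 1 / 4)
    (hrL : r * L / B ≤ 1 / 2) (hη : 0 ≤ η) (hη' : η ≤ 2 / 5) {τ : ι → Fin 3 → ℝ}
    (t0 : ∀ i, r ≤ (1 + η) * τ i 0) (t1 : ∀ i, r ≤ (1 + η) * τ i 1)
    (t2 : ∀ i, 1 - 2 * r ≤ (1 + 6 * r * η) * τ i 2)
    (hβ : 7196 * (r * Fintype.card ι) / B ^ 2 + 12 * (r * Fintype.card ι) * η ≤ β) {d : ι → ℤ}
    (h1 : 51 * (B * L) < pot K L n d) (h2 : pot K L n d < n) :
    r * L / (64 * B) / (Real.exp β * (2 * (2 * (2 + L)) + 2 + √(2 * (K / L) / (r * L / (64 * B))))) ≤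
      PI τ fun a => pot K L n d - pot K L n (stp K L n d a) := by
  obtain ⟨b, hb, hb'⟩ := pot_eq K L n d
  have a1 : (1 : ℝ) ≤ L := by exact_mod_cast hL
  have a2 : (1 : ℝ) ≤ B := by exact_mod_cast hB
  have a3 : (2 : ℝ) ≤ B * L := by exact_mod_cast hBL
  have a4 : b < n := by exact_mod_cast (le_Psi hK d b).trans_lt (hb' ▸ h2)
  have w1 : K * ∑ i, (dl (b - L * d i) + dl (b + L * d i)) ≤ 1 := by
    have := hb' ▸ pot_le (K := K) (L := L) (b := b + 1) d a4
    simp only [Psi, Nat.cast_add, Nat.cast_one, add_right_comm (b : ℤ) 1, add_sub_right_comm,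
      sum_add_distrib] at this
    simp only [dl, sum_add_distrib, sum_sub_distrib]
    linarith
  have w2 : (48 * B * L : ℝ) ≤ b := by
    have c1 : ∑ i, (fb (b - L * d i) + fb (b + L * d i)) ≤
        ∑ i, (B * L * (dl (b - L * d i) + dl (b + L * d i)) + 2 * (1 / (B * L))) :=
      sum_le_sum fun i _ => by linarith [fb_le a3 (b - L * d i), fb_le a3 (b + L * d i)]
    have c2 : K * ∑ _i : ι, 2 * (1 / (B * L) : ℝ) = 2 * (B * L) := by
      rw [sum_const, card_univ, nsmul_eq_mul, ← mul_assoc, mul_comm K, hm]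
      field_simp
    rw [sum_add_distrib (g := fun _ => 2 * (1 / (B * L) : ℝ)), ← mul_sum] at c1
    rw [hb', Psi] at h1
    linarith [mul_le_mul_of_nonneg_left c1 hK.le,
      mul_le_mul_of_nonneg_left w1 (by linarith : (0 : ℝ) ≤ B * L)]
  have w3 : (48 * B * L : ℤ) ≤ b := by exact_mod_cast w2
  have w4 : 1 ≤ K * (3 * ∑ i, (dl (b - L * d i) + dl (b + L * d i))) := by
    obtain ⟨b, rfl⟩ : ∃ c, b = c + 1 := ⟨b - 1, by
      have : (1 : ℝ) ≤ b := by linarith
      have : 1 ≤ b := by exact_mod_cast this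
      omega⟩
    have c1 := hb' ▸ pot_le (K := K) (L := L) d (by omega : b ≤ n)
    have c2 : ∑ i, (dl (b - L * d i) + dl (b + L * d i)) ≤
        ∑ i, 3 * (dl ((b + 1 : ℕ) - L * d i) + dl ((b + 1 : ℕ) + L * d i)) :=
      sum_le_sum fun i _ => by
        have e1 := dl_pred ((b + 1 : ℕ) - L * d i)
        have e2 := dl_pred ((b + 1 : ℕ) + L * d i)
        rw [show ((b + 1 : ℕ) : ℤ) - L * d i - 1 = b - L * d i by push_cast; ring] at e1
        rw [show ((b + 1 : ℕ) : ℤ) + L * d i - 1 = b + L * d i by push_cast; ring] at e2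
        linarith
    rw [← mul_sum] at c2
    refine le_trans ?_ (mul_le_mul_of_nonneg_left c2 hK.le)
    simp only [Psi, Nat.cast_add, Nat.cast_one, add_right_comm (b : ℤ) 1, add_sub_right_comm,
      sum_add_distrib] at c1
    simp only [dl, sum_add_distrib, sum_sub_distrib]
    linarith
  obtain ⟨ω, hω⟩ : ∃ ω : ι → ℝ, ∀ i, ω i =
    if b - L * |d i| < 16 * B * L then dl (b - L * |d i|) else 0 := ⟨_, fun _ => rfl⟩
  have w5 : ∀ i, ω i ≤ dl (b - L * d i) + dl (b + L * d i) ∧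
      dl (b - L * d i) + dl (b + L * d i) ≤ ω i + 2 * (1 / (16 * B * L) ^ 2) := by
    intro i
    have c1 : dl (b - L * d i) + dl (b + L * d i) = dl (b - L * |d i|) + dl (b + L * |d i|) := by
      rcases abs_cases (d i) with a | a <;> rw [a.1]
      rw [mul_neg, sub_neg_eq_add, add_comm, sub_eq_add_neg]
    have c2 : dl (b + L * |d i|) ≤ 1 / (16 * B * L) ^ 2 := dl_le (by linarith) (by
      have : (0 : ℝ) ≤ L * |(d i : ℝ)| := by positivity
      push_cast
      linarith)
    have c3 := dl_pos (b - L * |d i|)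
    have c4 := dl_pos (b + L * |d i|)
    rw [c1, hω]
    split_ifs with c
    · constructor <;> linarith
    · have c5 : dl (b - L * |d i|) ≤ 1 / (16 * B * L) ^ 2 :=
        dl_le (by linarith) (by exact_mod_cast not_lt.1 c)
      constructor <;> linarith
  have w6 : K * ∑ i, ω i ≤ 1 :=
    (mul_le_mul_of_nonneg_left (sum_le_sum fun i _ => (w5 i).1) hK.le).trans w1
  have w7 : 1 / 3 - 1 / 128 ≤ K * ∑ i, ω i := by
    have c1 := mul_le_mul_of_nonneg_left (sum_le_sum fun i (_ : i ∈ univ) => (w5 i).2) hK.le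
    have c2 : K * ∑ _i : ι, 2 * (1 / (16 * B * L) ^ 2 : ℝ) = 1 / 128 := by
      rw [sum_const, card_univ, nsmul_eq_mul, ← mul_assoc, mul_comm K, hm]
      field_simp
      norm_num
    rw [sum_add_distrib (f := ω)] at c1
    linarith
  obtain ⟨e, he⟩ : ∃ e : ℝ, e = 41 / 10 * r * K * ((2 * L) ^ 2 / (16 * B * L) ^ 3) := ⟨_, rfl⟩
  have w8 : Fintype.card ι * e = 41 / 10240 * (r * L / B) := by
    rw [he, show Fintype.card ι * (41 / 10 * r * K * ((2 * L) ^ 2 / (16 * B * L) ^ 3)) =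
      Fintype.card ι * K * (41 / 10 * r * ((2 * L) ^ 2 / (16 * B * L) ^ 3)) by ring, hm]
    field_simp
    norm_num
  have w9 : r * L / (64 * B) = 1 / 64 * (r * L / B) := by field_simp
  have x0 : 0 < r * L / B := by positivity
  refine le_trans (core (X := fun i c => K * (fb (b - L * d i) + fb (b + L * d i) -
    fb (b - L * (d i - 2 * zv c)) - fb (b + L * (d i - 2 * zv c))))
    (g := fun i => 2 / 27 * (r * L / B) * (K * ω i) - e)
    (β := fun i => 7196 * r * L ^ 2 * ω i + 12 * r * η) (e := 2 * e) (fun i => ?_)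
    (by positivity) ?_ (by linarith) (le_trans ?_ hβ) (by positivity) (by positivity))
    (PI_mono (fun i c => ?_) fun a => ?_)
  · have c0 : (0 : ℤ) ≤ L * |d i| := by positivity
    rcases abs_cases (d i) with a | a
    · have c1 := row_good hL hB hK hr hr' hrL hη hη' (t0 i) (t1 i) (t2 i)
        (v := b - L * |d i|) (v' := b + L * |d i|) (by linarith) (by linarith) (hω i) he
      rw [a.1] at c1
      convert c1 using 1
      funext c
      fin_cases c <;> simp [zv] <;> ring_nf <;> simp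
    · have c1 := (row_good hL hB hK hr hr' hrL hη hη' (τ := fun c => τ i (Equiv.swap 0 1 c))
        (t1 i) (t0 i) (t2 i) (v := b - L * |d i|) (v' := b + L * |d i|) (by linarith)
        (by linarith) (hω i) he).comp (Equiv.swap 0 1)
      rw [a.1] at c1
      simp only [Equiv.swap_apply_self] at c1
      convert c1 using 1
      funext c
      fin_cases c <;> simp [zv, Equiv.swap_apply_def] <;> ring_nf <;> simp
  · rw [sum_sub_distrib, sum_const, card_univ, nsmul_eq_mul, ← mul_sum, ← mul_sum]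
    nlinarith
  · rw [sum_add_distrib, sum_const, card_univ, nsmul_eq_mul, ← mul_sum]
    have c1 : (L : ℝ) ^ 2 * ∑ i, ω i ≤ Fintype.card ι / B ^ 2 := by
      rw [le_div_iff₀ (by positivity)]
      have := mul_le_mul_of_nonneg_left w6 (Nat.cast_nonneg (α := ℝ) (Fintype.card ι))
      rw [← mul_assoc, hm] at this
      linarith
    have := mul_le_mul_of_nonneg_left c1 hr.le
    rw [mul_div_assoc, mul_div_assoc]
    linarith
  · fin_cases c
    · exact nonneg_of_le_mul hr.le (by positivity) (t0 i)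
    · exact nonneg_of_le_mul hr.le (by positivity) (t1 i)
    · exact nonneg_of_le_mul (by linarith) (by positivity) (t2 i)
  · refine max_le ?_ (sub_nonneg.2 (stp_le d a))
    have c1 := pot_le (K := K) (L := L) (fun i => d i - 2 * zv (a i)) hb
    have c2 : pot K L n (stp K L n d a) ≤ pot K L n fun i => d i - 2 * zv (a i) := by
      unfold stp
      split_ifs with h
      · exact le_rfl
      · exact not_lt.1 h
    rw [hb']
    simp only [Psi, sum_add_distrib] at c1 ⊢
    simp only [← mul_sum, sum_sub_distrib, sum_add_distrib]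
    linarith

end Pool.Agent.Lib.MP_29d7aa_lc.Gd
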