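import Pool.Agent.Lib.MP_29d7aa_lc.GLink

/-!
The failure probability of the greedy colouring.
-/

set_option autoImplicit false

noncomputable section

namespace Pool.Agent.Lib.MP_29d7aa_lc.Gd

open Finset

variable {m : ℕ}

theorem E1_pair (p : ℝ) (F : (Fin m → Fin 3) → ℝ) :
    E1 p (fun u => E1 p fun v => F fun i => zc (u i) (v i)) =
      PI (fun _ => ![p * (1 - p), p * (1 - p), 1 - 2 * (p * (1 - p))]) F := by
  have h := PI_push (fun (_ : Fin m) (x : Bool × Bool) =>
    (if x.1 then p else 1 - p) * if x.2 then p else 1 - p) (fun _ x => zc x.1 x.2) F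
  rw [PI, ← (Equiv.arrowProdEquivProdArrow _ _ _).symm.sum_comp, Fintype.sum_prod_type] at h
  simp only [E1, mul_sum, ← mul_assoc, ← prod_mul_distrib]
  refine h.trans ?_
  congr 1
  funext _ c
  fin_cases c <;> simp [Fintype.sum_prod_type, zc] <;> ring

theorem ExL_zs (p : ℝ) (k : ℕ) (G : List (Fin m → Fin 3) → ℝ) :
    ExL p (2 * k) (fun l => G (zs l)) =
      XL ![p * (1 - p), p * (1 - p), 1 - 2 * (p * (1 - p))] k G := by
  induction k generalizing G with
  | zero => rfl
  | succ k ih =>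
    rw [XL, ← E1_pair]
    simp only [← ih]
    rfl

theorem disc_le (cs : List (Fin m → Bool)) (x : List Bool) (D : ℕ) :
    disc (List.range cs.length) (rws cs) x ≤ D ↔ ∀ i, |dC cs x i| ≤ D := by
  rw [disc, foldl_max_le, dv_rws, List.map_ofFn, List.forall_mem_ofFn_iff]
  simp only [zero_le, true_and, Function.comp, Int.abs_eq_natAbs, Nat.cast_le]

open Classical in
theorem greedy_fail (hm : 2 ≤ m) {e k B L D R : ℕ} (he : e ≤ 1) (hB : 1 ≤ B) (hB' : B < e + 2 * k)
    (hL : L = m.size / B + 1) (hR : R < k) {p r ε β : ℝ} (hp : 0 < p) (hp' : p ≤ 1 / 2)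
    (hr : r = p * (1 - p)) (hrL : r * L / B ≤ 1 / 2) (hε : 0 ≤ ε) (hε' : ε ≤ 1 / 5)
    (hβ : 7196 * (r * m) / B ^ 2 + 24 * (r * m) * ε ≤ β) (hD : 2 * (ε * (k * r)) + 1 ≤ D)
    (hD' : D ≤ e + 2 * k) :
    ExL p (e + 2 * k) (fun cs : List (Fin m → Bool) => if disc (List.range cs.length) (rws cs)
      (greedy (List.range cs.length) (List.range (2 * (4 * cs.length * (m + 1)) + 1))
        (List.range (4 * cs.length * (m + 1) + 1)) (rws cs) B) ≤ 58 * B then 0 else 1) ≤
      L * (D + 3 * B) / (r * L / (64 * B) / (Real.exp β * (2 * (2 * (2 + L)) + 2 +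
        √(2 * ((B * L) ^ 2 / m / L) / (r * L / (64 * B))))) * (k - R : ℕ)) +
        2 * (m * (4 * Real.exp (-(ε ^ 2 * (R * r) / 4)))) := by
  have a0 : 0 < r := hr ▸ mul_pos hp (by linarith)
  have a1 : r ≤ 1 / 4 := by nlinarith [sq_nonneg (p - 1 / 2)]
  have a2 : 1 ≤ L := hL ▸ Nat.le_add_left 1 _
  have a3 : m.size < B * L := hL ▸ Nat.lt_mul_div_succ _ hB
  have a4 : 1 < m.size := Nat.lt_size.2 hm
  have a5 : L ≤ m + 1 := hL ▸
    Nat.succ_le_succ ((Nat.div_le_self _ _).trans (Nat.size_le.2 Nat.lt_two_pow_self))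
  have a6 : (0 : ℝ) < m := by exact_mod_cast (by omega : 0 < m)
  have a7 : (0 : ℝ) < B := by exact_mod_cast hB
  have a8 : (0 : ℝ) < L := by exact_mod_cast a2
  have a9 : L * (D + 3 * B) < 4 * (e + 2 * k) * (m + 1) :=
    mul_comm (m + 1) _ ▸ Nat.mul_lt_mul_of_le_of_lt a5 (by omega) (by omega)
  have b0 : 0 < ((B : ℝ) * L) ^ 2 / m := by positivity
  have b1 : Fintype.card (Fin m) * (((B : ℝ) * L) ^ 2 / m) = (B * L) ^ 2 := by
    rw [Fintype.card_fin]
    field_simp
  have w0 : ∀ c, 0 ≤ ![r, r, 1 - 2 * r] c := fun c => by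
    fin_cases c
    exacts [a0.le, a0.le, (by linarith : 0 ≤ 1 - 2 * r)]
  have w1 : ∑ c, ![r, r, 1 - 2 * r] c = 1 := by
    simp [Fin.sum_univ_three]
    ring
  rw [ExL_append]
  refine (ExL_mono hp.le (by linarith) e fun t ht => ?_).trans (ExL_const e _).le
  refine le_trans (ExL_mono hp.le (by linarith) _ fun l hl => ?_) ((ExL_zs p k fun z =>
    if 51 * (B * L : ℝ) < pot ((B * L) ^ 2 / m) L (4 * (e + 2 * k) * (m + 1))
      (z.foldl (stp ((B * L) ^ 2 / m) L (4 * (e + 2 * k) * (m + 1)))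
        fun i => -(t.map fun u => cond (u i) 1 0).sum + ((cnt z i 0 : ℤ) - cnt z i 1))
      then 1 else 0).le.trans ?_)
  · have c1 := link (by omega) t l k B hl (by omega)
    split_ifs with c2 c3 c3
    · exact zero_le_one
    · exact le_rfl
    · exact le_rfl
    · refine absurd ?_ c2
      rw [disc_le, c1, List.length_append, ht, hl, ← hL, Nat.cast_mul, Nat.cast_mul, ← sq]
      intro i
      exact_mod_cast pot_lower a2 hB b0 b1 (by
        rw [Fintype.card_fin]
        exact (Nat.lt_size_self m).le.trans (Nat.pow_le_pow_right (by omega) a3.le))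
        (not_lt.1 c3) i
  rw [← hr]
  refine descent' w0 w1 (T := fun z => ∀ i, |(cnt z i 0 : ℝ) - z.length * r| ≤ ε * (z.length * r) ∧
    |(cnt z i 1 : ℝ) - z.length * r| ≤ ε * (z.length * r)) (by positivity) (pot_nonneg b0)
    (by positivity) stp_le (fun j hj => ?_) (fun z d c1 c2 c3 c4 => ?_) hR
    (fun S i => -(t.map fun u => cond (u i) 1 0).sum + ((S i 0 : ℤ) - S i 1)) fun z hz c1 => ?_
  · refine le_trans (XL_mono w0 j (G := fun z => ∑ i : Fin m,
      ((if |(cnt z i 0 : ℝ) - j * r| ≤ ε * (j * r) then 0 else 1) +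
        if |(cnt z i 1 : ℝ) - j * r| ≤ ε * (j * r) then 0 else 1)) fun z hz => ?_) ?_
    · have c0 : ∀ i : Fin m, (0 : ℝ) ≤ (if |(cnt z i 0 : ℝ) - j * r| ≤ ε * (j * r) then 0 else 1) +
          if |(cnt z i 1 : ℝ) - j * r| ≤ ε * (j * r) then 0 else 1 := fun i => by positivity
      rw [hz]
      split_ifs with c1
      · exact sum_nonneg fun i _ => c0 i
      · obtain ⟨i, hi⟩ := not_forall.1 c1
        refine le_trans ?_ (single_le_sum (fun i _ => c0 i) (mem_univ i))
        split_ifs with c2 c3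
        · exact absurd ⟨c2, c3⟩ hi
        all_goals norm_num
    · rw [XL_sum]
      refine (sum_le_card_nsmul _ _ (4 * Real.exp (-(ε ^ 2 * (R * r) / 4))) fun i _ => ?_).trans
        (by simp)
      have c1 := XL_tail w0 w1 i 0 hε (by linarith) j
      have c2 := XL_tail w0 w1 i 1 hε (by linarith) j
      have c3 : Real.exp (-(ε ^ 2 * (j * r) / 4)) ≤ Real.exp (-(ε ^ 2 * (R * r) / 4)) := by
        gcongr
      simp only [Matrix.cons_val_zero, Matrix.cons_val_one] at c1 c2
      rw [XL_add]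
      exact (add_le_add c1 c2).trans (by linarith)
  · have d0 : (0 : ℝ) < z.length := by exact_mod_cast (by omega : 0 < z.length)
    have d1 : ∀ x : ℝ, |x - z.length * r| ≤ ε * (z.length * r) →
        r * (1 - ε) ≤ x / z.length ∧ x / z.length ≤ r * (1 + ε) := fun x hx => by
      rw [le_div_iff₀ d0, div_le_iff₀ d0]
      constructor <;> linarith [(abs_le.1 hx).1, (abs_le.1 hx).2]
    have d2 : ∀ x, r * (1 - ε) ≤ x → r ≤ (1 + 2 * ε) * x := fun x hx => by
      have := mul_le_mul_of_nonneg_left hx (by linarith : 0 ≤ 1 + 2 * ε)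
      nlinarith [mul_nonneg (mul_nonneg a0.le hε) (by linarith : 0 ≤ 1 - 2 * ε)]
    refine drift a2 hB (by omega) b0 b1 a0 a1 hrL (η := 2 * ε) (by linarith) (by linarith)
      (fun i => d2 _ (d1 _ (c2 i).1).1) (fun i => d2 _ (d1 _ (c2 i).2).1) (fun i => ?_)
      (by rw [Fintype.card_fin]; linarith) c3 (c4.trans_lt (by exact_mod_cast a9))
    have d3 : (cnt z i 2 : ℝ) / z.length = 1 - cnt z i 0 / z.length - cnt z i 1 / z.length := by
      have := sum_cnt z i
      rw [Fin.sum_univ_three] at this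
      have : (cnt z i 0 : ℝ) + cnt z i 1 + cnt z i 2 = z.length := by exact_mod_cast this
      field_simp
      linarith
    have d4 : 1 - 2 * r - 2 * (r * ε) ≤ (cnt z i 2 : ℝ) / z.length := by
      linarith [(d1 _ (c2 i).1).2, (d1 _ (c2 i).2).2]
    have d5 : 0 ≤ r * ε := by positivity
    have d6 : r * ε ≤ 1 / 4 * (1 / 5) := by gcongr
    have d7 := mul_le_mul_of_nonneg_left d4 (by linarith : 0 ≤ 1 + 12 * (r * ε))
    linarith [mul_nonneg d5 (by linarith : 0 ≤ 10 - 24 * r - 24 * (r * ε))]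
  · refine pot_upper a2 hB b0 b1 (fun i => ?_) (by nlinarith)
    have d1 : |-(t.map fun u => cond (u i) (1 : ℤ) 0).sum| ≤ 1 := by
      rcases Nat.le_one_iff_eq_zero_or_eq_one.1 (ht ▸ he) with h | h
      · simp [List.length_eq_zero_iff.1 h]
      · obtain ⟨u, rfl⟩ := List.length_eq_one_iff.1 h
        cases h' : u i <;> simp [h']
    have d2 : |(cnt z i 0 : ℤ) - cnt z i 1| + 1 ≤ D := by
      have d3 := abs_le.1 (c1 i).1
      have d4 := abs_le.1 (c1 i).2
      rw [hz] at d3 d4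
      have : |(cnt z i 0 : ℝ) - cnt z i 1| ≤ D - 1 := abs_le.2 ⟨by linarith, by linarith⟩
      exact_mod_cast le_sub_iff_add_le.1 this
    linarith [abs_add_le (-(t.map fun u => cond (u i) (1 : ℤ) 0).sum)
      ((cnt z i 0 : ℤ) - cnt z i 1)]

end Pool.Agent.Lib.MP_29d7aa_lc.Gd
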