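import Pool.Agent.Lib.MP_29d7aa_lc.GProd

/-!
Lists of independent columns, conditioning on the counts, and the descent of a potential.
-/

set_option autoImplicit false

noncomputable section

namespace Pool.Agent.Lib.MP_29d7aa_lc.Gd

open Finset

variable {ι α : Type} [Fintype ι] [DecidableEq ι] [Fintype α] [DecidableEq α] {w : α → ℝ}

/-- Expectation over a list of independent columns. -/
def XL (w : α → ℝ) : ℕ → (List (ι → α) → ℝ) → ℝ
  | 0, F => F []
  | k + 1, F => PI (fun _ => w) fun a => XL w k fun l => F (a :: l)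

/-- The number of columns with a given entry in a given row. -/
def cnt (l : List (ι → α)) (i : ι) (c : α) : ℕ := (l.map fun a => if a i = c then 1 else 0).sum

omit [DecidableEq α] in
theorem XL_add (k : ℕ) (F G : List (ι → α) → ℝ) :
    XL w k (fun l => F l + G l) = XL w k F + XL w k G := by
  induction k generalizing F G with
  | zero => rfl
  | succ k ih => simp only [XL, ih, PI_add]

omit [DecidableEq α] in
theorem XL_mul (k : ℕ) (c : ℝ) (F : List (ι → α) → ℝ) :
    XL w k (fun l => c * F l) = c * XL w k F := by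
  induction k generalizing F with
  | zero => rfl
  | succ k ih => simp only [XL, ih, PI_mul]

omit [DecidableEq α] in
theorem XL_const (h1 : ∑ a, w a = 1) (k : ℕ) (c : ℝ) :
    XL w k (fun _ : List (ι → α) => c) = c := by
  induction k with
  | zero => rfl
  | succ k ih => simp only [XL, ih, PI_const (w := fun _ : ι => w) fun _ => h1]

omit [DecidableEq α] in
theorem XL_mono (h0 : ∀ a, 0 ≤ w a) (k : ℕ) {F G : List (ι → α) → ℝ}
    (h : ∀ l, l.length = k → F l ≤ G l) : XL w k F ≤ XL w k G := by
  induction k generalizing F G with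
  | zero => exact h [] rfl
  | succ k ih => exact PI_mono (fun _ => h0) fun a => ih fun l hl => h _ (by simp [hl])

omit [DecidableEq α] in
theorem XL_sum {κ : Type} (k : ℕ) (s : Finset κ) (F : κ → List (ι → α) → ℝ) :
    XL w k (fun l => ∑ j ∈ s, F j l) = ∑ j ∈ s, XL w k (F j) := by
  induction k generalizing F with
  | zero => rfl
  | succ k ih => simp only [XL, ih, PI_sum]

omit [DecidableEq α] in
theorem XL_ofFn (k : ℕ) (F : List (ι → α) → ℝ) :
    XL w k F = ∑ x : Fin k → ι → α, (∏ j, ∏ i, w (x j i)) * F (List.ofFn x) := by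
  induction k generalizing F with
  | zero => simp [XL]
  | succ k ih =>
    rw [← (Fin.consEquiv fun _ => ι → α).sum_comp, Fintype.sum_prod_type]
    simp only [XL, ih, PI, Fin.consEquiv, Equiv.coe_fn_mk, Fin.prod_univ_succ, Fin.cons_zero,
      Fin.cons_succ, List.ofFn_succ, mul_sum, mul_assoc]

omit [Fintype ι] [DecidableEq ι] [Fintype α] in
theorem cnt_ofFn {k : ℕ} (x : Fin k → ι → α) (i : ι) (c : α) :
    cnt (List.ofFn x) i c = ∑ j, if x j i = c then 1 else 0 := by
  rw [cnt, List.map_ofFn, List.sum_ofFn]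
  rfl

theorem urn (k : ℕ) (G : (ι → α → ℕ) → (ι → α) → ℝ) :
    (PI (fun _ => w) fun a => XL w k fun l => G (cnt (a :: l)) a) =
      XL w (k + 1) fun l => PI (fun i c => (cnt l i c : ℝ) / (k + 1)) (G (cnt l)) := by
  have h1 : (PI (fun _ => w) fun a => XL w k fun l => G (cnt (a :: l)) a) =
      ∑ x : Fin (k + 1) → ι → α, (∏ j, ∏ i, w (x j i)) * G (cnt (List.ofFn x)) (x 0) := by
    rw [← (Fin.consEquiv fun _ => ι → α).sum_comp, Fintype.sum_prod_type]
    simp only [XL_ofFn, PI, Fin.consEquiv, Equiv.coe_fn_mk, Fin.prod_univ_succ, Fin.cons_zero,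
      Fin.cons_succ, List.ofFn_succ, mul_sum, mul_assoc]
  have h2 : ∀ J : ι → Fin (k + 1),
      ∑ x : Fin (k + 1) → ι → α, (∏ j, ∏ i, w (x j i)) * G (cnt (List.ofFn x)) (x 0) =
      ∑ x : Fin (k + 1) → ι → α, (∏ j, ∏ i, w (x j i)) *
        G (cnt (List.ofFn x)) fun i => x (J i) i := by
    intro J
    have hi : Function.Involutive fun (x : Fin (k + 1) → ι → α) j i =>
        x (Equiv.swap 0 (J i) j) i := fun x => by simp
    rw [← Equiv.sum_comp hi.toPerm]
    refine sum_congr rfl fun x _ => ?_
    simp only [Function.Involutive.coe_toPerm, Equiv.swap_apply_left]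
    congr 1
    · rw [prod_comm, prod_comm (f := fun j i => w (x j i))]
      exact prod_congr rfl fun i _ => Equiv.prod_comp (Equiv.swap 0 (J i)) fun j => w (x j i)
    · congr 1
      funext i c
      rw [cnt_ofFn, cnt_ofFn]
      exact Equiv.sum_comp (Equiv.swap 0 (J i)) fun j => if x j i = c then 1 else 0
  have h3 : ∀ _ : ι, ∑ _j : Fin (k + 1), (1 / (k + 1) : ℝ) = 1 := fun _ => by
    simp only [sum_const, card_univ, Fintype.card_fin, nsmul_eq_mul]
    push_cast
    field_simp
  rw [h1, ← PI_const h3 (∑ x : Fin (k + 1) → ι → α, _), XL_ofFn, funext h2]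
  simp only [PI_sum, PI_mul]
  refine sum_congr rfl fun x _ => ?_
  rw [PI_push (fun _ _ => (1 / (k + 1) : ℝ)) fun i j => x j i]
  congr 2
  funext i c
  rw [cnt_ofFn, ← mul_sum]
  push_cast
  ring

omit [Fintype ι] [DecidableEq ι] in
theorem sum_cnt (l : List (ι → α)) (i : ι) : ∑ c, cnt l i c = l.length := by
  induction l with
  | nil => simp [cnt]
  | cons a l ih =>
    simp only [cnt, List.map_cons, List.sum_cons, sum_add_distrib, List.length_cons] at ih ⊢
    simp [ih, add_comm]

theorem XL_exp (h0 : ∀ a, 0 ≤ w a) (h1 : ∑ a, w a = 1) (i : ι) (c : α) {s : ℝ} (hs : |s| ≤ 1)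
    (k : ℕ) : XL w k (fun l => Real.exp (s * (cnt l i c - k * w c))) ≤
      Real.exp (k * w c * s ^ 2) := by
  induction k with
  | zero => simp [XL, cnt]
  | succ k ih =>
    have e1 : ∀ (a : ι → α) (l : List (ι → α)),
        Real.exp (s * (cnt (a :: l) i c - (k + 1 : ℕ) * w c)) =
          (Real.exp (-(s * w c)) * (1 + (if a i = c then 1 else 0) * (Real.exp s - 1))) *
            Real.exp (s * (cnt l i c - k * w c)) := by
      intro a l
      simp only [cnt, List.map_cons, List.sum_cons]
      split_ifs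
      · rw [one_mul, add_sub_cancel, ← Real.exp_add, ← Real.exp_add]
        congr 1
        push_cast
        ring
      · rw [zero_mul, add_zero, mul_one, ← Real.exp_add]
        congr 1
        push_cast
        ring
    simp only [XL, e1, XL_mul]
    simp only [mul_comm _ (XL w k _), PI_mul]
    rw [PI_coord1 (w := fun _ : ι => w) (fun _ => h1) i
      fun a => 1 + (if a = c then 1 else 0) * (Real.exp s - 1)]
    have e2 : ∑ a, w a * (1 + (if a = c then 1 else 0) * (Real.exp s - 1)) =
        1 + w c * (Real.exp s - 1) := by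
      simp [mul_add, sum_add_distrib, h1]
    have e3 := (abs_le.1 (Real.abs_exp_sub_one_sub_id_le hs)).2
    have e4 : 1 + w c * (Real.exp s - 1) ≤ Real.exp (w c * (s + s ^ 2)) := by
      have := Real.add_one_le_exp (w c * (s + s ^ 2))
      nlinarith [h0 c]
    have e5 : 0 ≤ 1 + w c * (Real.exp s - 1) := by
      rw [← e2]
      refine sum_nonneg fun a _ => mul_nonneg (h0 a) ?_
      split_ifs
      · linarith [Real.exp_pos s]
      · linarith
    rw [e2]
    calc _ ≤ Real.exp (k * w c * s ^ 2) * (Real.exp (-(s * w c)) *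
          Real.exp (w c * (s + s ^ 2))) := by gcongr
      _ = _ := by
        rw [← Real.exp_add, ← Real.exp_add]
        congr 1
        push_cast
        ring

theorem XL_tail (h0 : ∀ a, 0 ≤ w a) (h1 : ∑ a, w a = 1) (i : ι) (c : α) {ε : ℝ} (hε : 0 ≤ ε)
    (hε' : ε ≤ 2) (k : ℕ) :
    XL w k (fun l => if |(cnt l i c : ℝ) - k * w c| ≤ ε * (k * w c) then 0 else 1) ≤
      2 * Real.exp (-(ε ^ 2 * (k * w c) / 4)) := by
  have a1 := XL_exp h0 h1 i c (s := ε / 2) (by rw [abs_le]; constructor <;> linarith) k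
  have a2 := XL_exp h0 h1 i c (s := -(ε / 2)) (by rw [abs_le]; constructor <;> linarith) k
  refine le_trans (XL_mono h0 k fun l _ => ?_ : _ ≤ XL w k fun l =>
    Real.exp (-(ε ^ 2 * (k * w c) / 2)) * (Real.exp (ε / 2 * (cnt l i c - k * w c)) +
      Real.exp (-(ε / 2) * (cnt l i c - k * w c)))) ?_
  · split_ifs with h
    · positivity
    · rw [mul_add, ← Real.exp_add, ← Real.exp_add]
      rcases lt_abs.1 (not_le.1 h) with h | h
      · have := Real.add_one_le_exp (-(ε ^ 2 * (k * w c) / 2) + ε / 2 * (cnt l i c - k * w c))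
        have := Real.exp_pos (-(ε ^ 2 * (k * w c) / 2) + -(ε / 2) * (cnt l i c - k * w c))
        nlinarith
      · have := Real.add_one_le_exp (-(ε ^ 2 * (k * w c) / 2) + -(ε / 2) * (cnt l i c - k * w c))
        have := Real.exp_pos (-(ε ^ 2 * (k * w c) / 2) + ε / 2 * (cnt l i c - k * w c))
        nlinarith
  · rw [XL_mul, XL_add]
    calc _ ≤ Real.exp (-(ε ^ 2 * (k * w c) / 2)) * (Real.exp (k * w c * (ε / 2) ^ 2) +
          Real.exp (k * w c * (-(ε / 2)) ^ 2)) := by gcongr
      _ = _ := by
        rw [neg_sq, ← two_mul, mul_left_comm, ← Real.exp_add]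
        congr 2
        ring

omit [Fintype ι] [DecidableEq ι] [Fintype α] [DecidableEq α] in
theorem foldl_le {δ : Type} {N : δ → ℝ} {st : δ → (ι → α) → δ} (hst : ∀ d a, N (st d a) ≤ N d)
    (l : List (ι → α)) (d : δ) : N (l.foldl st d) ≤ N d := by
  induction l generalizing d with
  | nil => exact le_rfl
  | cons a l ih => exact (ih _).trans (hst d a)

open Classical in
theorem descent (h0 : ∀ a, 0 ≤ w a) (h1 : ∑ a, w a = 1) {δ : Type} {N : δ → ℝ}
    {st : δ → (ι → α) → δ} {T : List (ι → α) → Prop} {θ M ρ η : ℝ} {R : ℕ} (hρ : 0 ≤ ρ)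
    (hst : ∀ d a, N (st d a) ≤ N d)
    (hT : ∀ k, R < k → XL w k (fun l => if T l then 0 else 1) ≤ η)
    (hd : ∀ l d, R < l.length → T l → θ < N d → N d ≤ M →
      ρ ≤ PI (fun i c => (cnt l i c : ℝ) / l.length) fun a => N d - N (st d a))
    (k : ℕ) (D : (ι → α → ℕ) → δ) :
    ρ * (k - R : ℕ) * (XL w k (fun l => if θ < N (l.foldl st (D (cnt l))) ∧ N (D (cnt l)) ≤ M
      then 1 else 0) - η) ≤
      XL w k fun l => min (N (D (cnt l))) M - min (N (l.foldl st (D (cnt l)))) M := by
  induction k generalizing D with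
  | zero => simp [XL]
  | succ k ih =>
    by_cases hk : k + 1 ≤ R
    · rw [Nat.sub_eq_zero_of_le hk, Nat.cast_zero, mul_zero, zero_mul,
        ← XL_const (ι := ι) h1 (k + 1) 0]
      exact XL_mono h0 _ fun l _ => sub_nonneg.2 (min_le_min_right _ (foldl_le hst l _))
    have a1 : ρ * (XL w (k + 1) (fun l => if θ < N (l.foldl st (D (cnt l))) ∧ N (D (cnt l)) ≤ M
        then 1 else 0) - η) ≤ PI (fun _ => w) fun a => XL w k fun l =>
          min (N (D (cnt (a :: l)))) M - min (N (st (D (cnt (a :: l))) a)) M := by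
      rw [urn k fun S a => min (N (D S)) M - min (N (st (D S) a)) M]
      refine le_trans ?_ (XL_mono h0 _ fun l hl => ?_ : XL w (k + 1) (fun l => ρ *
        ((if θ < N (l.foldl st (D (cnt l))) ∧ N (D (cnt l)) ≤ M then 1 else 0) +
          -1 * if T l then 0 else 1)) ≤ _)
      · rw [XL_mul, XL_add, XL_mul]
        have := hT (k + 1) (by omega)
        gcongr
        linarith
      · have b1 : 0 ≤ PI (fun i c => (cnt l i c : ℝ) / (k + 1)) fun a =>
            min (N (D (cnt l))) M - min (N (st (D (cnt l)) a)) M :=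
          PI_nonneg (fun _ _ => by positivity) fun a =>
            sub_nonneg.2 (min_le_min_right _ (hst _ a))
        split_ifs with c1 c2 c2
        · have := hd l (D (cnt l)) (by omega) c2 (c1.1.trans_le (foldl_le hst l _)) c1.2
          rw [hl] at this
          push_cast at this
          simp only [min_eq_left c1.2, fun a => min_eq_left ((hst (D (cnt l)) a).trans c1.2)]
          linarith
        all_goals linarith
    have a2 : ρ * (k - R : ℕ) * (XL w (k + 1) (fun l => if θ < N (l.foldl st (D (cnt l))) ∧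
        N (D (cnt l)) ≤ M then 1 else 0) - η) ≤ PI (fun _ => w) fun a => XL w k fun l =>
          min (N (st (D (cnt (a :: l))) a)) M -
            min (N (l.foldl st (st (D (cnt (a :: l))) a))) M := by
      refine le_trans ?_ (PI_mono (fun _ => h0) fun a =>
        ih fun S => st (D fun i c => (if a i = c then 1 else 0) + S i c) a)
      simp only [sub_eq_add_neg, PI_mul, PI_add, PI_const (w := fun _ : ι => w) fun _ => h1]
      gcongr
      refine PI_mono (fun _ => h0) fun a => XL_mono h0 _ fun l _ => ?_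
      beta_reduce
      split_ifs with c1 c2
      · exact le_rfl
      · exact absurd ⟨c1.1, (hst _ a).trans c1.2⟩ c2
      · exact zero_le_one
      · exact le_rfl
    have a3 := add_le_add a1 a2
    rw [← PI_add] at a3
    simp only [← XL_add, sub_add_sub_cancel] at a3
    rw [show k + 1 - R = k - R + 1 by omega]
    push_cast
    refine le_trans (le_of_eq (by ring)) a3

open Classical in
theorem descent' (h0 : ∀ a, 0 ≤ w a) (h1 : ∑ a, w a = 1) {δ : Type} {N : δ → ℝ}
    {st : δ → (ι → α) → δ} {T : List (ι → α) → Prop} {θ M ρ η : ℝ} {R : ℕ} (hρ : 0 < ρ)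
    (hN : ∀ d, 0 ≤ N d) (hM : 0 ≤ M) (hst : ∀ d a, N (st d a) ≤ N d)
    (hT : ∀ k, R < k → XL w k (fun l => if T l then 0 else 1) ≤ η)
    (hd : ∀ l d, R < l.length → T l → θ < N d → N d ≤ M →
      ρ ≤ PI (fun i c => (cnt l i c : ℝ) / l.length) fun a => N d - N (st d a))
    {k : ℕ} (hk : R < k) (D : (ι → α → ℕ) → δ)
    (hD : ∀ l, l.length = k → T l → N (D (cnt l)) ≤ M) :
    XL w k (fun l => if θ < N (l.foldl st (D (cnt l))) then 1 else 0) ≤
      M / (ρ * (k - R : ℕ)) + 2 * η := by
  have a1 := (descent h0 h1 hρ.le hst hT hd k D).trans (XL_mono h0 k (G := fun _ => M)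
    fun l _ => by
      have := le_min (hN (l.foldl st (D (cnt l)))) hM
      linarith [min_le_right (N (D (cnt l))) M])
  have a2 : (0 : ℝ) < (k - R : ℕ) := by exact_mod_cast (by omega : 0 < k - R)
  rw [XL_const h1, ← le_div_iff₀' (by positivity)] at a1
  have a3 := hT k hk
  refine le_trans (XL_mono h0 k fun l hl => ?_ : _ ≤ XL w k fun l =>
    (if θ < N (l.foldl st (D (cnt l))) ∧ N (D (cnt l)) ≤ M then 1 else 0) +
      if T l then 0 else 1) ?_
  · by_cases c1 : T l
    · simp [c1, hD l hl c1]
    · simp only [c1, if_false]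
      split_ifs <;> linarith
  · rw [XL_add]
    linarith

end Pool.Agent.Lib.MP_29d7aa_lc.Gd
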