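import Pool.Agent.Lib.MP_29d7aa_lc.GAlg
import Pool.Agent.Lib.MP_29d7aa_lc.GDrift
import Pool.Agent.Lib.MP_29d7aa_lc.GUrn

/-!
The algorithm follows the descent of the potential.
-/

set_option autoImplicit false

noncomputable section

namespace Pool.Agent.Lib.MP_29d7aa_lc.Gd

open Finset

variable {m : ℕ}

/-- The rows of a list of columns. -/
def rws (cs : List (Fin m → Bool)) : List (List Bool) := List.ofFn fun i => cs.map fun u => u i

/-- The signed row sums of a list of columns. -/
def dC (cs : List (Fin m → Bool)) (x : List Bool) (i : Fin m) : ℤ :=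
  ∑ j ∈ range cs.length, cond ((cs.map fun u => u i).getD j false) (sg (x.getD j false)) 0

/-- The class of a pair of entries. -/
def zc : Bool → Bool → Fin 3
  | true, false => 0
  | false, true => 1
  | _, _ => 2

/-- The list of the pairs of consecutive columns. -/
def zs : List (Fin m → Bool) → List (Fin m → Fin 3)
  | u :: v :: l => (fun i => zc (u i) (v i)) :: zs l
  | _ => []

theorem zv_zc (a b : Bool) : zv (zc a b) = cond a 1 0 - cond b 1 0 := by
  cases a <;> cases b <;> rfl

theorem dv_rws (cs : List (Fin m → Bool)) (x : List Bool) :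
    dv (List.range cs.length) (rws cs) x = List.ofFn (dC cs x) := by
  rw [dv, rws, List.map_ofFn]
  rfl

theorem abs_dC_le (cs : List (Fin m → Bool)) (x : List Bool) (i : Fin m) :
    |dC cs x i| ≤ cs.length := by
  refine (abs_sum_le_sum_abs _ _).trans ((sum_le_card_nsmul _ _ 1 fun j _ => ?_).trans (by simp))
  cases (cs.map fun u => u i).getD j false <;> cases x.getD j false <;> simp [sg]

theorem fac_range (N : ℕ) : fac (List.range N) = N.factorial := by
  induction N with
  | zero => rfl
  | succ N ih =>
    rw [List.range_succ, fac, List.foldl_append, ← fac, ih, Nat.factorial_succ, mul_comm]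
    rfl

theorem fq_cast {N : ℕ} {v : ℤ} (h1 : v ≤ N) (h2 : 1 - v ≤ N) :
    (fq N.factorial (List.range N) v : ℝ) = N.factorial * fb v := by
  unfold fq
  by_cases h : v.toNat = 0
  · rw [decide_eq_true h, cond_true, fb_lo (by omega), List.length_take, List.length_range,
      min_eq_left (by omega), ← Int.toNat_of_nonneg (by omega : 0 ≤ 1 - v), zpow_natCast,
      Int.toNat_natCast]
    simp
  · rw [decide_eq_false h, cond_false, fb_hi (by omega),
      Nat.cast_div (Nat.dvd_factorial (by omega) (by omega)) (by exact_mod_cast h), mul_one_div,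
      ← Int.cast_natCast v.toNat, Int.toNat_of_nonneg (by omega)]

theorem le_foldl_min (l : List ℕ) (x D : ℕ) : D ≤ l.foldl min x ↔ D ≤ x ∧ ∀ y ∈ l, D ≤ y := by
  induction l generalizing x with
  | nil => simp
  | cons a l ih => simp [ih, and_assoc]

theorem foldl_max_le (l : List ℕ) (x D : ℕ) : l.foldl max x ≤ D ↔ x ≤ D ∧ ∀ y ∈ l, y ≤ D := by
  induction l generalizing x with
  | nil => simp
  | cons a l ih => simp [ih, and_assoc]

theorem foldl_best {β : Type} (s : β → ℕ) (l : List β) (x : β) :
    s (l.foldl (fun c y => cond (decide (s y < s c)) y c) x) ≤ s x ∧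
      ∀ y ∈ l, s (l.foldl (fun c y => cond (decide (s y < s c)) y c) x) ≤ s y := by
  induction l generalizing x with
  | nil => simp
  | cons a l ih =>
    have h := ih (cond (decide (s a < s x)) a x)
    have h1 : s (cond (decide (s a < s x)) a x) ≤ s x ∧ s (cond (decide (s a < s x)) a x) ≤ s a := by
      by_cases c : s a < s x <;> simp [c] <;> omega
    exact ⟨h.1.trans h1.1, List.forall_mem_cons.2 ⟨h.1.trans h1.2, h.2⟩⟩

theorem potN_cast (hm : 0 < m) (K L nb : ℕ) {d : Fin m → ℤ} (hd : ∀ i, L * |d i| ≤ nb) :
    (potN (m * (2 * nb + 1).factorial) K L (2 * nb + 1).factorial (List.range (2 * nb + 1))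
      (List.range (nb + 1)) (List.ofFn d) : ℝ) =
      m * (2 * nb + 1).factorial * pot (K / m) L nb d := by
  have h0 : (0 : ℝ) < m := by exact_mod_cast hm
  have h1 : ∀ b ≤ nb, (psiN (m * (2 * nb + 1).factorial) K L (2 * nb + 1).factorial
      (List.range (2 * nb + 1)) (List.ofFn d) b : ℝ) =
      m * (2 * nb + 1).factorial * Psi (K / m) L d b := by
    intro b hb
    rw [psiN, List.map_ofFn, List.sum_ofFn, Psi]
    simp only [Function.comp, Nat.cast_add, Nat.cast_mul, Nat.cast_sum]
    rw [sum_congr rfl (g := fun i => ((2 * nb + 1).factorial : ℝ) *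
      (fb (b - L * d i) + fb (b + L * d i))) fun i _ => ?_, ← mul_sum]
    · field_simp
    · have a := hd i
      rw [← abs_of_nonneg (Nat.cast_nonneg (α := ℤ) L), ← abs_mul, abs_le] at a
      rw [fq_cast (by push_cast; omega) (by push_cast; omega),
        fq_cast (by push_cast; omega) (by push_cast; omega), mul_add]
  refine le_antisymm ?_ ?_
  · obtain ⟨b, hb, hb'⟩ := pot_eq ((K : ℝ) / m) L nb d
    rw [hb', ← h1 b hb, Nat.cast_le]
    exact ((le_foldl_min _ _ _).1 le_rfl).2 _
      (List.mem_map_of_mem (List.mem_range.2 (by omega)))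
  · have h2 : ∀ b ≤ nb, ⌈(m : ℝ) * (2 * nb + 1).factorial * pot (K / m) L nb d⌉₊ ≤
        psiN (m * (2 * nb + 1).factorial) K L (2 * nb + 1).factorial
          (List.range (2 * nb + 1)) (List.ofFn d) b := fun b hb => by
      rw [Nat.ceil_le, h1 b hb]
      exact mul_le_mul_of_nonneg_left (pot_le d hb) (by positivity)
    rw [← Nat.ceil_le, potN, le_foldl_min]
    refine ⟨h2 0 (by omega), fun y hy => ?_⟩
    obtain ⟨b, hb, rfl⟩ := List.mem_map.1 hy
    exact h2 b (by simpa [Nat.lt_succ_iff] using hb)

theorem dC_colr (cs : List (Fin m → Bool)) (e : ℕ) (fl : List Bool) (i : Fin m) :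
    dC cs (colr (List.range cs.length) e fl) i = ∑ j ∈ range cs.length,
      cond ((cs.map fun u => u i).getD j false)
        (sg (xor (j + e).bodd (!fl.getD ((j + e) / 2) false))) 0 := by
  refine sum_congr rfl fun j hj => ?_
  simp only [colr, List.getD_eq_getElem?_getD, List.getElem?_map,
    List.getElem?_range (mem_range.1 hj), Option.map_some, Option.getD_some, Nat.div2_val]

theorem getD_concat (fl : List Bool) (b : Bool) (q : ℕ) :
    (fl ++ [b]).getD q false = if q = fl.length then b else fl.getD q false := by
  simp only [List.getD_eq_getElem?_getD]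
  rcases lt_trichotomy q fl.length with h | h | h
  · rw [if_neg h.ne, List.getElem?_append_left h]
  · simp [h]
  · rw [if_neg h.ne', List.getElem?_eq_none (by simp; omega), List.getElem?_eq_none h.le]

theorem dC_false (cs : List (Fin m → Bool)) (e : ℕ) (fl : List Bool) :
    dC cs (colr (List.range cs.length) e (fl ++ [false])) =
      dC cs (colr (List.range cs.length) e fl) := by
  funext i
  rw [dC_colr, dC_colr]
  refine sum_congr rfl fun j _ => ?_
  rw [getD_concat]
  split_ifs with h
  · rw [h, List.getD_eq_default _ _ le_rfl]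
  · rfl

theorem dC_true (cs : List (Fin m → Bool)) {e c : ℕ} {fl : List Bool} (h : fl.length = e + c)
    (hc : e + 2 * c + 1 < cs.length) (i : Fin m) :
    dC cs (colr (List.range cs.length) e (fl ++ [true])) i =
      dC cs (colr (List.range cs.length) e fl) i - 2 * zv (zc
        ((cs.map fun u => u i).getD (e + 2 * c) false)
        ((cs.map fun u => u i).getD (e + 2 * c + 1) false)) := by
  rw [dC_colr, dC_colr, eq_sub_iff_add_eq', ← eq_sub_iff_add_eq, ← sum_sub_distrib,
    sum_eq_add_of_mem (e + 2 * c) (e + 2 * c + 1) (mem_range.2 (by omega)) (mem_range.2 hc)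
      (by omega) fun j _ hj => by rw [getD_concat, if_neg (by omega), sub_self],
    getD_concat, getD_concat, if_pos (by omega), if_pos (by omega),
    List.getD_eq_default fl _ (by omega), List.getD_eq_default fl _ (by omega), zv_zc,
    show e + 2 * c + e = 2 * (e + c) by ring, show e + 2 * c + 1 + e = 2 * (e + c) + 1 by ring]
  cases (cs.map fun u => u i).getD (e + 2 * c) false <;>
    cases (cs.map fun u => u i).getD (e + 2 * c + 1) false <;> simp [sg]

theorem zs_eq (k : ℕ) (l : List (Fin m → Bool)) (hl : l.length = 2 * k) :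
    zs l = (List.range k).map fun c i => zc ((l.map fun u => u i).getD (2 * c) false)
      ((l.map fun u => u i).getD (2 * c + 1) false) := by
  induction k generalizing l with
  | zero => rw [List.length_eq_zero_iff.1 hl]; rfl
  | succ k ih =>
    match l, hl with
    | u :: v :: l, hl =>
      rw [zs, ih l (by simp at hl; omega), List.range_succ_eq_map, List.map_cons, List.map_map]
      rfl

omit m in
theorem sum_zv {ι : Type} (z : List (ι → Fin 3)) (i : ι) :
    (z.map fun a => zv (a i)).sum = cnt z i 0 - cnt z i 1 := by
  induction z with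
  | nil => rfl
  | cons a z ih =>
    simp only [cnt, List.map_cons, List.sum_cons, Nat.cast_add] at ih ⊢
    have : zv (a i) = ((if a i = 0 then 1 else 0 : ℕ) : ℤ) - (if a i = 1 then 1 else 0 : ℕ) := by
      generalize a i = c
      fin_cases c <;> rfl
    rw [ih, this]
    ring

theorem foldl_range_link {β γ : Type} {f : β → ℕ → β} {g : γ → ℕ → γ} (P : ℕ → β → γ → Prop)
    (k : ℕ) {x : β} {y : γ} (h0 : P 0 x y)
    (h : ∀ c < k, ∀ x y, P c x y → P (c + 1) (f x c) (g y c)) :
    P k ((List.range k).foldl f x) ((List.range k).foldl g y) := by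
  induction k with
  | zero => exact h0
  | succ k ih =>
    rw [List.range_succ, List.foldl_append, List.foldl_append]
    exact h k (by omega) _ _ (ih fun c hc => h c (by omega))

theorem link (hm : 0 < m) (t l : List (Fin m → Bool)) (k B : ℕ) (hl : l.length = 2 * k)
    (ht : t.length ≤ 1) :
    dC (t ++ l) (greedy (List.range (t ++ l).length)
      (List.range (2 * (4 * (t ++ l).length * (m + 1)) + 1))
      (List.range (4 * (t ++ l).length * (m + 1) + 1)) (rws (t ++ l)) B) =
    (zs l).foldl (stp (((B * (m.size / B + 1) * (B * (m.size / B + 1)) : ℕ) : ℝ) / m)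
      (m.size / B + 1) (4 * (t ++ l).length * (m + 1)))
      fun i => -(t.map fun u => cond (u i) 1 0).sum + (cnt (zs l) i 0 - cnt (zs l) i 1) := by
  set cs := t ++ l with hcs
  have hn : cs.length = t.length + 2 * k := by rw [hcs, List.length_append, hl]
  have he : cs.length.bodd.toNat = t.length := by
    rw [← Nat.mod_two_of_bodd]
    omega
  have h0 : cond cs.length.bodd [false] [] = List.replicate t.length false := by
    rw [← he]
    cases cs.length.bodd <;> rfl
  have hz : zs l = (List.range k).map fun c i => zc
      ((cs.map fun u => u i).getD (t.length + 2 * c) false)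
      ((cs.map fun u => u i).getD (t.length + 2 * c + 1) false) := by
    rw [zs_eq k l hl]
    congr 1
    funext c i
    rw [hcs, List.map_append, List.getD_append_right _ _ _ _ (by simp),
      List.getD_append_right _ _ _ _ (by simp; omega), List.length_map, Nat.add_sub_cancel_left,
      add_assoc, Nat.add_sub_cancel_left]
  have hp : ∀ fl, (potF (List.range cs.length) (List.range (2 * (4 * cs.length * (m + 1)) + 1))
      (List.range (4 * cs.length * (m + 1) + 1)) (rws cs) B fl : ℝ) =
      m * (2 * (4 * cs.length * (m + 1)) + 1).factorial *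
        pot (((B * (m.size / B + 1) * (B * (m.size / B + 1)) : ℕ) : ℝ) / m) (m.size / B + 1)
          (4 * cs.length * (m + 1)) (dC cs (colr (List.range cs.length) t.length fl)) := by
    intro fl
    rw [potF, fac_range, List.length_range, he, dv_rws, rws, List.length_ofFn,
      Nat.size_eq_bits_len]
    refine potN_cast hm _ _ _ fun i => ?_
    have a1 : m.size / B + 1 ≤ m + 1 :=
      Nat.succ_le_succ ((Nat.div_le_self _ _).trans (Nat.size_le.2 Nat.lt_two_pow_self))
    calc _ ≤ ((m + 1 : ℕ) : ℤ) * cs.length :=
          mul_le_mul (by exact_mod_cast a1) (abs_dC_le _ _ _) (abs_nonneg _) (by positivity)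
      _ ≤ _ := by
          push_cast
          nlinarith [(by positivity : (0 : ℤ) ≤ (m + 1) * cs.length)]
  have hi : dC cs (colr (List.range cs.length) t.length (List.replicate t.length false)) =
      fun i => -(t.map fun u => cond (u i) 1 0).sum + ((cnt (zs l) i 0 : ℤ) - cnt (zs l) i 1) := by
    funext i
    rw [← sum_zv, hz, List.map_map, dC_colr, hn, sum_range_add]
    have a1 : ∀ q, (List.replicate t.length false).getD q false = false := fun q => by
      simp only [List.getD_eq_getElem?_getD, List.getElem?_replicate]
      split_ifs <;> rfl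
    simp only [a1]
    congr 1
    · rw [hcs]
      rcases Nat.le_one_iff_eq_zero_or_eq_one.1 ht with h | h
      · rw [List.length_eq_zero_iff.1 h]
        rfl
      · obtain ⟨u, h⟩ := List.length_eq_one_iff.1 h
        rw [h]
        cases h' : u i <;> simp [h', sg]
    · change _ = ∑ c ∈ range k, _
      clear hz hn hl
      induction k with
      | zero => rfl
      | succ k ih =>
        rw [mul_add, mul_one, sum_range_succ, sum_range_succ, sum_range_succ, ih, add_assoc,
          Function.comp, zv_zc, show t.length + 2 * k + t.length = 2 * (t.length + k) by ring,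
          show t.length + (2 * k + 1) + t.length = 2 * (t.length + k) + 1 by ring, ← add_assoc t.length]
        cases (cs.map fun u => u i).getD (t.length + 2 * k) false <;>
          cases (cs.map fun u => u i).getD (t.length + 2 * k + 1) false <;> simp [sg]
  rw [greedy, List.length_range, he, h0, List.take_range, Nat.div2_val,
    show min (cs.length / 2) cs.length = k by omega, ← hi, hz, List.foldl_map]
  refine (foldl_range_link (fun c fl d => fl.length = t.length + c ∧
    dC cs (colr (List.range cs.length) t.length fl) = d) k (by simp) ?_).2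
  rintro c hc fl _ ⟨h1, rfl⟩
  refine ⟨by simp [h1, add_assoc], ?_⟩
  have a1 := funext (dC_true cs h1 (by omega))
  have a2 : (0 : ℝ) < m * (2 * (4 * cs.length * (m + 1)) + 1).factorial := by positivity
  rw [stp, ← a1]
  split_ifs with c1
  · rw [decide_eq_true]
    rwa [← Nat.cast_lt (α := ℝ), hp, hp, mul_lt_mul_iff_right₀ a2]
  · rw [decide_eq_false, dC_false]
    rwa [← Nat.cast_lt (α := ℝ), hp, hp, mul_lt_mul_iff_right₀ a2]

end Pool.Agent.Lib.MP_29d7aa_lc.Gd
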