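import Pool.Agent.Lib.MP_29d7aa_lc.GFail

/-!
The choice of the parameters and the final bound.
-/

set_option autoImplicit false

noncomputable section

namespace Pool.Agent.Lib.MP_29d7aa_lc.Gd

open Finset

theorem size_le_log {m : ℕ} (hm : 4 ≤ Real.log m) : (m.size : ℝ) ≤ 2 * Real.log m := by
  have h0 : 0 < m := Nat.pos_of_ne_zero fun h => by norm_num [h] at hm
  have h1 : 0 < m.size := Nat.size_pos.2 h0
  have h2 : ((2 ^ (m.size - 1) : ℕ) : ℝ) ≤ m := by exact_mod_cast Nat.lt_size.1 (by omega)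
  have h3 := Real.log_le_log (by positivity) h2
  rw [Nat.cast_pow, Real.log_pow, Nat.cast_sub h1, Nat.cast_one, Nat.cast_ofNat] at h3
  have h4 : (1 : ℝ) ≤ m.size := by exact_mod_cast h1
  nlinarith [Real.log_two_gt_d9]

theorem ratio_le {L B D T r m q s τ E : ℝ} (hL : 1 ≤ L) (hB : 1 ≤ B) (hD : 0 ≤ D) (hr : 0 < r)
    (hm : 0 < m) (hs : 0 < s) (hE : 1 ≤ E) (h1 : D + 3 * B ≤ 11 * q * s) (h2 : B ≤ τ)
    (h3 : 10 + 4 * L ≤ 4 * E) (h4 : τ ^ 2 ≤ 2 * (r * m)) (h5 : τ ≤ E ^ 10)
    (h6 : s ^ 2 ≤ 10 * (r * T)) (h7 : τ * E ^ 10 ≤ s) (h8 : 281600 * q ≤ E) :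
    L * (D + 3 * B) / (r * L / (64 * B) / (E ^ 2 * (2 * (2 * (2 + L)) + 2 +
      √(2 * ((B * L) ^ 2 / m / L) / (r * L / (64 * B))))) * T) ≤ 1 / (2 * E ^ 2) := by
  have a0 : 0 < r * T := by linarith [sq_pos_of_pos hs]
  have a1 : 0 < T := (pos_iff_pos_of_mul_pos a0).1 hr
  have a2 : 0 < τ := by linarith
  have a3 : √(2 * ((B * L) ^ 2 / m / L) / (r * L / (64 * B))) ≤ 16 * E ^ 5 := by
    rw [Real.sqrt_le_left (by positivity)]
    calc _ = 256 * B ^ 3 / (2 * (r * m)) := by
          field_simp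
          norm_num
      _ ≤ 256 * τ ^ 3 / τ ^ 2 := by gcongr
      _ = 256 * τ := by field_simp
      _ ≤ _ := by linarith
  have a4 : E ≤ E ^ 5 := le_self_pow₀ hE (by norm_num)
  have a5 : 0 ≤ q := nonneg_of_le_mul (a := 0) (b := s) le_rfl hs (by linarith)
  generalize √(2 * ((B * L) ^ 2 / m / L) / (r * L / (64 * B))) = y at a3 ⊢
  by_cases a6 : 2 * (2 * (2 + L)) + 2 + y ≤ 0
  · refine le_trans (div_nonpos_of_nonneg_of_nonpos (by positivity) ?_) (by positivity)
    exact mul_nonpos_of_nonpos_of_nonneg (div_nonpos_of_nonneg_of_nonpos (by positivity)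
      (mul_nonpos_of_nonneg_of_nonpos (by positivity) a6)) a1.le
  have a7 := not_le.1 a6
  calc _ = (D + 3 * B) * (64 * B) * (E ^ 2 * (2 * (2 * (2 + L)) + 2 + y)) * 10 / (10 * (r * T)) := by
        field_simp
    _ ≤ 11 * q * s * (64 * τ) * (E ^ 2 * (20 * E ^ 5)) * 10 / s ^ 2 := by
        gcongr
        linarith
    _ = 281600 * q * (τ * E ^ 10) / (E * s) * (1 / (2 * E ^ 2)) := by
        field_simp
        ring
    _ ≤ E * s / (E * s) * (1 / (2 * E ^ 2)) := by gcongr
    _ = _ := by rw [div_self (by positivity), one_mul]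

theorem greedy_main {m n : ℕ} (hm : 20000000 ≤ Real.log m) (hn : m ^ 2 ≤ n) {p : ℝ}
    (hp : Real.log n ≤ p * m) (hp' : p ≤ 1 / 2) (hl : Real.log n ≤ 7 * m / Real.log m) :
    ∃ B < n, (B : ℝ) ≤ 541 * √(p * m / Real.log n) ∧
      ExL p n (fun cs : List (Fin m → Bool) => if disc (List.range cs.length) (rws cs)
        (greedy (List.range cs.length) (List.range (2 * (4 * cs.length * (m + 1)) + 1))
          (List.range (4 * cs.length * (m + 1) + 1)) (rws cs) B) ≤ 58 * B then 0 else 1) ≤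
        Real.exp (-(Real.log n / 20)) := by
  have m0 : (0 : ℝ) < m := by
    exact_mod_cast Nat.pos_of_ne_zero fun h => by norm_num [h] at hm
  have m1 : (20000000 : ℝ) ≤ m := by linarith [Real.log_le_sub_one_of_pos m0]
  have n0 : (m : ℝ) ^ 2 ≤ n := by exact_mod_cast hn
  have n1 : (m : ℝ) ≤ n := by nlinarith only [m1, n0]
  have n2 : (0 : ℝ) < n := by linarith
  have l0 : 2 * Real.log m ≤ Real.log n := by
    have := Real.log_le_log (by positivity) n0
    rwa [Real.log_pow, Nat.cast_ofNat] at this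
  have s0 := size_le_log (m := m) (by linarith)
  obtain ⟨E, hE⟩ : ∃ E, E = Real.exp (Real.log n / 40) := ⟨_, rfl⟩
  have e0 : E ^ 40 = n := by
    rw [hE, ← Real.exp_nat_mul, Nat.cast_ofNat, mul_div_cancel₀ _ (by norm_num), Real.exp_log n2]
  have e1 : E ^ 2 = Real.exp (Real.log n / 20) := by
    rw [hE, ← Real.exp_nat_mul]
    congr 1
    push_cast
    ring
  have e2 := Real.quadratic_le_exp_of_nonneg (x := Real.log n / 40) (by linarith)
  have e5 : Real.exp (-(2 * Real.log n)) = 1 / n ^ 2 := by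
    rw [Real.exp_neg, two_mul, Real.exp_add, Real.exp_log n2, one_div, sq]
  rw [← hE] at e2
  generalize Real.log n = l at *
  have l1 : 40000000 ≤ l := by linarith
  have e3 : 1 ≤ E := by linarith [sq_nonneg (l / 40)]
  have e4 : (m : ℝ) ≤ E ^ 20 := by
    refine (le_abs_self _).trans (abs_le_of_sq_le_sq ?_ (by positivity))
    rwa [← pow_mul, e0]
  have p0 : 0 < p := (pos_iff_pos_of_mul_pos (by linarith : 0 < p * m)).2 m0
  obtain ⟨q, hq⟩ : ∃ q, q = √l := ⟨_, rfl⟩
  have q0 : q ^ 2 = l := hq ▸ Real.sq_sqrt (by linarith)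
  have q1 : 6300 ≤ q := hq ▸ Real.le_sqrt_of_sq_le (by linarith)
  obtain ⟨τ, hτ⟩ : ∃ τ, τ = √(p * m) := ⟨_, rfl⟩
  have t0 : τ ^ 2 = p * m := hτ ▸ Real.sq_sqrt (by linarith)
  have t1 : q ≤ τ := hq ▸ hτ ▸ Real.sqrt_le_sqrt hp
  obtain ⟨s, hs⟩ : ∃ s, s = √(n * p) := ⟨_, rfl⟩
  have u0 : s ^ 2 = n * p := hs ▸ Real.sq_sqrt (by positivity)
  have u1 : τ ≤ s := hs ▸ hτ ▸ Real.sqrt_le_sqrt (by linarith only [mul_le_mul_of_nonneg_left n1 p0.le])
  have t2 : √(p * m / l) = τ / q := by rw [Real.sqrt_div (by positivity), ← hq, ← hτ]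
  have t3 : 1 ≤ τ / q := (one_le_div (by linarith)).2 t1
  have t4 : τ / q ≤ τ / 6300 := by
    gcongr
    linarith
  obtain ⟨B, hB⟩ : ∃ B : ℕ, B = ⌈540 * (τ / q)⌉₊ := ⟨_, rfl⟩
  have b0 : 540 * (τ / q) ≤ B := hB ▸ Nat.le_ceil _
  have b1 : (B : ℝ) ≤ 541 * (τ / q) := by
    have := hB ▸ Nat.ceil_lt_add_one (by linarith : 0 ≤ 540 * (τ / q))
    linarith
  have b2 : (B : ℝ) ≤ τ := by linarith
  have b3 : τ < m := by
    refine (le_abs_self _).trans_lt (abs_lt_of_sq_lt_sq ?_ m0.le)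
    nlinarith only [t0, mul_le_mul_of_nonneg_right hp' m0.le, m1]
  have b4 : 291600 * (p * m / l) ≤ (B : ℝ) ^ 2 := by
    rw [← t0, ← q0, ← div_pow]
    linarith only [pow_le_pow_left₀ (by linarith only [t3]) b0 2]
  have b5 : (540 : ℝ) ≤ B := by linarith
  have b6 : B < n := by exact_mod_cast b2.trans_lt (b3.trans_le n1)
  obtain ⟨r, hr⟩ : ∃ r, r = p * (1 - p) := ⟨_, rfl⟩
  have r0 : p ≤ 2 * r := by linarith only [hr, mul_le_mul_of_nonneg_left hp' p0.le]
  have r1 : r ≤ p := by linarith only [hr, mul_pos p0 p0]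
  have r2 : 0 < r := by linarith only [r0, p0]
  obtain ⟨L, hL⟩ : ∃ L, L = m.size / B + 1 := ⟨_, rfl⟩
  have g0 : (L : ℝ) ≤ m.size / B + 1 := by
    rw [hL, Nat.cast_add, Nat.cast_one]
    gcongr
    exact Nat.cast_div_le
  have g1 : (1 : ℝ) ≤ L := by exact_mod_cast hL ▸ Nat.le_add_left 1 _
  have g2 : (m.size : ℝ) / B ≤ m.size := div_le_self (by positivity) (by linarith)
  obtain ⟨ε, hε⟩ : ∃ ε, ε = 9 * q / s := ⟨_, rfl⟩
  have x0 : 0 < s := by linarith
  have x1 : 0 ≤ ε := by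
    rw [hε]
    positivity
  have x2 : ε * s = 9 * q := by
    rw [hε]
    field_simp
  have x3 : τ * E ^ 10 ≤ s := by
    refine (le_abs_self _).trans (abs_le_of_sq_le_sq ?_ x0.le)
    rw [mul_pow, t0, u0, ← e0]
    linarith only [mul_le_mul_of_nonneg_left e4 (by positivity : 0 ≤ p * E ^ 20)]
  have x4 : E ≤ E ^ 10 := le_self_pow₀ e3 (by norm_num)
  have x5 : 12500 * l ≤ E := by
    linarith only [e2, l1, mul_le_mul_of_nonneg_left l1 (by linarith only [l1] : 0 ≤ l)]
  have x6 : ε ≤ 1 / 5 := by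
    rw [hε, div_le_iff₀ x0]
    have : q * 45 ≤ τ * E ^ 10 := by
      gcongr
      · linarith only [q1, t1]
      · linarith only [x4, x5, l1]
    linarith only [this, x3]
  have k0 : ((n / 2 : ℕ) : ℝ) ≤ n / 2 := Nat.cast_div_le
  have k1 : (n : ℝ) ≤ 5 * (n / 4 : ℕ) := by
    have : 100 ≤ n := by exact_mod_cast (by linarith : (100 : ℝ) ≤ n)
    exact_mod_cast (by omega : n ≤ 5 * (n / 4))
  have k2 : (n : ℝ) ≤ 5 * (n / 2 - n / 4 : ℕ) := by
    have : 100 ≤ n := by exact_mod_cast (by linarith : (100 : ℝ) ≤ n)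
    exact_mod_cast (by omega : n ≤ 5 * (n / 2 - n / 4))
  obtain ⟨D, hD⟩ : ∃ D : ℕ, D = ⌈9 * q * s + 1⌉₊ := ⟨_, rfl⟩
  have d0 : 9 * q * s + 1 ≤ D := hD ▸ Nat.le_ceil _
  have d1 : (D : ℝ) ≤ 9 * q * s + 2 := by
    have := hD ▸ Nat.ceil_lt_add_one (by positivity : 0 ≤ 9 * q * s + 1)
    linarith
  have d2 : 9 * q * s = ε * (n * p) := by rw [← x2, ← u0]; ring
  have d3 : ε * (n * p) ≤ 1 / 5 * (n * (1 / 2)) := by gcongr
  have h := greedy_fail (m := m) (by exact_mod_cast (by linarith : (2 : ℝ) ≤ m)) (e := n % 2)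
    (k := n / 2) (B := B) (L := L) (D := D) (R := n / 4) (by omega)
    (by exact_mod_cast (by linarith : (1 : ℝ) ≤ B)) (by omega) hL
    (by have : 100 ≤ n := by exact_mod_cast (by linarith : (100 : ℝ) ≤ n)
        omega) p0 hp' hr (ε := ε) (β := l / 20) ?_ x1 x6 ?_ ?_ ?_
  · rw [Nat.mod_add_div] at h
    refine ⟨B, b6, t2 ▸ b1, h.trans ?_⟩
    have c1 := ratio_le (L := L) (B := B) (D := D) (T := (n / 2 - n / 4 : ℕ)) (r := r) (m := m)
      (q := q) (s := s) (τ := τ) (E := E) g1 (by linarith) (by positivity) (by linarith) m0 x0 e3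
      (by nlinarith only [d1, b2, u1, q1, t1])
      b2 (by linarith only [g0, g2, s0, l0, x5, l1])
      (by linarith only [t0, mul_le_mul_of_nonneg_right r0 m0.le]) ?_
      (by linarith only [u0, mul_le_mul k2 r0 p0.le (by positivity)]) x3
      (by linarith only [x5, q0, mul_le_mul_of_nonneg_left q1 (by linarith only [q1] : 0 ≤ q), q1])
    · have c2 : Real.exp (-(ε ^ 2 * ((n / 4 : ℕ) * r) / 4)) ≤ Real.exp (-(2 * l)) := by
        have : ε ^ 2 * (n * p) ≤ ε ^ 2 * (5 * (n / 4 : ℕ) * (2 * r)) := by gcongr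
        rw [← u0, ← mul_pow, x2, mul_pow, q0] at this
        rw [Real.exp_le_exp]
        linarith only [this, l1]
      have c3 : 2 * (m * (4 * (1 / (n : ℝ) ^ 2))) ≤ 1 / (2 * E ^ 2) := by
        have c4 : E ^ 3 ≤ n := e0 ▸ pow_le_pow_right₀ e3 (by norm_num)
        have c5 : 16 * E ^ 2 ≤ n := by
          linarith only [c4, mul_le_mul_of_nonneg_left (by linarith only [x5, l1] : 16 ≤ E)
            (sq_nonneg E)]
        rw [show 2 * (m * (4 * (1 / (n : ℝ) ^ 2))) = 8 * m / n ^ 2 by ring,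
          div_le_div_iff₀ (by positivity) (by positivity)]
        linarith only [mul_le_mul n1 c5 (by positivity) n2.le]
      rw [e5] at c2
      rw [Real.exp_neg (l / 20), ← e1]
      have c6 := mul_le_mul_of_nonneg_left c2 m0.le
      have c7 : (E ^ 2)⁻¹ = 1 / (2 * E ^ 2) + 1 / (2 * E ^ 2) := by
        field_simp
        norm_num
      linarith only [c1, c3, c6, c7]
    · refine (le_abs_self _).trans (abs_le_of_sq_le_sq ?_ (by positivity))
      linarith only [t0, e4, mul_le_mul_of_nonneg_right hp' m0.le, m0]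
  · have c1 : p * m.size / B ^ 2 ≤ 1 / 4 := by
      rw [div_le_iff₀ (by positivity)]
      rw [le_div_iff₀ (by linarith)] at hl
      have c2 : p * m.size ≤ 14 * (p * m / l) := by
        rw [← mul_div_assoc, le_div_iff₀ (by linarith)]
        linarith only [mul_le_mul_of_nonneg_left s0 (by positivity : 0 ≤ p * l),
          mul_le_mul_of_nonneg_left hl p0.le]
      have c3 : 0 ≤ p * m / l := by positivity
      linarith only [c2, c3, b4]
    have c2 : p / B ≤ 1 / 4 := by
      rw [div_le_iff₀ (by positivity)]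
      linarith
    calc r * L / B ≤ p * (m.size / B + 1) / B := by gcongr
      _ = p * m.size / B ^ 2 + p / B := by field_simp
      _ ≤ _ := by linarith
  · have c1 : 7196 * (r * m) / B ^ 2 ≤ l / 40 := by
      rw [div_le_iff₀ (by positivity)]
      have c2 := mul_le_mul_of_nonneg_left b4 (by linarith : 0 ≤ l)
      rw [mul_left_comm, mul_div_cancel₀ _ (by linarith)] at c2
      linarith only [c2, mul_le_mul_of_nonneg_right r1 m0.le, mul_pos p0 m0]
    have c2 : ε * (p * m) ≤ 13 / 2 * q := by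
      rw [show 13 / 2 * q = 13 / 18 * (9 * q) by ring, ← x2, mul_left_comm (13 / 18)]
      refine mul_le_mul_of_nonneg_left
        ((le_abs_self _).trans (abs_le_of_sq_le_sq ?_ (by positivity))) x1
      rw [mul_pow (13 / 18), u0]
      linarith only [mul_le_mul_of_nonneg_left n0 p0.le, mul_le_mul_of_nonneg_left hp'
        (by positivity : 0 ≤ p * (m : ℝ) ^ 2), (by positivity : 0 ≤ p * (m : ℝ) ^ 2)]
    linarith only [mul_le_mul_of_nonneg_left (mul_le_mul_of_nonneg_right r1 m0.le) x1, c1, c2,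
      q0, q1, mul_le_mul_of_nonneg_left q1 (by linarith only [q1] : 0 ≤ q)]
  · have : ε * ((n / 2 : ℕ) * r) ≤ ε * (n / 2 * p) := by gcongr
    linarith
  · rw [Nat.mod_add_div]
    exact_mod_cast (by linarith : (D : ℝ) ≤ n)

theorem best_le (J U W : List ℕ) (A : List (List Bool)) :
    disc J A (best J U W A) ≤ disc J A (out A) ∧
      ∀ B ∈ J, disc J A (best J U W A) ≤ disc J A (greedy J U W A B) :=
  ⟨(foldl_best _ _ _).1, fun _ hB => (foldl_best _ _ _).2 _ (List.mem_map_of_mem hB)⟩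

theorem out2_correct {m n : ℕ} (hm : 20000000 ≤ Real.log m) (hn : m ^ 2 ≤ n) {p : ℝ}
    (hp : Real.log n ≤ p * m) (hp' : p ≤ 1 / 2) :
    1 - (m : ℝ) ^ (-(1 / 10) : ℝ) ≤ ∑ A : Fin m → Fin n → Bool,
      (∏ i, ∏ j, if A i j then p else 1 - p) *
        if ∀ i, ((|∑ j : Fin n, (if A i j then 1 else 0) *
          (if (out2 (List.ofFn fun i => List.ofFn (A i))).getD j false then 1 else -1 : ℤ)| : ℤ) : ℝ)
            ≤ 31378 * √(p * m / Real.log n)
        then 1 else 0 := by
  have m0 : 0 < m := Nat.pos_of_ne_zero fun h => by norm_num [h] at hm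
  have m1 : (0 : ℝ) < m := by exact_mod_cast m0
  have l0 : 2 * Real.log m ≤ Real.log n := by
    have := Real.log_le_log (by positivity) (by exact_mod_cast hn : (m : ℝ) ^ 2 ≤ n)
    rwa [Real.log_pow, Nat.cast_ofNat] at this
  have p0 : 0 < p := (pos_iff_pos_of_mul_pos (by linarith : 0 < p * m)).2 m1
  have w0 : ∀ A : Fin m → Fin n → Bool, 0 ≤ ∏ i, ∏ j, if A i j then p else 1 - p := fun A =>
    prod_nonneg fun i _ => prod_nonneg fun j _ => by split_ifs <;> linarith
  have e1 : ∀ A : Fin m → Fin n → Bool,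
      rws (List.ofFn fun j i => A i j) = List.ofFn fun i => List.ofFn (A i) := fun A => by
    simp only [rws, List.map_ofFn]
    rfl
  have e2 : ∀ (A : Fin m → Fin n → Bool) (x : List Bool) (i : Fin m),
      ∑ j : Fin n, (if A i j then 1 else 0) * (if x.getD j false then 1 else -1 : ℤ) =
        dC (List.ofFn fun j i => A i j) x i := fun A x i => by
    rw [dC, List.length_ofFn, ← Fin.sum_univ_eq_sum_range]
    refine sum_congr rfl fun j _ => ?_
    simp only [List.map_ofFn, List.getD_eq_getElem?_getD, List.getElem?_ofFn, j.isLt]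
    cases h : A i j <;> cases x[(j : ℕ)]?.getD false <;> simp [sg, h]
  have e3 : ∀ cs : List (Fin m → Bool), out2 (rws cs) = best (List.range cs.length)
      (List.range (2 * (4 * cs.length * (m + 1)) + 1))
      (List.range (4 * cs.length * (m + 1) + 1)) (rws cs) := fun cs => by
    have : ((rws cs).headD []).length = cs.length := by
      obtain ⟨m, rfl⟩ : ∃ k, m = k + 1 := ⟨m - 1, by omega⟩
      simp [rws, List.ofFn_succ]
    rw [out2, this, rws, List.length_ofFn]
  have t0 : 1 ≤ √(p * m / Real.log n) :=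
    Real.one_le_sqrt.2 ((one_le_div (by linarith)).2 hp)
  rw [Real.rpow_def_of_pos m1]
  by_cases hl : Real.log n ≤ 7 * m / Real.log m
  · obtain ⟨B, hB, hB', h⟩ := greedy_main hm hn hp hp' hl
    refine le_trans (sub_le_sub_left (h.trans (Real.exp_le_exp.2 (by linarith))) 1) ?_
    rw [sub_eq_add_neg, ← neg_one_mul, ← ExL_mul, ← ExL_const (p := p) (n := m) n 1, ← ExL_add,
      ExL_const, ExL_ofFn, ← (Equiv.piComm fun (_ : Fin m) (_ : Fin n) => Bool).sum_comp]
    refine sum_le_sum fun A _ => ?_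
    rw [prod_comm]
    refine mul_le_mul_of_nonneg_left ?_ (w0 A)
    change 1 + -1 * (if disc _ (rws (List.ofFn fun j i => A i j)) _ ≤ _ then 0 else 1) ≤ _
    split_ifs with c1 c2 c2
    · norm_num
    · refine absurd (fun i => ?_) c2
      rw [e2, ← e1, e3]
      have := (disc_le _ _ _).1 (((best_le _ _ _ _).2 B
        (List.mem_range.2 (by simpa using hB))).trans c1) i
      refine (Int.cast_le.2 this).trans ?_
      push_cast
      linarith
    all_goals norm_num
  · have a1 := Real.quadratic_le_exp_of_nonneg (x := Real.log m) (by linarith)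
    rw [Real.exp_log m1] at a1
    have a2 : Real.exp (7 * m / Real.log m) ≤ n := by
      have : (0 : ℝ) < n := by exact_mod_cast (pow_pos m0 2).trans_le hn
      rw [← Real.exp_log this, Real.exp_le_exp]
      exact (not_le.1 hl).le
    have a3 : Real.log m * (1 / 10) ≤ m / Real.log m := by
      rw [le_div_iff₀ (by linarith)]
      linarith
    refine le_trans (sub_le_sub_left (Real.exp_le_exp.2 (by linarith)) 1) ((out_correct
      (by exact_mod_cast (by nlinarith only [a1, hm] : (2 : ℝ) ^ 30 ≤ m)) a2 (by linarith)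
      hp').trans (sum_le_sum fun A _ => mul_le_mul_of_nonneg_left ?_ (w0 A)))
    split_ifs with c1 c2 c2
    · norm_num
    · refine absurd (fun i => ?_) c2
      simp only [e2, ← e1] at c1
      rw [e2, ← e1, e3]
      refine (Int.cast_le.2 ((disc_le _ _ 1).1
        ((best_le _ _ _ _).1.trans ((disc_le _ _ 1).2 c1)) i)).trans ?_
      push_cast
      linarith
    all_goals norm_num

end Pool.Agent.Lib.MP_29d7aa_lc.Gd
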