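import Mathlib

/-!
Finite product weights and the change of measure inequality.
-/

set_option autoImplicit false

noncomputable section

namespace Pool.Agent.Lib.MP_29d7aa_lc.Gd

open Finset

variable {ι α γ : Type} [Fintype ι] [DecidableEq ι] [Fintype α] [Fintype γ]

/-- Integral against a product weight. -/
def PI (w : ι → α → ℝ) (F : (ι → α) → ℝ) : ℝ := ∑ x : ι → α, (∏ i, w i (x i)) * F x

theorem PI_add (w : ι → α → ℝ) (F G : (ι → α) → ℝ) :
    PI w (fun x => F x + G x) = PI w F + PI w G := by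
  simp only [PI, mul_add, sum_add_distrib]

theorem PI_mul (w : ι → α → ℝ) (c : ℝ) (F : (ι → α) → ℝ) :
    PI w (fun x => c * F x) = c * PI w F := by
  simp only [PI, mul_sum]
  exact sum_congr rfl fun _ _ => by ring

theorem PI_sum {κ : Type} (w : ι → α → ℝ) (s : Finset κ) (F : κ → (ι → α) → ℝ) :
    PI w (fun x => ∑ k ∈ s, F k x) = ∑ k ∈ s, PI w (F k) := by
  simp only [PI, mul_sum]
  exact sum_comm

theorem PI_mono {w : ι → α → ℝ} (hw : ∀ i a, 0 ≤ w i a) {F G : (ι → α) → ℝ}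
    (h : ∀ x, F x ≤ G x) : PI w F ≤ PI w G :=
  sum_le_sum fun x _ => mul_le_mul_of_nonneg_left (h x) (prod_nonneg fun i _ => hw i _)

theorem PI_nonneg {w : ι → α → ℝ} (hw : ∀ i a, 0 ≤ w i a) {F : (ι → α) → ℝ}
    (h : ∀ x, 0 ≤ F x) : 0 ≤ PI w F :=
  sum_nonneg fun x _ => mul_nonneg (prod_nonneg fun i _ => hw i _) (h x)

theorem PI_prod (w g : ι → α → ℝ) :
    PI w (fun x => ∏ i, g i (x i)) = ∏ i, ∑ a, w i a * g i a := by
  rw [prod_univ_sum, Fintype.piFinset_univ]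
  simp only [PI, prod_mul_distrib]

theorem PI_one (w : ι → α → ℝ) : PI w (fun _ => 1) = ∏ i, ∑ a, w i a := by
  simpa using PI_prod w fun _ _ => 1

theorem PI_const {w : ι → α → ℝ} (hw : ∀ i, ∑ a, w i a = 1) (c : ℝ) : PI w (fun _ => c) = c := by
  have := PI_mul w c fun _ => 1
  simpa [PI_one, hw] using this

theorem PI_coord (w : ι → α → ℝ) (j : ι) (g : α → ℝ) :
    PI w (fun x => g (x j)) = (∑ a, w j a * g a) * ∏ i ∈ univ.erase j, ∑ a, w i a := by
  have h := PI_prod w fun i a => if i = j then g a else 1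
  simp only [prod_ite_eq', mem_univ, if_true] at h
  rw [h, ← mul_prod_erase univ _ (mem_univ j)]
  simp only [if_true]
  congr 1
  exact prod_congr rfl fun i hi => by simp [(mem_erase.1 hi).1]

theorem PI_coord1 {w : ι → α → ℝ} (hw : ∀ i, ∑ a, w i a = 1) (j : ι) (g : α → ℝ) :
    PI w (fun x => g (x j)) = ∑ a, w j a * g a := by
  simp [PI_coord, hw]

theorem PI_coord2 {w : ι → α → ℝ} (hw : ∀ i, ∑ a, w i a = 1) {j k : ι} (hjk : j ≠ k)
    (g h : α → ℝ) :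
    PI w (fun x => g (x j) * h (x k)) = (∑ a, w j a * g a) * ∑ a, w k a * h a := by
  have h1 := PI_prod w fun i a => (if i = j then g a else 1) * if i = k then h a else 1
  simp only [prod_mul_distrib, prod_ite_eq', mem_univ, if_true] at h1
  rw [h1, ← mul_prod_erase univ _ (mem_univ j),
    ← mul_prod_erase _ _ (mem_erase.2 ⟨hjk.symm, mem_univ k⟩), prod_eq_one, mul_one]
  · simp [hjk, hjk.symm]
  · intro i hi
    simp [(mem_erase.1 hi).1, (mem_erase.1 (mem_erase.1 hi).2).1, hw]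

theorem PI_sq {w : ι → α → ℝ} (hw : ∀ i, ∑ a, w i a = 1) (Y : ι → α → ℝ) :
    PI w (fun x => (∑ i, Y i (x i)) ^ 2) ≤
      (∑ i, ∑ a, w i a * Y i a) ^ 2 + ∑ i, ∑ a, w i a * Y i a ^ 2 := by
  simp only [sq, sum_mul_sum univ univ (fun i => Y i _), PI_sum]
  rw [sum_mul_sum, ← sum_add_distrib]
  refine sum_le_sum fun i _ => ?_
  rw [← add_sum_erase univ _ (mem_univ i), ← add_sum_erase univ _ (mem_univ i),
    PI_coord1 hw i fun a => Y i a * Y i a,
    sum_congr rfl fun k hk => PI_coord2 hw (mem_erase.1 hk).1.symm (Y i) (Y k)]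
  linarith [mul_self_nonneg (∑ a, w i a * Y i a)]

theorem PI_cs {u v w : ι → α → ℝ} (hu : ∀ i a, 0 ≤ u i a) (hv : ∀ i a, 0 ≤ v i a)
    (h : ∀ i a, w i a ^ 2 ≤ u i a * v i a) {F G H : (ι → α) → ℝ} (hF : ∀ x, 0 ≤ F x)
    (hG : ∀ x, 0 ≤ G x) (hH : ∀ x, H x ^ 2 ≤ F x * G x) : PI w H ^ 2 ≤ PI u F * PI v G := by
  refine sum_sq_le_sum_mul_sum_of_sq_le_mul _
    (fun x _ => mul_nonneg (prod_nonneg fun i _ => hu i _) (hF x))
    (fun x _ => mul_nonneg (prod_nonneg fun i _ => hv i _) (hG x)) fun x _ => ?_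
  rw [mul_pow, ← prod_pow, mul_mul_mul_comm, ← prod_mul_distrib]
  exact mul_le_mul (prod_le_prod (fun i _ => sq_nonneg _) fun i _ => h i _) (hH x) (sq_nonneg _)
    (prod_nonneg fun i _ => mul_nonneg (hu i _) (hv i _))

theorem PI_push [DecidableEq γ] (w : ι → α → ℝ) (φ : ι → α → γ) (F : (ι → γ) → ℝ) :
    PI w (fun x => F fun i => φ i (x i)) =
      PI (fun i c => ∑ a, w i a * if φ i a = c then 1 else 0) F := by
  have h : ∀ x : ι → α, (F fun i => φ i (x i)) =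
      ∑ y : ι → γ, F y * ∏ i, if φ i (x i) = y i then 1 else 0 := by
    intro x
    rw [sum_eq_single (fun i => φ i (x i))]
    · simp
    · intro y _ hy
      obtain ⟨i, hi⟩ := Function.ne_iff.1 hy
      rw [prod_eq_zero (mem_univ i) (by simp [hi.symm]), mul_zero]
    · simp
  simp only [h, PI_sum, PI_mul]
  refine sum_congr rfl fun y _ => ?_
  rw [PI_prod w fun i a => if φ i a = y i then 1 else 0, mul_comm]

/-- The data of one row in the change of measure. -/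
def Good (τ X : α → ℝ) (g β e c₁ c₂ : ℝ) : Prop :=
  0 ≤ β ∧ ∃ ν M a c P Y : α → ℝ, (∀ x, 0 ≤ τ x ∧ 0 ≤ ν x ∧ 0 ≤ M x ∧ 0 ≤ a x ∧ 0 ≤ c x ∧
      ν x ^ 2 ≤ τ x * M x ∧ M x ^ 2 ≤ a x * c x ∧ X x = P x + Y x) ∧
    ∑ x, ν x = 1 ∧ ∑ x, c x = 1 ∧ ∑ x, M x ≤ Real.exp β ∧ ∑ x, a x ≤ Real.exp (2 * β) ∧
    g ≤ ∑ x, ν x * X x ∧ ∑ x, M x * |P x| ≤ c₁ * (∑ x, ν x * X x + e) ∧
    |∑ x, c x * Y x| ≤ ∑ x, ν x * X x + e ∧ ∑ x, c x * Y x ^ 2 ≤ c₂ * (∑ x, ν x * X x + e)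

theorem Good.comp {τ X : α → ℝ} {g β e c₁ c₂ : ℝ} (h : Good τ X g β e c₁ c₂) (σ : γ ≃ α) :
    Good (fun x => τ (σ x)) (fun x => X (σ x)) g β e c₁ c₂ := by
  obtain ⟨h0, ν, M, a, c, P, Y, h1, h2, h3, h4, h5, h6, h7, h8, h9⟩ := h
  have e1 := σ.sum_comp fun x => ν x * X x
  refine ⟨h0, fun x => ν (σ x), fun x => M (σ x), fun x => a (σ x), fun x => c (σ x),
    fun x => P (σ x), fun x => Y (σ x), fun x => h1 (σ x), ?_, ?_, ?_, ?_, ?_, ?_, ?_, ?_⟩
  · rwa [σ.sum_comp ν]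
  · rwa [σ.sum_comp c]
  · rwa [σ.sum_comp M]
  · rwa [σ.sum_comp a]
  · rwa [e1]
  · rwa [e1, σ.sum_comp fun x => M x * |P x|]
  · rwa [e1, σ.sum_comp fun x => c x * Y x]
  · rwa [e1, σ.sum_comp fun x => c x * Y x ^ 2]

theorem core {τ X : ι → α → ℝ} {g β : ι → ℝ} {e c₁ c₂ G₀ b : ℝ}
    (h : ∀ i, Good (τ i) (X i) (g i) (β i) e c₁ c₂) (h0 : 0 < G₀) (h1 : G₀ ≤ ∑ i, g i)
    (h2 : Fintype.card ι * e ≤ G₀) (h3 : ∑ i, β i ≤ b) (hc₁ : 0 ≤ c₁) (hc₂ : 0 ≤ c₂) :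
    G₀ / (Real.exp b * (2 * c₁ + 2 + √(2 * c₂ / G₀))) ≤
      PI τ fun x => max (∑ i, X i (x i)) 0 := by
  have hβ := fun i => (h i).1
  choose ν M a c P Y k0 k1 k2 k3 k4 k5 k6 k7 k8 using fun i => (h i).2
  set G := ∑ i, ∑ x, ν i x * X i x with hG
  have g1 : G₀ ≤ G := h1.trans (sum_le_sum fun i _ => k5 i)
  have g9 : 0 < G := by linarith
  have g2 : ∑ i, (∑ x, ν i x * X i x + e) ≤ 2 * G := by
    rw [sum_add_distrib, sum_const, card_univ, nsmul_eq_mul]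
    linarith
  have g3 : G ≤ PI ν fun x => max (∑ i, X i (x i)) 0 := by
    refine le_trans ?_ (PI_mono (fun i x => (k0 i x).2.1) fun x => le_max_left _ _)
    rw [PI_sum]
    exact sum_le_sum fun i _ => (PI_coord1 k1 i (X i)).ge
  have g4 := PI_cs (fun i x => (k0 i x).1) (fun i x => (k0 i x).2.2.1)
    (fun i x => (k0 i x).2.2.2.2.2.1) (F := fun x => max (∑ i, X i (x i)) 0)
    (G := fun x => max (∑ i, X i (x i)) 0) (H := fun x => max (∑ i, X i (x i)) 0)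
    (fun x => le_max_right _ _) (fun x => le_max_right _ _) fun x => (sq _).le
  have g5 : (PI M fun x => ∑ i, |P i (x i)|) ≤ Real.exp b * (c₁ * (2 * G)) := by
    rw [PI_sum]
    refine le_trans (sum_le_sum fun i _ => ?_ : _ ≤ ∑ i, Real.exp b *
      (c₁ * (∑ x, ν i x * X i x + e))) ?_
    · rw [PI_coord M i fun x => |P i x|, mul_comm]
      refine mul_le_mul ?_ (k6 i) (sum_nonneg fun x _ => mul_nonneg (k0 i x).2.2.1 (abs_nonneg _))
        (Real.exp_pos _).le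
      refine (prod_le_prod (fun j _ => sum_nonneg fun x _ => (k0 j x).2.2.1)
        fun j _ => k3 j).trans ?_
      rw [← Real.exp_sum, Real.exp_le_exp]
      exact (sum_le_sum_of_subset_of_nonneg (erase_subset _ _) fun j _ _ => hβ j).trans h3
    · rw [← mul_sum, ← mul_sum]
      gcongr
  have g6 : (PI M fun x => |∑ i, Y i (x i)|) ≤ Real.exp b * (G * (2 + √(2 * c₂ / G₀))) := by
    refine (le_abs_self _).trans (abs_le_of_sq_le_sq ?_ (by positivity))
    refine (PI_cs (fun i x => (k0 i x).2.2.2.1) (fun i x => (k0 i x).2.2.2.2.1)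
      (fun i x => (k0 i x).2.2.2.2.2.2.1) (F := fun _ => 1) (G := fun x => (∑ i, Y i (x i)) ^ 2)
      (fun _ => zero_le_one) (fun x => sq_nonneg _) fun x => by simp).trans ?_
    rw [mul_pow]
    refine mul_le_mul ?_ ((PI_sq k2 Y).trans ?_)
      (PI_nonneg (fun i x => (k0 i x).2.2.2.2.1) fun x => sq_nonneg _) (sq_nonneg _)
    · rw [PI_one]
      refine (prod_le_prod (fun j _ => sum_nonneg fun x _ => (k0 j x).2.2.2.1)
        fun j _ => k4 j).trans ?_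
      rw [← Real.exp_sum, ← Real.exp_nat_mul, Real.exp_le_exp, ← mul_sum]
      push_cast
      linarith
    · have a1 : |∑ i, ∑ x, c i x * Y i x| ≤ 2 * G :=
        ((abs_sum_le_sum_abs _ _).trans (sum_le_sum fun i _ => k7 i)).trans g2
      have a2 : ∑ i, ∑ x, c i x * Y i x ^ 2 ≤ c₂ * (2 * G) := by
        refine (sum_le_sum fun i _ => k8 i).trans ?_
        rw [← mul_sum]
        gcongr
      have a3 := sq_le_sq' (abs_le.1 a1).1 (abs_le.1 a1).2
      have a4 : √(2 * c₂ / G₀) ^ 2 = 2 * c₂ / G₀ := Real.sq_sqrt (by positivity)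
      have a5 : c₂ * (2 * G) ≤ G ^ 2 * (2 * c₂ / G₀) := by
        rw [← mul_div_assoc, le_div_iff₀ h0]
        have : 0 ≤ c₂ * G * (G - G₀) := mul_nonneg (mul_nonneg hc₂ (by linarith)) (by linarith)
        nlinarith
      have a6 : 0 ≤ G ^ 2 * √(2 * c₂ / G₀) := by positivity
      nlinarith
  have g7 : (PI M fun x => max (∑ i, X i (x i)) 0) ≤
      G * (Real.exp b * (2 * c₁ + 2 + √(2 * c₂ / G₀))) := by
    refine le_trans (PI_mono (fun i x => (k0 i x).2.2.1) fun x => ?_ :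
      _ ≤ PI M fun x => ∑ i, |P i (x i)| + |∑ i, Y i (x i)|) ?_
    · have a1 : ∑ i, P i (x i) ≤ ∑ i, |P i (x i)| := sum_le_sum fun i _ => le_abs_self _
      have a2 : 0 ≤ ∑ i, |P i (x i)| := sum_nonneg fun i _ => abs_nonneg _
      simp only [fun i => (k0 i (x i)).2.2.2.2.2.2.2, sum_add_distrib]
      exact max_le (add_le_add a1 (le_abs_self _)) (by positivity)
    · rw [PI_add]
      linarith
  have g8 : 0 ≤ PI τ fun x => max (∑ i, X i (x i)) 0 :=
    PI_nonneg (fun i x => (k0 i x).1) fun x => le_max_right _ _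
  rw [div_le_iff₀ (by positivity)]
  refine g1.trans (le_of_mul_le_mul_left ?_ g9)
  have := mul_le_mul_of_nonneg_left g7 g8
  nlinarith

end Pool.Agent.Lib.MP_29d7aa_lc.Gd
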