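import Pool.Agent.Lib.MP_29d7aa_lc.GProd

/-!
The barrier function and the tilted law of one row.
-/

set_option autoImplicit false

noncomputable section

namespace Pool.Agent.Lib.MP_29d7aa_lc.Gd

open Finset

/-- The soft barrier. -/
def fb (v : ℤ) : ℝ := if 1 ≤ v then 1 / v else 2 ^ (1 - v)

/-- The slope of the barrier. -/
def dl (v : ℤ) : ℝ := fb v - fb (v + 1)

theorem fb_pos (v : ℤ) : 0 < fb v := by
  unfold fb
  split_ifs with h
  · have : (1 : ℝ) ≤ v := by exact_mod_cast h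
    positivity
  · positivity

theorem fb_hi {v : ℤ} (h : 1 ≤ v) : fb v = 1 / v := if_pos h

theorem fb_lo {v : ℤ} (h : v ≤ 1) : fb v = 2 ^ (1 - v) := by
  rcases h.eq_or_lt with rfl | h
  · simp [fb]
  · exact if_neg (by omega)

theorem dl_hi {v : ℤ} (h : 1 ≤ v) : dl v = 1 / (v * (v + 1)) := by
  have : (1 : ℝ) ≤ v := by exact_mod_cast h
  rw [dl, fb_hi h, fb_hi (by omega)]
  push_cast
  field_simp
  ring

theorem dl_lo {v : ℤ} (h : v ≤ 0) : dl v = 2 ^ (-v) ∧ fb v = 2 * dl v := by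
  have h1 : fb v = 2 * 2 ^ (-v) := by
    rw [fb_lo (by omega), sub_eq_add_neg, zpow_add₀ two_ne_zero, zpow_one]
  have h2 : fb (v + 1) = 2 ^ (-v) := by
    rw [fb_lo (by omega)]
    congr 1
    ring
  rw [dl, h1, h2]
  constructor <;> ring

theorem one_le_dl {v : ℤ} (h : v ≤ 0) : 1 ≤ dl v := by
  rw [(dl_lo h).1]
  exact one_le_zpow₀ one_le_two (by omega)

theorem dl_pos (v : ℤ) : 0 < dl v := by
  by_cases h : 1 ≤ v
  · have : (1 : ℝ) ≤ v := by exact_mod_cast h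
    rw [dl_hi h]
    positivity
  · linarith [one_le_dl (v := v) (by omega)]

theorem fb_anti : Antitone fb :=
  antitone_int_of_succ_le fun v => sub_nonneg.1 (dl_pos v).le

theorem dl_pred (v : ℤ) : dl (v - 1) ≤ 3 * dl v := by
  by_cases h : 2 ≤ v
  · have : (2 : ℝ) ≤ v := by exact_mod_cast h
    have h1 : (0 : ℝ) < v - 1 := by linarith
    rw [dl_hi (by omega), dl_hi (by omega)]
    push_cast
    rw [sub_add_cancel, mul_one_div, div_le_div_iff₀ (by positivity) (by positivity)]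
    nlinarith
  · by_cases h' : v = 1
    · subst h'
      rw [(dl_lo (by omega)).1, dl_hi le_rfl]
      norm_num
    · rw [(dl_lo (by omega)).1, (dl_lo (by omega)).1, neg_sub, sub_eq_add_neg,
        zpow_add₀ two_ne_zero, zpow_one]
      have : (0 : ℝ) < 2 ^ (-v) := by positivity
      linarith

theorem fb_le {a : ℝ} (ha : 2 ≤ a) (v : ℤ) : fb v ≤ a * dl v + 1 / a := by
  have h0 := dl_pos v
  have h1 : 0 < 1 / a := by positivity
  by_cases h : 1 ≤ v
  · have h2 : (1 : ℝ) ≤ v := by exact_mod_cast h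
    by_cases h3 : a ≤ v
    · have : fb v ≤ 1 / a := by
        rw [fb_hi h]
        gcongr
      nlinarith
    · have h4 : fb v = (v + 1) * dl v := by
        rw [fb_hi h, dl_hi h]
        field_simp
      have h5 : dl v ≤ 1 / a * (1 + (a - v)) := by
        rw [dl_hi h, one_div_mul_eq_div, div_le_div_iff₀ (by positivity) (by positivity)]
        nlinarith [mul_nonneg (mul_nonneg (by linarith : (0 : ℝ) ≤ v) (by linarith : (0 : ℝ) ≤ v))
          (by linarith : 0 ≤ a - v)]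
      by_cases h6 : v + 1 ≤ a
      · nlinarith
      · have h7 : dl v ≤ 1 / a := by
          rw [dl_hi h]
          gcongr
          nlinarith
        nlinarith
  · have := (dl_lo (v := v) (by omega)).2
    nlinarith

theorem dl_le {V : ℝ} (hV : 1 ≤ V) {v : ℤ} (h : V ≤ v) : dl v ≤ 1 / V ^ 2 := by
  rw [dl_hi (by exact_mod_cast hV.trans h)]
  gcongr
  nlinarith

theorem nonneg_of_le_mul {a b x : ℝ} (ha : 0 ≤ a) (hb : 0 < b) (h : a ≤ b * x) : 0 ≤ x :=
  le_of_mul_le_mul_left (by linarith) hb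

theorem good_small {r η θ g h c β e c₁ c₂ : ℝ} {τ : Fin 3 → ℝ} (hr : 0 < r) (hr' : r ≤ 1 / 4)
    (hη : 0 ≤ η) (hη' : η ≤ 2 / 5) (t0 : r ≤ (1 + η) * τ 0) (t1 : r ≤ (1 + η) * τ 1)
    (t2 : 1 - 2 * r ≤ (1 + 6 * r * η) * τ 2) (hθ : 0 ≤ θ) (hθ' : θ ≤ 1) (hc₁ : 0 ≤ c₁)
    (hβ : 14 * r * θ ^ 2 + 12 * r * η ≤ β) (h1 : c ≤ r * (1 + θ) * g - r * (1 - θ) * h)
    (h2 : |r * (g - h)| ≤ r * (1 + θ) * g - r * (1 - θ) * h + e)
    (h3 : r * (g ^ 2 + h ^ 2) ≤ c₂ * (r * (1 + θ) * g - r * (1 - θ) * h + e)) :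
    Good τ ![g, -h, 0] c β e c₁ c₂ := by
  have a0 : 0 ≤ 1 - 2 * r := by linarith
  have a1 : 0 ≤ 1 - θ := by linarith
  have a2 : 0 ≤ τ 0 := nonneg_of_le_mul hr.le (by positivity) t0
  have a3 : 0 ≤ τ 1 := nonneg_of_le_mul hr.le (by positivity) t1
  have a4 : 0 ≤ r * η := by positivity
  have a5 : 0 ≤ τ 2 := nonneg_of_le_mul a0 (by positivity) t2
  have a6 : 0 ≤ r * θ ^ 2 := by positivity
  have a7 : r * η ≤ 1 / 4 * (2 / 5) := by gcongr
  have e1 : ∑ x, ![r * (1 + θ), r * (1 - θ), 1 - 2 * r] x * ![g, -h, 0] x =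
      r * (1 + θ) * g - r * (1 - θ) * h := by
    simp [Fin.sum_univ_three]
    ring
  refine ⟨by linarith, ![r * (1 + θ), r * (1 - θ), 1 - 2 * r],
    ![r * (1 + θ) ^ 2 * (1 + η), r * (1 - θ) ^ 2 * (1 + η), (1 - 2 * r) * (1 + 6 * r * η)],
    ![r * (1 + θ) ^ 4 * (1 + η) ^ 2, r * (1 - θ) ^ 4 * (1 + η) ^ 2,
      (1 - 2 * r) * (1 + 6 * r * η) ^ 2], ![r, r, 1 - 2 * r], fun _ => 0, ![g, -h, 0],
    fun x => ?_, ?_, ?_, ?_, ?_, ?_, ?_, ?_, ?_⟩
  · fin_cases x
    · refine ⟨a2, ?_, ?_, ?_, hr.le, ?_, le_of_eq ?_, by simp⟩ <;> simp only [Fin.zero_eta,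
        Matrix.cons_val_zero]
      any_goals positivity
      · linarith [mul_le_mul_of_nonneg_left t0 (by positivity : 0 ≤ r * (1 + θ) ^ 2)]
      · ring
    · refine ⟨a3, ?_, ?_, ?_, hr.le, ?_, le_of_eq ?_, by simp⟩ <;> simp only [Fin.mk_one,
        Matrix.cons_val_one, Matrix.cons_val_zero]
      any_goals positivity
      · linarith [mul_le_mul_of_nonneg_left t1 (by positivity : 0 ≤ r * (1 - θ) ^ 2)]
      · ring
    · refine ⟨a5, a0, ?_, ?_, a0, ?_, le_of_eq ?_, by simp⟩ <;> simp only [Fin.reduceFinMk,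
        Matrix.cons_val]
      any_goals positivity
      · linarith [mul_le_mul_of_nonneg_left t2 a0]
      · ring
  · simp [Fin.sum_univ_three]
    ring
  · simp [Fin.sum_univ_three]
    ring
  · refine le_trans ?_ (Real.add_one_le_exp β)
    simp only [Fin.sum_univ_three, Matrix.cons_val_zero, Matrix.cons_val_one, Matrix.cons_val]
    linarith [mul_le_mul_of_nonneg_left hη' a6, mul_nonneg a4 hr.le]
  · refine le_trans ?_ (Real.add_one_le_exp (2 * β))
    simp only [Fin.sum_univ_three, Matrix.cons_val_zero, Matrix.cons_val_one, Matrix.cons_val]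
    have b0 := mul_le_mul_of_nonneg_left hη' hη
    have b1 : (1 + η) ^ 2 ≤ 1 + 3 * η := by linarith
    have b2 : (1 + η) ^ 2 ≤ 2 := by linarith
    have b3 : (1 + 6 * r * η) ^ 2 ≤ 1 + 18 * r * η := by
      linarith [mul_le_mul_of_nonneg_left a7 a4]
    have b4 : θ ^ 4 ≤ θ ^ 2 := pow_le_pow_of_le_one hθ hθ' (by norm_num)
    have b5 : (12 * θ ^ 2 + 2 * θ ^ 4) * (1 + η) ^ 2 ≤ 14 * θ ^ 2 * 2 :=
      mul_le_mul (by linarith) b2 (by positivity) (by positivity)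
    linarith [mul_le_mul_of_nonneg_left b5 hr.le, mul_le_mul_of_nonneg_left b1 hr.le,
      mul_le_mul_of_nonneg_left b3 a0, mul_nonneg a4 hr.le]
  · rwa [e1]
  · rw [e1]
    simpa using mul_nonneg hc₁ ((abs_nonneg _).trans h2)
  · rw [e1]
    refine le_trans (le_of_eq ?_) h2
    simp only [Fin.sum_univ_three, Matrix.cons_val_zero, Matrix.cons_val_one, Matrix.cons_val]
    congr 1
    ring
  · rw [e1]
    refine le_trans (le_of_eq ?_) h3
    simp only [Fin.sum_univ_three, Matrix.cons_val_zero, Matrix.cons_val_one, Matrix.cons_val]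
    ring

theorem good_big {r η θ g x c β e c₁ c₂ : ℝ} {τ : Fin 3 → ℝ} (hr : 0 < r) (hr' : r ≤ 1 / 4)
    (hη : 0 ≤ η) (hη' : η ≤ 2 / 5) (t0 : r ≤ (1 + η) * τ 0) (t1 : r ≤ (1 + η) * τ 1)
    (t2 : 1 - 2 * r ≤ (1 + 6 * r * η) * τ 2) (hθ : 1 ≤ θ) (hθ' : r * (θ - 1) ≤ 1 / 2)
    (hc₁ : 2 * (1 + θ) ≤ c₁) (hc₂ : 0 ≤ c₂) (he : 0 ≤ e) (hg : 0 ≤ g)
    (hβ : 14 * r * θ ^ 2 + 12 * r * η ≤ β) (h1 : c ≤ r * (1 + θ) * g) :
    Good τ ![g, x, 0] c β e c₁ c₂ := by
  have a0 : 0 ≤ 1 - 2 * r := by linarith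
  have a2 : 0 ≤ τ 0 := nonneg_of_le_mul hr.le (by positivity) t0
  have a3 : 0 ≤ τ 1 := nonneg_of_le_mul hr.le (by positivity) t1
  have a4 : 0 ≤ r * η := by positivity
  have a5 : 0 ≤ τ 2 := nonneg_of_le_mul a0 (by positivity) t2
  have a6 : r ≤ r * θ ^ 2 := le_mul_of_one_le_right hr.le (one_le_pow₀ hθ)
  obtain ⟨y, hy⟩ : ∃ y, y = r * (θ - 1) := ⟨_, rfl⟩
  have a7 : 0 ≤ y := hy ▸ mul_nonneg hr.le (by linarith)
  rw [← hy] at hθ'
  obtain ⟨Z, hZ⟩ : ∃ Z, Z = 1 - 2 * r - 2 * y + 2 * y ^ 2 := ⟨_, rfl⟩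
  have a8 : 0 ≤ Z := by linarith [sq_nonneg (y - 1 / 2)]
  have a9 : Z ≤ 1 := by linarith [mul_le_mul_of_nonneg_left hθ' a7]
  obtain ⟨S, hS⟩ : ∃ S, S = r * (1 + θ) ^ 2 * (1 + η) + Z * (1 + 6 * r * η) := ⟨_, rfl⟩
  have b0 : 0 < S := by
    rw [hS]
    positivity
  have b1 : S ≤ Real.exp β := by
    refine le_trans ?_ (Real.add_one_le_exp β)
    have c1 : y ^ 2 ≤ r * θ ^ 2 / 4 := by
      have : y ^ 2 ≤ (r * θ) ^ 2 := by
        gcongr
        linarith
      linarith [mul_le_mul_of_nonneg_left hr' (by positivity : 0 ≤ r * θ ^ 2)]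
    have c2 : r * (1 + θ) ^ 2 * η ≤ r * (2 * θ) ^ 2 * (2 / 5) := by
      gcongr
      linarith
    linarith [mul_le_mul_of_nonneg_right a9 a4]
  have e1 : ∑ z, ![r * (1 + θ), 0, 1 - 2 * r - y] z * ![g, x, 0] z = r * (1 + θ) * g := by
    simp [Fin.sum_univ_three]
  have e2 : ∑ z, ![r * (1 + θ) ^ 2 * (1 + η), 0, Z * (1 + 6 * r * η)] z = S := by
    simp [Fin.sum_univ_three, hS]
  have e3 : 0 ≤ r * (1 + θ) * g := by positivity
  refine ⟨by linarith, ![r * (1 + θ), 0, 1 - 2 * r - y],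
    ![r * (1 + θ) ^ 2 * (1 + η), 0, Z * (1 + 6 * r * η)],
    fun z => ![r * (1 + θ) ^ 2 * (1 + η), 0, Z * (1 + 6 * r * η)] z * S,
    fun z => ![r * (1 + θ) ^ 2 * (1 + η), 0, Z * (1 + 6 * r * η)] z / S, ![g, x, 0], fun _ => 0,
    fun z => ?_, ?_, ?_, ?_, ?_, ?_, ?_, ?_, ?_⟩
  · have c1 : 0 ≤ ![r * (1 + θ) ^ 2 * (1 + η), 0, Z * (1 + 6 * r * η)] z := by
      fin_cases z <;> simp only [Fin.zero_eta, Fin.mk_one, Fin.reduceFinMk, Matrix.cons_val_zero,
        Matrix.cons_val_one, Matrix.cons_val] <;> positivity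
    refine ⟨?_, ?_, c1, by positivity, by positivity, ?_, le_of_eq (by field_simp), by simp⟩ <;>
      fin_cases z <;> simp only [Fin.zero_eta, Fin.mk_one, Fin.reduceFinMk, Matrix.cons_val_zero,
        Matrix.cons_val_one, Matrix.cons_val]
    any_goals positivity
    · linarith
    · linarith [mul_le_mul_of_nonneg_left t0 (by positivity : 0 ≤ r * (1 + θ) ^ 2)]
    · simp
    · have c2 : (1 - 2 * r - y) ^ 2 ≤ Z * (1 - 2 * r) := by
        rw [hZ]
        linarith [mul_le_mul_of_nonneg_left hr' (sq_nonneg y)]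
      linarith [mul_le_mul_of_nonneg_left t2 a8]
  · simp only [Fin.sum_univ_three, Matrix.cons_val_zero, Matrix.cons_val_one, Matrix.cons_val]
    linarith
  · rw [← sum_div, e2, div_self b0.ne']
  · rwa [e2]
  · rw [← sum_mul, e2, two_mul, Real.exp_add]
    gcongr
  · rwa [e1]
  · rw [e1]
    simp only [Fin.sum_univ_three, Matrix.cons_val_zero, Matrix.cons_val_one, Matrix.cons_val,
      zero_mul, abs_zero, mul_zero, add_zero, abs_of_nonneg hg]
    have c1 : (1 + θ) * (1 + η) ≤ c₁ := by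
      linarith [mul_le_mul_of_nonneg_left hη' (by linarith : 0 ≤ 1 + θ)]
    linarith [mul_le_mul_of_nonneg_right c1 e3, mul_nonneg (by linarith : 0 ≤ c₁) he]
  · rw [e1]
    simpa using add_nonneg e3 he
  · rw [e1]
    simpa using mul_nonneg hc₂ (add_nonneg e3 he)

theorem hyp {s x : ℝ} (hs : 0 < s) (h : 8 * s ≤ x) :
    8 / 9 * (s / x ^ 2) ≤ 1 / x - 1 / (x + s) ∧ 1 / x - 1 / (x + s) ≤ 1 / (x - s) - 1 / x ∧
      1 / (x - s) - 1 / x ≤ 8 / 7 * (s / x ^ 2) ∧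
      1 / (x - s) - 1 / x - (1 / x - 1 / (x + s)) ≤ 41 / 20 * (s ^ 2 / x ^ 3) := by
  have h0 : 0 < x := by linarith
  have h1 : 0 < x - s := by linarith
  have e1 : 1 / x - 1 / (x + s) = s / (x * (x + s)) := by
    field_simp
    ring
  have e2 : 1 / (x - s) - 1 / x = s / (x * (x - s)) := by
    field_simp
    ring
  have e3 : 1 / (x - s) - 1 / x - (1 / x - 1 / (x + s)) = 2 * s ^ 2 / (x * (x - s) * (x + s)) := by
    field_simp
    ring
  have h2 : 0 ≤ s * x * (x - 8 * s) := mul_nonneg (by positivity) (by linarith)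
  refine ⟨?_, ?_, ?_, ?_⟩
  · rw [e1, ← mul_div_assoc, div_le_div_iff₀ (by positivity) (by positivity)]
    nlinarith
  · rw [e1, e2]
    gcongr
    linarith
  · rw [e2, ← mul_div_assoc, div_le_div_iff₀ (by positivity) (by positivity)]
    nlinarith
  · rw [e3, ← mul_div_assoc, div_le_div_iff₀ (by positivity) (by positivity)]
    have h3 : (8 * s) ^ 2 ≤ x ^ 2 := by gcongr
    nlinarith [mul_le_mul_of_nonneg_left h3 (by positivity : 0 ≤ s ^ 2 * x),
      (by positivity : 0 ≤ s ^ 2 * x * s ^ 2)]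

theorem near_gain {L : ℕ} (hL : 1 ≤ L) {v : ℤ} (hv : v < 16 * L) : ∃ u : ℝ, 1 ≤ u ∧ u ≤ 16 * L ∧
    1 ≤ u ^ 2 * dl v ∧ dl v * u / 9 ≤ fb v - fb (v + 2 * L) ∧
      1 / (144 * L) ≤ fb v - fb (v + 2 * L) := by
  have h1 : (1 : ℝ) ≤ L := by exact_mod_cast hL
  by_cases h : 1 ≤ v
  · have h2 : (1 : ℝ) ≤ v := by exact_mod_cast h
    have h3 : (v : ℝ) + 1 ≤ 16 * L := by exact_mod_cast hv
    have h4 : fb v - fb (v + 2 * L) = 2 * L / (v * (v + 2 * L)) := by
      rw [fb_hi h, fb_hi (by omega)]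
      push_cast
      field_simp
      ring
    refine ⟨v + 1, by linarith, h3, ?_, ?_, ?_⟩
    · rw [dl_hi h, mul_one_div, le_div_iff₀ (by positivity)]
      nlinarith
    · rw [h4, dl_hi h, show 1 / ((v : ℝ) * (v + 1)) * (v + 1) / 9 = 1 / (9 * v) by field_simp,
        div_le_div_iff₀ (by positivity) (by positivity)]
      nlinarith
    · rw [h4, div_le_div_iff₀ (by positivity) (by positivity)]
      have : (v : ℝ) * (v + 2 * L) ≤ 16 * L * (18 * L) := by
        gcongr <;> linarith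
      linarith
  · have h2 := one_le_dl (v := v) (by omega)
    have h3 : dl v ≤ fb v - fb (v + 2 * L) := sub_le_sub_left (fb_anti (by omega)) _
    have h4 : (1 : ℝ) / (144 * L) ≤ 1 := by
      rw [div_le_one (by positivity)]
      linarith
    exact ⟨1, le_rfl, by linarith, by linarith, by linarith, by linarith⟩

theorem row_good {L B : ℕ} (hL : 1 ≤ L) (hB : 1 ≤ B) {K r η : ℝ} (hK : 0 < K) (hr : 0 < r)
    (hr' : r ≤ 1 / 4) (hrL : r * L / B ≤ 1 / 2) (hη : 0 ≤ η) (hη' : η ≤ 2 / 5) {τ : Fin 3 → ℝ}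
    (t0 : r ≤ (1 + η) * τ 0) (t1 : r ≤ (1 + η) * τ 1) (t2 : 1 - 2 * r ≤ (1 + 6 * r * η) * τ 2)
    {v v' : ℤ} (hv : v ≤ v') (hv' : 48 * B * L ≤ v') {ω e : ℝ}
    (hω : ω = if v < 16 * B * L then dl v else 0)
    (he : e = 41 / 10 * r * K * ((2 * L) ^ 2 / (16 * B * L) ^ 3)) :
    Good τ ![K * (fb v + fb v' - fb (v + 2 * L) - fb (v' - 2 * L)),
        K * (fb v + fb v' - fb (v - 2 * L) - fb (v' + 2 * L)), 0]
      (2 / 27 * (r * L / B) * (K * ω) - e) (7196 * r * L ^ 2 * ω + 12 * r * η) (2 * e)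
      (2 * (2 + L)) (K / L) := by
  have a1 : (1 : ℝ) ≤ L := by exact_mod_cast hL
  have a2 : (1 : ℝ) ≤ B := by exact_mod_cast hB
  have a3 : (L : ℤ) ≤ B * L := le_mul_of_one_le_left (by omega) (by omega)
  have a4 : (L : ℝ) ≤ B * L := by exact_mod_cast a3
  have a5 : (48 * B * L : ℝ) ≤ v' := by exact_mod_cast hv'
  have a6 : (v : ℝ) ≤ v' := by exact_mod_cast hv
  have a7 : 0 ≤ e := by
    rw [he]
    positivity
  have a8 : (0 : ℝ) < 2 * L := by positivity
  have a9 : (0 : ℝ) < v' := by linarith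
  obtain ⟨y1, y2, y3, y4⟩ := hyp (s := 2 * L) (x := v') a8 (by linarith)
  have y0 : (0 : ℝ) ≤ 2 * L / v' ^ 2 := by positivity
  rw [fb_hi (v := v') (by linarith), fb_hi (v := v' - 2 * L) (by linarith),
    fb_hi (v := v' + 2 * L) (by linarith)]
  by_cases c1 : v < 16 * L
  · obtain ⟨u, u1, u2, u3, u4, u5⟩ := near_gain hL c1
    have b1 : (2 * L : ℝ) / v' ^ 2 ≤ 2 * L / (48 * L) ^ 2 := by
      gcongr
      linarith
    have b2 : (2 * L : ℝ) / (48 * L) ^ 2 = 1 / 8 * (1 / (144 * L)) := by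
      field_simp
      norm_num
    have b3 := dl_pos v
    have b4 : (0 : ℝ) ≤ L / (B * u) := by positivity
    have b5 : (L : ℝ) / (B * u) ≤ L / B := by
      gcongr
      exact le_mul_of_one_le_right (by positivity) u1
    have b6 : (L : ℝ) / B ≤ L := div_le_self (by positivity) a2
    have b7 : 2 / 27 * (dl v * u) ≤
        fb v + 1 / (v' : ℝ) - fb (v + 2 * L) - 1 / ((v' - 2 * L : ℤ) : ℝ) := by
      push_cast
      have : 0 ≤ dl v * u := by positivity
      linarith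
    rw [hω, if_pos (by linarith)]
    refine good_big (θ := 1 + L / (B * u)) hr hr' hη hη' t0 t1 t2 (by linarith) ?_ (by linarith)
      (by positivity) (by positivity) (mul_nonneg hK.le (le_trans (by positivity) b7)) ?_ ?_
    · rw [add_sub_cancel_left]
      refine le_trans ?_ hrL
      rw [mul_div_assoc]
      gcongr
    · have d1 : u ^ 2 * dl v ≤ (16 * L) ^ 2 * dl v := by gcongr
      have d2 : ((L : ℝ) / (B * u)) ^ 2 ≤ L ^ 2 * dl v := by
        rw [div_pow, div_le_iff₀ (by positivity)]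
        have d3 : 1 * 1 ≤ (B : ℝ) ^ 2 * (u ^ 2 * dl v) := by
          gcongr
          exact one_le_pow₀ a2
        linarith [mul_le_mul_of_nonneg_left d3 (sq_nonneg (L : ℝ))]
      have d4 : (1 + (L : ℝ) / (B * u)) ^ 2 ≤ 514 * (L ^ 2 * dl v) := by
        linarith [sq_nonneg (1 - (L : ℝ) / (B * u))]
      linarith [mul_le_mul_of_nonneg_left d4 hr.le]
    · calc _ ≤ r * (L / (B * u)) * (K * (2 / 27 * (dl v * u))) := by
            refine (sub_le_self _ a7).trans (le_of_eq ?_)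
            field_simp
        _ ≤ _ := by
            gcongr
            linarith
  have b0 : (16 * L : ℝ) ≤ v := by exact_mod_cast not_lt.1 c1
  have b1 : (0 : ℝ) < v := by linarith
  obtain ⟨x1, x2, x3, x4⟩ := hyp (s := 2 * L) (x := v) a8 (by linarith)
  have b2 : (2 * L : ℝ) ^ 2 / v' ^ 3 ≤ (2 * L) ^ 2 / v ^ 3 := by gcongr
  have b3 : (2 * L : ℝ) / v' ^ 2 ≤ 2 * L / v ^ 2 := by gcongr
  rw [fb_hi (v := v) (by omega), fb_hi (v := v - 2 * L) (by omega),
    fb_hi (v := v + 2 * L) (by omega)]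
  push_cast
  generalize 1 / ((v : ℝ) - 2 * L) = p1 at *
  generalize 1 / ((v : ℝ) + 2 * L) = p2 at *
  generalize 1 / ((v' : ℝ) - 2 * L) = q1 at *
  generalize 1 / ((v' : ℝ) + 2 * L) = q2 at *
  generalize 1 / (v : ℝ) = p0 at *
  generalize 1 / (v' : ℝ) = q0 at *
  obtain ⟨g, hg⟩ : ∃ g, g = p0 + q0 - p2 - q1 := ⟨_, rfl⟩
  obtain ⟨h, hh⟩ : ∃ h, h = -(p0 + q0 - p1 - q2) := ⟨_, rfl⟩
  rw [← hg, ← neg_neg (p0 + q0 - p1 - q2), ← hh, mul_neg]
  have b4 : 0 ≤ h - g := by linarith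
  have b5 : h - g ≤ 41 / 10 * ((2 * L) ^ 2 / v ^ 3) := by linarith
  have b6 : g ^ 2 ≤ (8 / 7 * (2 * L / v ^ 2)) ^ 2 := sq_le_sq' (by linarith) (by linarith)
  have b7 : h ^ 2 ≤ (8 / 7 * (2 * L / v ^ 2)) ^ 2 := sq_le_sq' (by linarith) (by linarith)
  have b8 : (8 / 7 * (2 * L / v ^ 2) : ℝ) ^ 2 ≤ 1 / L * ((2 * L) ^ 2 / v ^ 3) := by
    rw [show (8 / 7 * (2 * L / v ^ 2) : ℝ) ^ 2 = 64 / (49 * v) * ((2 * L) ^ 2 / v ^ 3) by
      field_simp; norm_num]
    gcongr ?_ * _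
    rw [div_le_div_iff₀ (by positivity) (by positivity)]
    linarith
  have b9 : 0 < r * K := by positivity
  have d0 : |r * (K * g - K * h)| = r * K * (h - g) := by
    rw [abs_of_nonpos (by linarith [mul_nonneg b9.le b4])]
    ring
  have d1 : r * ((K * g) ^ 2 + (K * h) ^ 2) ≤ K / L * (r * K * (2 * ((2 * L) ^ 2 / v ^ 3))) := by
    have := mul_le_mul_of_nonneg_left (add_le_add (b6.trans b8) (b7.trans b8))
      (by positivity : 0 ≤ r * K ^ 2)
    refine le_trans (le_of_eq (by ring)) (this.trans (le_of_eq (by ring)))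
  have d2 := mul_le_mul_of_nonneg_left b5 b9.le
  by_cases c2 : v < 16 * B * L
  · have d3 : (v : ℝ) ≤ 16 * B * L := by exact_mod_cast c2.le
    have d4 : (2 * L : ℝ) / v' ^ 2 ≤ 2 * L / (3 * v) ^ 2 := by
      gcongr
      linarith
    have d5 : (2 * L : ℝ) / (3 * v) ^ 2 = 1 / 9 * (2 * L / v ^ 2) := by
      field_simp
      norm_num
    have d6 : 3 / 4 * (2 * L / v ^ 2) ≤ g := by linarith
    have d7 : 16 * L / v * (2 * (3 / 4 * (2 * L / v ^ 2))) ≤ 16 * L / v * (g + h) := by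
      gcongr
      linarith
    have d8 : (16 * L / v * (2 * (3 / 4 * (2 * L / v ^ 2))) : ℝ) = 12 * ((2 * L) ^ 2 / v ^ 3) := by
      field_simp
      norm_num
    have e0 : 0 ≤ r * K * ((2 * L) ^ 2 / v ^ 3) := by positivity
    have e1 : (1 : ℝ) ≤ v := by linarith
    have e2 : L / B * dl v ≤ 7 * ((2 * L) ^ 2 / v ^ 3) := by
      calc _ ≤ (L : ℝ) / B * (1 / v ^ 2) := by
            gcongr
            exact dl_le e1 le_rfl
        _ ≤ _ := by
            rw [mul_one_div, div_div, ← mul_div_assoc,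
              div_le_div_iff₀ (by positivity) (by positivity)]
            linarith [mul_le_mul_of_nonneg_left d3 (by positivity : (0 : ℝ) ≤ L * v ^ 2),
              (by positivity : (0 : ℝ) ≤ L ^ 2 * B * v ^ 2)]
    have e3 : 0 ≤ r * K * (L / B * dl v) := mul_nonneg b9.le (mul_nonneg (by positivity)
      (dl_pos v).le)
    have e4 : (16 * L / v : ℝ) ^ 2 ≤ 514 * L ^ 2 * dl v := by
      rw [dl_hi (by omega), div_pow, mul_one_div, div_le_div_iff₀ (by positivity) (by positivity)]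
      linarith [mul_le_mul_of_nonneg_left e1 (by positivity : (0 : ℝ) ≤ L ^ 2 * v),
        (by positivity : (0 : ℝ) ≤ L ^ 2 * v * v)]
    have e5 : (0 : ℝ) ≤ 16 * L / v := by positivity
    have e6 : (16 * L / v : ℝ) ≤ 1 := (div_le_one b1).2 b0
    rw [d8] at d7
    rw [hω, if_pos c2, mul_div_assoc]
    generalize (2 * L : ℝ) ^ 2 / v ^ 3 = Q at *
    generalize (16 * L : ℝ) / v = θ at *
    generalize (L : ℝ) / B = u at *
    have d9 : r * K * (7 * Q) ≤ r * (1 + θ) * (K * g) - r * (1 - θ) * (K * h) := by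
      linarith only [mul_le_mul_of_nonneg_left d7 b9.le, e0, d2]
    refine good_small hr hr' hη hη' t0 t1 t2 e5 e6 (by positivity)
      (by linarith only [mul_le_mul_of_nonneg_left e4 hr.le])
      (by linarith only [d9, e3, a7, mul_le_mul_of_nonneg_left e2 b9.le])
      (by linarith only [d0, d2, d9, a7, e0]) (d1.trans ?_)
    gcongr
    linarith only [d9, a7, e0]
  · have d3 : (16 * B * L : ℝ) ≤ v := by exact_mod_cast not_lt.1 c2
    have d4 : (2 * L : ℝ) ^ 2 / v ^ 3 ≤ (2 * L) ^ 2 / (16 * B * L) ^ 3 := by gcongr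
    have d5 := mul_le_mul_of_nonneg_left d4 b9.le
    have e0 : 0 ≤ r * K * ((2 * L) ^ 2 / v ^ 3) := by positivity
    rw [hω, if_neg c2]
    generalize (2 * L : ℝ) ^ 2 / v ^ 3 = Q at *
    generalize (2 * L : ℝ) ^ 2 / (16 * B * L) ^ 3 = Q' at *
    refine good_small (θ := 0) hr hr' hη hη' t0 t1 t2 le_rfl zero_le_one (by positivity)
      (by linarith only) (by linarith only [he, d2, d5]) (by linarith only [he, d0, d2, d5])
      (d1.trans ?_)
    gcongr
    linarith only [he, d2, d5, e0]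

end Pool.Agent.Lib.MP_29d7aa_lc.Gd
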