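import Pool.Agent.Lib.MP_29d7aa_lc.Noise

/-!
Isolation of the colourings of discrepancy at most one, and their destruction by resampling.
-/

set_option autoImplicit false

noncomputable section

namespace Pool.Agent.Lib.MP_29d7aa_lc.Low

open Finset

variable {m n : ℕ} {p ε : ℝ}

/-- The joint weight of a row and of its resampled copy. -/
def kr (p ε : ℝ) (a b : Fin n → Bool) : ℝ := ∏ j, kap p ε (a j) (b j)

/-- The signed sum of a row. -/
def rs (a : Fin n → Bool) (x : Fin n → ℤ) : ℤ := ∑ j, (if a j then 1 else 0) * x j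

/-- The parity character. -/
def chi (T : Finset (Fin n)) (a : Fin n → Bool) : ℝ := ∏ j ∈ T, if a j then -1 else 1

theorem kr_sum (a : Fin n → Bool) : ∑ b, kr p ε a b = ∏ j, pr p (a j) := by
  simp only [kr, ← kap_sum (ε := ε), Fintype.prod_sum]

theorem pr_sum : ∑ a : Fin n → Bool, ∏ j, pr p (a j) = 1 := by
  rw [← Fintype.prod_sum fun _ b => pr p b]
  simp [pr]

theorem J_rows (φ : (Fin n → Bool) → (Fin n → Bool) → ℝ) :
    J p ε (fun A B : Mat m n => ∏ i, φ (A i) (B i)) = (∑ a, ∑ b, kr p ε a b * φ a b) ^ m := by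
  rw [← Fin.prod_const, Fintype.prod_sum]
  refine sum_congr rfl fun A _ => ?_
  rw [Fintype.prod_sum]
  simp only [kr, prod_mul_distrib]

theorem sum_chi (T : Finset (Fin n)) : ∑ a, kr p ε a a * chi T a =
    (1 - 2 * p) ^ T.card * (1 - 2 * ε * p * (1 - p)) ^ Tᶜ.card := by
  have h : ∀ a, kr p ε a a * chi T a =
      ∏ j, kap p ε (a j) (a j) * if j ∈ T then (if a j then -1 else 1) else 1 := by
    intro a
    rw [prod_mul_distrib, prod_ite_mem, univ_inter, kr, chi]
  simp only [h]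
  rw [← Fintype.prod_sum fun j b => kap p ε b b * if j ∈ T then (if b then -1 else 1) else 1,
    ← prod_mul_prod_compl T, ← prod_const, ← prod_const]
  congr 1
  · refine prod_congr rfl fun j hj => ?_
    simp [hj, kap, pr]
    ring
  · refine prod_congr rfl fun j hj => ?_
    simp [mem_compl.1 hj, kap, pr]
    ring

theorem chi_par (a : Fin n → Bool) {x : Fin n → ℤ} (hx : ∀ j, x j = 1 ∨ x j = -1)
    (T : Finset (Fin n)) :
    (chi T a = 1 ∧ (∑ j ∈ T, (if a j then 1 else 0) * x j) % 2 = 0) ∨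
      (chi T a = -1 ∧ (∑ j ∈ T, (if a j then 1 else 0) * x j) % 2 = 1) := by
  unfold chi
  induction T using Finset.induction_on with
  | empty => simp
  | insert j T hj ih =>
    rw [prod_insert hj, sum_insert hj]
    have := hx j
    cases a j
    · simpa using ih
    · rcases ih with h | h
      · exact Or.inr ⟨by simp [h.1], by simp only [if_true]; omega⟩
      · exact Or.inl ⟨by simp [h.1], by simp only [if_true]; omega⟩

/-- Indicator that a pair of rows does not obstruct two colourings differing on `T`. -/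
def G (T : Finset (Fin n)) (a b : Fin n → Bool) : ℝ :=
  1 - if a = b then (1 - chi T a) * (1 - chi Tᶜ a) / 4 else 0

theorem G_nonneg (T : Finset (Fin n)) (a b : Fin n → Bool) : 0 ≤ G T a b := by
  unfold G
  rcases chi_par a (x := fun _ => 1) (by simp) T with h | h <;>
    rcases chi_par a (x := fun _ => 1) (by simp) Tᶜ with h' | h' <;>
    rw [h.1, h'.1] <;> split_ifs <;> norm_num

theorem G_eq_one {a b : Fin n → Bool} {x y : Fin n → ℤ} (hx : ∀ j, x j = 1 ∨ x j = -1)
    (hy : ∀ j, y j = 1 ∨ y j = -1) (ha : |rs a x| ≤ 1) (hb : |rs b y| ≤ 1) :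
    G (univ.filter fun j => x j ≠ y j) a b = 1 := by
  unfold G
  split_ifs with h
  · subst h
    set T := univ.filter fun j => x j ≠ y j with hT
    have h1 : ∑ j ∈ T, (if a j then 1 else 0) * y j = -∑ j ∈ T, (if a j then 1 else 0) * x j := by
      rw [← sum_neg_distrib]
      refine sum_congr rfl fun j hj => ?_
      have := (mem_filter.1 hj).2
      have : y j = -x j := by
        have := hx j
        have := hy j
        omega
      rw [this, mul_neg]
    have h2 : ∑ j ∈ Tᶜ, (if a j then 1 else 0) * y j = ∑ j ∈ Tᶜ, (if a j then 1 else 0) * x j := by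
      refine sum_congr rfl fun j hj => ?_
      have : x j = y j := by simpa [hT] using hj
      rw [this]
    rw [rs, ← sum_add_sum_compl T, abs_le] at ha hb
    rw [h1, h2] at hb
    rcases chi_par a hx T with h | h
    · simp [h.1]
    · rcases chi_par a hx Tᶜ with h' | h'
      · simp [h'.1]
      · omega
  · simp

theorem G_sum (T : Finset (Fin n)) : ∑ a, ∑ b, kr p ε a b * G T a b =
    1 - ((1 - 2 * ε * p * (1 - p)) ^ T.card - (1 - 2 * p) ^ T.card) *
      ((1 - 2 * ε * p * (1 - p)) ^ Tᶜ.card - (1 - 2 * p) ^ Tᶜ.card) / 4 := by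
  have h1 : ∀ a, ∑ b, kr p ε a b * G T a b = ∏ j, pr p (a j) - (kr p ε a a * chi ∅ a -
      kr p ε a a * chi T a - kr p ε a a * chi Tᶜ a + kr p ε a a * chi univ a) / 4 := by
    intro a
    have : chi univ a = chi T a * chi Tᶜ a := (prod_mul_prod_compl T _).symm
    simp only [G, mul_sub, mul_one, sum_sub_distrib, kr_sum, mul_ite, mul_zero, sum_ite_eq,
      mem_univ, if_true, this, show chi ∅ a = 1 from rfl]
    ring
  have h2 : T.card + Tᶜ.card = n := by simp
  simp only [h1, sum_sub_distrib, pr_sum, ← sum_div, sum_add_distrib, sum_chi, compl_compl,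
    compl_empty, compl_univ, card_empty, card_univ, Fintype.card_fin]
  generalize T.card = k at *
  generalize Tᶜ.card = l at *
  subst h2
  ring

theorem gap (h0 : 0 ≤ p) (h1 : p ≤ 1 / 2) (h2 : 0 ≤ ε) (h3 : ε ≤ 1 / 8) {k : ℕ}
    (hk : ε * (p * k) ≤ 1 / 8) :
    p * k / (1 + 2 * (p * k)) ≤ (1 - 2 * ε * p * (1 - p)) ^ k - (1 - 2 * p) ^ k := by
  have a0 : 0 ≤ ε * p := mul_nonneg h2 h0
  have a1 := one_add_mul_le_pow (a := -(2 * ε * p * (1 - p))) (by nlinarith) k
  have a2 := one_add_mul_le_pow (a := 2 * p) (by linarith) k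
  have a3 : (1 - 2 * p) ^ k * (1 + 2 * p) ^ k ≤ 1 := by
    rw [← mul_pow]
    exact pow_le_one₀ (by nlinarith) (by nlinarith)
  have a4 : 0 ≤ (1 - 2 * p) ^ k := pow_nonneg (by linarith) _
  have a5 : 0 ≤ p * k := by positivity
  have a6 : (1 - 2 * p) ^ k * (1 + 2 * (p * k)) ≤ 1 := by nlinarith
  have a7 : 1 - 2 * ε * (p * k) ≤ (1 - 2 * ε * p * (1 - p)) ^ k := by
    rw [← sub_eq_add_neg] at a1
    nlinarith [mul_nonneg (mul_nonneg h2 a5) h0]
  rw [div_le_iff₀ (by positivity), sub_mul]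
  generalize p * k = y at *
  nlinarith [mul_le_mul_of_nonneg_right a7 (show 0 ≤ 1 + 2 * y by positivity),
    mul_le_mul_of_nonneg_right hk a5, mul_le_mul_of_nonneg_right h3 a5]

theorem iso_bound (h0 : 0 ≤ p) (h1 : p ≤ 1 / 2) (h2 : 0 ≤ ε) (h3 : ε ≤ 1 / 8)
    (h4 : ε * (p * n) ≤ 1 / 8) (hn : 2 ≤ n) (hm : m ≤ n) (ht : 72 * Real.log n ≤ p * m)
    (T : Finset (Fin n)) (hT : T.card * (72 * Real.log n) ≤ m) :
    J p ε (fun A B : Mat m n => ∏ i, G T (A i) (B i)) ≤ (1 / (n : ℝ) ^ 2) ^ T.card := by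
  have e : T.card + Tᶜ.card = n := by simp
  have hk : ∀ k : ℕ, k ≤ n → ε * (p * k) ≤ 1 / 8 := fun k hk =>
    le_trans (by gcongr) h4
  have a1 := gap h0 h1 h2 h3 (hk T.card (by omega))
  have a2 := gap h0 h1 h2 h3 (hk Tᶜ.card (by omega))
  have hn' : (2 : ℝ) ≤ n := by exact_mod_cast hn
  have hm' : (m : ℝ) ≤ n := by exact_mod_cast hm
  have hl : 1 / 2 ≤ Real.log n := by
    have := Real.log_two_gt_d9
    have := Real.log_le_log (by norm_num) hn'
    linarith
  have a0 : 0 ≤ ∑ a, ∑ b, kr p ε a b * G T a b := sum_nonneg fun a _ => sum_nonneg fun b _ =>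
    mul_nonneg (prod_nonneg fun _ _ => kap_nonneg h0 (by linarith) h2 (by linarith) _ _)
      (G_nonneg _ _ _)
  rw [J_rows]
  rw [G_sum] at a0 ⊢
  have e' : (T.card : ℝ) + Tᶜ.card = n := by exact_mod_cast e
  have b0 : (0 : ℝ) ≤ T.card := Nat.cast_nonneg _
  have a3 : 1 ≤ p * Tᶜ.card := by
    have c1 : (n : ℝ) / 2 ≤ Tᶜ.card := by nlinarith
    nlinarith [mul_le_mul_of_nonneg_left c1 h0, mul_le_mul_of_nonneg_left hm' h0]
  have a4 : 1 / 3 ≤ (1 - 2 * ε * p * (1 - p)) ^ Tᶜ.card - (1 - 2 * p) ^ Tᶜ.card := by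
    refine le_trans ?_ a2
    rw [le_div_iff₀ (by positivity)]
    linarith
  have a5 : 2 * T.card * Real.log n ≤ m * (p * T.card / (1 + 2 * (p * T.card)) * (1 / 3) / 4) := by
    have c0 : 0 ≤ p * T.card := by positivity
    have c2 : (0 : ℝ) ≤ m := Nat.cast_nonneg _
    by_cases c1 : p * T.card ≤ 1
    · have : p * T.card / 3 ≤ p * T.card / (1 + 2 * (p * T.card)) := by gcongr; linarith
      nlinarith [mul_le_mul_of_nonneg_left this c2, mul_le_mul_of_nonneg_right ht b0]
    · have : 1 / 3 ≤ p * T.card / (1 + 2 * (p * T.card)) := by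
        rw [le_div_iff₀ (by positivity)]
        linarith
      nlinarith [mul_le_mul_of_nonneg_left this c2]
  have a6 : p * T.card / (1 + 2 * (p * T.card)) * (1 / 3) / 4 ≤
      ((1 - 2 * ε * p * (1 - p)) ^ T.card - (1 - 2 * p) ^ T.card) *
      ((1 - 2 * ε * p * (1 - p)) ^ Tᶜ.card - (1 - 2 * p) ^ Tᶜ.card) / 4 := by
    gcongr
    exact le_trans (by positivity) a1
  generalize ((1 - 2 * ε * p * (1 - p)) ^ T.card - (1 - 2 * p) ^ T.card) *
      ((1 - 2 * ε * p * (1 - p)) ^ Tᶜ.card - (1 - 2 * p) ^ Tᶜ.card) / 4 = β at *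
  calc (1 - β) ^ m ≤ Real.exp (-β) ^ m := pow_le_pow_left₀ a0 (Real.one_sub_le_exp_neg β) _
    _ = Real.exp (-(m * β)) := by rw [← Real.exp_nat_mul, mul_neg]
    _ ≤ Real.exp (T.card * -(2 * Real.log n)) := Real.exp_le_exp.2 (by
        nlinarith [mul_le_mul_of_nonneg_left a6 (Nat.cast_nonneg (α := ℝ) m)])
    _ = _ := by
      rw [Real.exp_nat_mul, Real.exp_neg, show (2 : ℝ) = (2 : ℕ) by norm_num, Real.exp_nat_mul,
        Real.exp_log (by linarith), one_div]

theorem del (h0 : 0 ≤ p) (h1 : p ≤ 1 / 2) (h2 : 0 ≤ ε) (h3 : ε ≤ 1) (a : Fin n → Bool)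
    (U : Finset (Fin n)) (hU : ∀ j ∈ U, a j = true) (ψ : (Fin n → Bool) → ℝ) (hψ : ∀ b, ψ b ≤ 1)
    (hψ' : ∀ j ∈ U, ψ (Function.update a j false) = 0) :
    ∑ b, kr p ε a b * ψ b ≤ ∏ j, pr p (a j) - U.card * (ε / 2 * kr p ε a a) := by
  have hk := kap_nonneg h0 (by linarith) h2 h3
  have a1 : ∀ j ∈ U, ε / 2 * kr p ε a a ≤ kr p ε a (Function.update a j false) := by
    intro j hj
    have c0 : ∏ l ∈ univ.erase j, kap p ε (a l) (Function.update a j false l) =
        ∏ l ∈ univ.erase j, kap p ε (a l) (a l) :=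
      prod_congr rfl fun l hl => by rw [Function.update_of_ne (ne_of_mem_erase hl)]
    rw [kr, kr, ← mul_prod_erase _ _ (mem_univ j), ← mul_prod_erase _ _ (mem_univ j), c0,
      ← mul_assoc]
    refine mul_le_mul_of_nonneg_right ?_ (prod_nonneg fun _ _ => hk _ _)
    simp only [hU j hj, Function.update_self, kap, pr]
    have : 0 ≤ ε * p := mul_nonneg h2 h0
    simp
    nlinarith [mul_nonneg this (show 0 ≤ 1 - 2 * p by linarith),
      mul_nonneg this (mul_nonneg h2 (show 0 ≤ 1 - p by linarith))]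
  have a2 : ∑ b ∈ U.image fun j => Function.update a j false, kr p ε a b * (1 - ψ b) ≤
      ∑ b, kr p ε a b * (1 - ψ b) := sum_le_sum_of_subset_of_nonneg (subset_univ _)
    fun b _ _ => mul_nonneg (prod_nonneg fun _ _ => hk _ _) (by linarith [hψ b])
  rw [sum_image fun j hj l hl h => by
    by_contra hc
    have := congrFun h j
    rw [Function.update_self, Function.update_of_ne hc, hU j hj] at this
    exact absurd this (by simp)] at a2
  have a3 : ∑ j ∈ U, ε / 2 * kr p ε a a ≤ ∑ j ∈ U, kr p ε a (Function.update a j false) *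
      (1 - ψ (Function.update a j false)) :=
    sum_le_sum fun j hj => by rw [hψ' j hj, sub_zero, mul_one]; exact a1 j hj
  simp only [mul_sub, mul_one, sum_sub_distrib, kr_sum] at a2 a3
  rw [sum_const, nsmul_eq_mul] at a3
  linarith

/-- The weight of the destroying deletions. -/
def H (p ε : ℝ) (a : Fin n → Bool) : ℝ :=
  ε / 8 * kr p ε a a * (1 - chi univ a) * ((∑ j, if a j then 1 else 0) - 1)

theorem H_le (h0 : 0 ≤ p) (h1 : p ≤ 1 / 2) (h2 : 0 ≤ ε) (h3 : ε ≤ 1) (a : Fin n → Bool) :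
    0 ≤ ∏ j, pr p (a j) - H p ε a := by
  have a1 := del h0 h1 h2 h3 a (univ.filter fun j => a j) (by simp) (fun _ => 0) (by simp) (by simp)
  have a2 : 0 ≤ ε / 2 * kr p ε a a := mul_nonneg (by linarith)
    (prod_nonneg fun _ _ => kap_nonneg h0 (by linarith) h2 h3 _ _)
  have a3 : (0 : ℝ) ≤ (univ.filter fun j => a j).card := Nat.cast_nonneg _
  rw [H, sum_boole]
  simp only [mul_zero, sum_const_zero] at a1
  rcases chi_par a (x := fun _ => 1) (by simp) univ with h | h <;> rw [h.1] <;> nlinarith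

theorem row_survive (h0 : 0 ≤ p) (h1 : p ≤ 1 / 2) (h2 : 0 ≤ ε) (h3 : ε ≤ 1) {a : Fin n → Bool}
    {x : Fin n → ℤ} (hx : ∀ j, x j = 1 ∨ x j = -1) (ha : |rs a x| ≤ 1) :
    ∑ b, kr p ε a b * (if |rs b x| ≤ 1 then 1 else 0) ≤ ∏ j, pr p (a j) - H p ε a := by
  rcases chi_par a hx univ with h | h
  · have := del h0 h1 h2 h3 a ∅ (by simp) (fun b => if |rs b x| ≤ 1 then 1 else 0)
      (fun b => by split_ifs <;> norm_num) (by simp)
    simpa [H, h.1] using this
  · have hs : rs a x = 1 ∨ rs a x = -1 := by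
      have := h.2
      rw [abs_le] at ha
      unfold rs at *
      omega
    have a1 := del h0 h1 h2 h3 a (univ.filter fun j => a j ∧ x j = -rs a x) (by simp +contextual)
      (fun b => if |rs b x| ≤ 1 then 1 else 0) (fun b => by split_ifs <;> norm_num) (fun j hj => by
        obtain ⟨c1, c2⟩ := (mem_filter.1 hj).2
        have : rs (Function.update a j false) x = rs a x - x j := by
          rw [rs, rs, ← add_sum_erase _ _ (mem_univ j), ← add_sum_erase _ _ (mem_univ j),
            sum_congr rfl fun l hl => by rw [Function.update_of_ne (ne_of_mem_erase hl)]]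
          simp [c1]
        rw [if_neg]
        rw [this, abs_le]
        omega)
    have a2 : 2 * ((univ.filter fun j => a j ∧ x j = -rs a x).card : ℤ) =
        (∑ j, if a j then 1 else 0) - 1 := by
      have c1 : ∑ j, (if a j then 1 else 0) * x j * rs a x = 1 := by
        rw [← sum_mul, ← rs]
        rcases hs with h | h <;> simp [h]
      rw [← sum_boole, mul_sum]
      refine Eq.trans ?_ (congrArg _ c1)
      rw [← sum_sub_distrib]
      refine sum_congr rfl fun j _ => ?_
      generalize rs a x = s at *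
      rcases hs with rfl | rfl <;> rcases hx j with h | h <;> cases a j <;> simp [h]
    have a3 : 2 * ((univ.filter fun j => a j ∧ x j = -rs a x).card : ℝ) =
        (∑ j, if a j then 1 else 0) - 1 := by exact_mod_cast a2
    rw [H, ← a3, h.1]
    linarith

theorem sum_ind (σ : ℝ) (j : Fin n) :
    ∑ a : Fin n → Bool, (∏ l, kap p ε (a l) (a l) * if a l then σ else 1) * (if a j then 1 else 0) =
      σ * kap p ε true true * (kap p ε false false + σ * kap p ε true true) ^ (n - 1) := by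
  have h : ∀ a : Fin n → Bool, (∏ l, kap p ε (a l) (a l) * if a l then σ else 1) *
      (if a j then 1 else 0) = ∏ l, (kap p ε (a l) (a l) * if a l then σ else 1) *
        if l = j then (if a l then 1 else 0) else 1 := by
    intro a
    rw [prod_mul_distrib (g := fun l => if l = j then (if a l then (1 : ℝ) else 0) else 1),
      prod_ite_eq']
    simp
  simp only [h]
  rw [← Fintype.prod_sum fun l b => (kap p ε b b * if b then σ else 1) *
    if l = j then (if b then 1 else 0) else 1, ← mul_prod_erase _ _ (mem_univ j),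
    prod_congr rfl (g := fun _ => kap p ε false false + σ * kap p ε true true) fun l hl => by
      simp [ne_of_mem_erase hl]; ring]
  simp [mul_comm]

theorem H_sum (h0 : 0 ≤ p) (h1 : p ≤ 1 / 2) (h2 : 0 ≤ ε) (h3 : ε ≤ 1 / 8)
    (h4 : ε * (p * n) ≤ 1 / 8) (h5 : 7 ≤ p * n) :
    ε * (p * n) / 16 ≤ ∑ a : Fin n → Bool, H p ε a := by
  have e1 : ∀ a : Fin n → Bool, H p ε a = ε / 8 * (∑ j, ((∏ l, kap p ε (a l) (a l) *
      if a l then 1 else 1) * (if a j then 1 else 0) - (∏ l, kap p ε (a l) (a l) *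
      if a l then -1 else 1) * (if a j then 1 else 0)) -
      kr p ε a a * chi ∅ a + kr p ε a a * chi univ a) := by
    intro a
    simp only [sum_sub_distrib, ← mul_sum, prod_mul_distrib, ite_self, prod_const_one, H, kr, chi,
      prod_empty]
    ring
  have e2 : kap p ε false false + 1 * kap p ε true true = 1 - 2 * ε * p * (1 - p) := by
    simp [kap, pr]
    ring
  have e3 : kap p ε false false + -1 * kap p ε true true = 1 - 2 * p := by
    simp [kap, pr]
    ring
  simp only [e1]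
  rw [← mul_sum, sum_add_distrib, sum_sub_distrib, sum_chi, sum_chi, sum_comm]
  simp only [sum_sub_distrib]
  simp only [sum_ind, e2, e3, sum_const, card_univ, Fintype.card_fin, nsmul_eq_mul, compl_empty,
    compl_univ, card_empty, pow_zero]
  have a0 : 0 ≤ ε * p := mul_nonneg h2 h0
  have a1 : 7 / 8 * p ≤ kap p ε true true := by
    simp [kap, pr]
    nlinarith
  have a2 : 3 / 4 ≤ (1 - 2 * ε * p * (1 - p)) ^ (n - 1) := by
    have c1 := one_add_mul_le_pow (a := -(2 * ε * p * (1 - p))) (by nlinarith) (n - 1)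
    have c2 : ((n - 1 : ℕ) : ℝ) ≤ n := by exact_mod_cast Nat.sub_le n 1
    have c3 : (0 : ℝ) ≤ (n - 1 : ℕ) := Nat.cast_nonneg _
    rw [← sub_eq_add_neg] at c1
    nlinarith [mul_le_mul_of_nonneg_left c2 a0, mul_nonneg (mul_nonneg a0 h0) c3]
  have a3 : (1 - 2 * ε * p * (1 - p)) ^ n ≤ 1 := pow_le_one₀ (by nlinarith) (by nlinarith)
  have a4 : 0 ≤ (1 - 2 * p) ^ n := pow_nonneg (by linarith) _
  have a5 : 0 ≤ (1 - 2 * p) ^ (n - 1) := pow_nonneg (by linarith) _
  have a6 : (0 : ℝ) ≤ n := Nat.cast_nonneg _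
  have a7 : n * (7 / 8 * p * (3 / 4)) ≤
      n * (kap p ε true true * (1 - 2 * ε * p * (1 - p)) ^ (n - 1)) := by
    gcongr
    linarith
  have a8 : 0 ≤ n * (kap p ε true true * (1 - 2 * p) ^ (n - 1)) :=
    mul_nonneg a6 (mul_nonneg (by linarith) a5)
  have a9 : p * n / 2 ≤ n * (1 * kap p ε true true * (1 - 2 * ε * p * (1 - p)) ^ (n - 1)) -
      n * (-1 * kap p ε true true * (1 - 2 * p) ^ (n - 1)) - 1 * (1 - 2 * ε * p * (1 - p)) ^ n +
      (1 - 2 * p) ^ n * 1 := by linarith
  nlinarith [mul_le_mul_of_nonneg_left a9 h2]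

open Classical in
theorem survive (h0 : 0 ≤ p) (h1 : p ≤ 1 / 2) (h2 : 0 ≤ ε) (h3 : ε ≤ 1 / 8)
    (h4 : ε * (p * n) ≤ 1 / 8) (h5 : 7 ≤ p * n) (x : Mat m n → Fin n → ℤ) :
    J p ε (fun A B => if (∀ j, x A j = 1 ∨ x A j = -1) ∧ (∀ i, |rs (A i) (x A)| ≤ 1) ∧
      ∀ i, |rs (B i) (x A)| ≤ 1 then 1 else 0) ≤ Real.exp (-(m * (ε * (p * n)) / 16)) := by
  have a1 := H_sum h0 h1 h2 h3 h4 h5
  have a2 : 0 ≤ ∑ a : Fin n → Bool, (∏ j, pr p (a j) - H p ε a) :=
    sum_nonneg fun a _ => H_le h0 h1 h2 (by linarith) a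
  calc _ ≤ ∑ A : Mat m n, ∏ i, (∏ j, pr p (A i j) - H p ε (A i)) := by
        refine sum_le_sum fun A _ => ?_
        by_cases c : (∀ j, x A j = 1 ∨ x A j = -1) ∧ ∀ i, |rs (A i) (x A)| ≤ 1
        · refine le_trans (le_of_eq ?_) (prod_le_prod (fun i _ => sum_nonneg fun b _ => mul_nonneg
            (prod_nonneg fun _ _ => kap_nonneg h0 (by linarith) h2 (by linarith) _ _)
            (by split_ifs <;> norm_num))
            fun i _ => row_survive h0 h1 h2 (by linarith) c.1 (c.2 i))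
          rw [Fintype.prod_sum]
          refine sum_congr rfl fun B _ => ?_
          rw [prod_mul_distrib, prod_boole]
          simp [c.1, c.2]
        · rw [sum_eq_zero fun B _ => mul_eq_zero_of_right _ (if_neg fun h => c ⟨h.1, h.2.1⟩)]
          exact prod_nonneg fun i _ => H_le h0 h1 h2 (by linarith) _
    _ = (∑ a : Fin n → Bool, (∏ j, pr p (a j) - H p ε a)) ^ m := by
        rw [← Fin.prod_const, Fintype.prod_sum]
    _ ≤ Real.exp (-(ε * (p * n) / 16)) ^ m := by
        refine pow_le_pow_left₀ a2 (le_trans ?_ (Real.one_sub_le_exp_neg _)) _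
        rw [sum_sub_distrib, pr_sum]
        linarith
    _ = _ := by
        rw [← Real.exp_nat_mul]
        congr 1
        ring

end Pool.Agent.Lib.MP_29d7aa_lc.Low
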