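import Pool.Agent.Lib.MP_29d7aa_lc.LowMain

set_option autoImplicit false

namespace Pool.Agent.Lib.MP_29d7aa_lc.LowDegreeOld

open Finset Classical Pool.Agent.Lib.MP_29d7aa_lc.Low

/-- Randomized algorithms given by polynomials of degree at most `D` in the entries of a random
Bernoulli matrix do not find (even up to `m / (288 log n)` undecided or wrong coordinates) a
colouring of discrepancy at most one, unless `D` times the mean energy is of order `t m / log n`. -/
theorem result (m n D : ℕ) (p K : ℝ) (Ω : Type) [Fintype Ω] (w : Ω → ℝ)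
    (f : Ω → Fin n → MvPolynomial (Fin m × Fin n) ℝ)
    (hn : 2 ≤ n) (hm : m ≤ n) (ht : 72 * Real.log n ≤ p * m) (hp : p ≤ 1 / 2)
    (hK : 0 < K) (hK' : K ≤ m / 8) (hw : ∀ ω, 0 ≤ w ω) (hw1 : ∑ ω, w ω = 1)
    (hD : ∀ ω j, (f ω j).totalDegree ≤ D) :
    (∑ ω, w ω * ∑ A : Fin m → Fin n → Bool, (∏ i, ∏ j, if A i j then p else 1 - p) *
      if ∃ x : Fin n → ℤ, (∀ j, x j = 1 ∨ x j = -1) ∧
        (∀ i, |∑ j, (if A i j then 1 else 0) * x j| ≤ 1) ∧
        ((univ.filter fun j => (x j : ℝ) *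
          MvPolynomial.eval (fun e => if A e.1 e.2 then (1 : ℝ) else 0) (f ω j) < 1).card : ℝ) ≤
          m / (288 * Real.log n)
      then 1 else 0) ^ 2 ≤
    72 * K * D * Real.log n / (p * m * m) *
      ((∑ ω, w ω * ∑ A : Fin m → Fin n → Bool, (∏ i, ∏ j, if A i j then p else 1 - p) *
        ∑ j, MvPolynomial.eval (fun e => if A e.1 e.2 then (1 : ℝ) else 0) (f ω j) ^ 2) / n) +
      Real.exp (-(K / 16)) + 2 / n := by
  have h1 := fun ω j => poly_mem (p := p) (f ω j) (hD ω j)
  have h0 := fun ω => low_det (D := D) (fun j (A : Mat m n) => MvPolynomial.eval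
    (fun e : Fin m × Fin n => if A e.1 e.2 then (1 : ℝ) else 0) (f ω j)) hn hm ht hp hK hK' (h1 ω)
  have h := jensen hw hw1 h0
  have e : ∀ a b c d : ℝ, a / (b * n) * c + d = a / b * (c / n) + d := fun a b c d => by
    rw [← div_div, div_mul_eq_mul_div, mul_div_assoc]
  rw [e, ← add_assoc] at h
  exact h

end Pool.Agent.Lib.MP_29d7aa_lc.LowDegreeOld
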