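import Pool.Agent.Lib.MP_29d7aa_lc.Iso

/-!
Failure of low degree polynomial algorithms.
-/

set_option autoImplicit false

noncomputable section

namespace Pool.Agent.Lib.MP_29d7aa_lc.Low

open Finset Classical

variable {m n : ℕ} {p : ℝ}

theorem sum_sets (hn : 2 ≤ n) :
    ∑ T ∈ (univ : Finset (Finset (Fin n))).erase ∅, (1 / (n : ℝ) ^ 2 : ℝ) ^ T.card ≤ 2 / n := by
  have hn' : (2 : ℝ) ≤ n := by exact_mod_cast hn
  have h1 := prod_one_add (f := fun _ : Fin n => 1 / (n : ℝ) ^ 2) univ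
  have h2 := Real.prod_one_add_le_exp_sum (univ : Finset (Fin n))
    (f := fun _ => 1 / (n : ℝ) ^ 2) fun _ => by positivity
  have h3 := Real.abs_exp_sub_one_le (x := 1 / n) (by
    rw [abs_of_nonneg (by positivity), div_le_one (by linarith)]
    linarith)
  have h4 : ∑ _i : Fin n, (1 / (n : ℝ) ^ 2 : ℝ) = 1 / n := by
    rw [sum_const, card_univ, Fintype.card_fin, nsmul_eq_mul]
    field_simp
  rw [powerset_univ, ← add_sum_erase _ _ (mem_univ ∅)] at h1
  simp only [prod_const, card_empty, pow_zero] at h1 h2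
  rw [abs_of_nonneg (a := 1 / (n : ℝ)) (by positivity), mul_one_div] at h3
  rw [h1, h4] at h2
  linarith [le_abs_self (Real.exp (1 / n) - 1)]

theorem low_det {D : ℕ} {K : ℝ} (F : Fin n → Mat m n → ℝ) (hn : 2 ≤ n) (hm : m ≤ n)
    (ht : 72 * Real.log n ≤ p * m) (hp : p ≤ 1 / 2) (hK : 0 < K) (hK' : K ≤ m / 8)
    (hF : ∀ j, F j ∈ V p m n D) :
    Ex p (fun A : Mat m n => if ∃ x : Fin n → ℤ, (∀ j, x j = 1 ∨ x j = -1) ∧
      (∀ i, |rs (A i) x| ≤ 1) ∧ ((univ.filter fun j => (x j : ℝ) * F j A < 1).card : ℝ) ≤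
        m / (288 * Real.log n) then 1 else 0) ^ 2 ≤
      72 * K * D * Real.log n / (p * m * m * n) * Ex p (fun A => ∑ j, F j A ^ 2) +
        (Real.exp (-(K / 16)) + 2 / n) := by
  have hn' : (2 : ℝ) ≤ n := by exact_mod_cast hn
  have hm' : (m : ℝ) ≤ n := by exact_mod_cast hm
  have hl : 1 / 2 ≤ Real.log n := by
    have := Real.log_two_gt_d9
    have := Real.log_le_log (by norm_num) hn'
    linarith
  have hm0 : (0 : ℝ) < m := by linarith
  have h0 : 0 < p := by
    by_contra hc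
    nlinarith
  have h5 : 36 ≤ p * n := by nlinarith
  obtain ⟨ε, hε⟩ : ∃ ε : ℝ, ε = K / (m * (p * n)) := ⟨_, rfl⟩
  have h6 : m * (ε * (p * n)) = K := by
    rw [hε]
    field_simp
  have h2 : 0 ≤ ε := by
    rw [hε]
    positivity
  have h4 : ε * (p * n) ≤ 1 / 8 := by
    by_contra hc
    nlinarith
  have h3 : ε ≤ 1 / 8 := by nlinarith
  have h1 : p ≤ 1 := by linarith
  have h7 : ε ≤ 1 := by linarith
  let S : Mat m n → (Fin n → ℤ) → Prop := fun A x => (∀ j, x j = 1 ∨ x j = -1) ∧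
    (∀ i, |rs (A i) x| ≤ 1) ∧ ((univ.filter fun j => (x j : ℝ) * F j A < 1).card : ℝ) ≤
      m / (288 * Real.log n)
  have hx : ∀ A, ∃ x, (∃ y, S A y) → S A x := fun A => by
    by_cases h : ∃ y, S A y
    · exact ⟨h.choose, fun _ => h.choose_spec⟩
    · exact ⟨0, fun h' => absurd h' h⟩
  choose x hx using hx
  let 𝒯 := univ.filter fun T : Finset (Fin n) => T ≠ ∅ ∧ T.card * (72 * Real.log n) ≤ m
  refine (psd h0.le h1 h7 _).trans ((J_mono h0.le h1 h2 h7 (G := fun A B =>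
    36 * Real.log n / m * ∑ j, (F j A - F j B) ^ 2 + ((if (∀ j, x A j = 1 ∨ x A j = -1) ∧
      (∀ i, |rs (A i) (x A)| ≤ 1) ∧ ∀ i, |rs (B i) (x A)| ≤ 1 then 1 else 0) +
      ∑ T ∈ 𝒯, ∏ i, G T (A i) (B i))) fun A B => ?_).trans ?_)
  · have b1 : 0 ≤ 36 * Real.log n / m * ∑ j, (F j A - F j B) ^ 2 := by positivity
    have b2 : (0 : ℝ) ≤ if (∀ j, x A j = 1 ∨ x A j = -1) ∧
      (∀ i, |rs (A i) (x A)| ≤ 1) ∧ ∀ i, |rs (B i) (x A)| ≤ 1 then 1 else 0 := by
      split_ifs <;> norm_num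
    have b3 : ∀ T ∈ 𝒯, 0 ≤ ∏ i, G T (A i) (B i) := fun T _ => prod_nonneg fun _ _ => G_nonneg _ _ _
    have b4 := sum_nonneg b3
    by_cases cA : ∃ y, S A y
    swap
    · rw [if_neg cA]
      linarith
    by_cases cB : ∃ y, S B y
    swap
    · rw [if_neg cB]
      linarith
    rw [if_pos cA, if_pos cB, mul_one]
    obtain ⟨x1, x2, x3⟩ := hx A cA
    obtain ⟨y1, y2, y3⟩ := hx B cB
    set T := univ.filter fun j => x A j ≠ x B j with hT
    by_cases c1 : T = ∅
    · have : x A = x B := funext fun j => by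
        by_contra hc
        have : j ∈ T := mem_filter.2 ⟨mem_univ _, hc⟩
        simp [c1] at this
      rw [if_pos ⟨x1, x2, this ▸ y2⟩]
      linarith
    by_cases c2 : T.card * (72 * Real.log n) ≤ m
    · have := single_le_sum b3 (mem_filter.2 ⟨mem_univ T, c1, c2⟩)
      rw [prod_eq_one fun i _ => G_eq_one x1 y1 (x2 i) (y2 i)] at this
      linarith
    · set E := univ.filter (fun j => (x A j : ℝ) * F j A < 1) ∪
        univ.filter (fun j => (x B j : ℝ) * F j B < 1) with hE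
      have d1 : (T \ E).card • (4 : ℝ) ≤ ∑ j ∈ T \ E, (F j A - F j B) ^ 2 :=
        card_nsmul_le_sum _ _ _ fun j hj => by
          simp only [hT, hE, mem_sdiff, mem_filter, mem_univ, true_and, mem_union, not_or,
            not_lt] at hj
          rcases x1 j with h | h <;> rcases y1 j with h' | h' <;> simp [h, h'] at hj <;> nlinarith
      have d2 : ∑ j ∈ T \ E, (F j A - F j B) ^ 2 ≤ ∑ j, (F j A - F j B) ^ 2 :=
        sum_le_sum_of_subset_of_nonneg (subset_univ _) fun _ _ _ => sq_nonneg _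
      have d3 : (T.card : ℝ) ≤ (T \ E).card + ((univ.filter fun j =>
          (x A j : ℝ) * F j A < 1).card + (univ.filter fun j => (x B j : ℝ) * F j B < 1).card) := by
        exact_mod_cast (card_le_card_sdiff_add_card (s := T) (t := E)).trans
          (Nat.add_le_add_left (card_union_le _ _) _)
      rw [le_div_iff₀ (by positivity)] at x3 y3
      rw [nsmul_eq_mul] at d1
      have d4 : 1 ≤ 36 * Real.log n / m * ∑ j, (F j A - F j B) ^ 2 := by
        rw [div_mul_eq_mul_div, le_div_iff₀ hm0]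
        nlinarith [mul_le_mul_of_nonneg_left d3 (show 0 ≤ Real.log n by linarith),
          mul_le_mul_of_nonneg_left (d1.trans d2) (show 0 ≤ Real.log n by linarith)]
      linarith
  · rw [J_add, J_add, J_mul, J_sum, J_sum]
    refine add_le_add ?_ (add_le_add ((survive h0.le hp h2 h3 h4 (by linarith) x).trans_eq
      (by rw [h6])) (le_trans ?_ (sum_sets hn)))
    · have b1 := sum_le_sum fun j (_ : j ∈ univ) => stable h0.le h1 h2 h7 (hF j)
      have b2 : Ex p (fun A => ∑ j, F j A ^ 2) = ∑ j, Ex p fun A => F j A ^ 2 := by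
        simp only [← J_left (ε := 0), J_sum]
      rw [← mul_sum] at b1
      refine (mul_le_mul_of_nonneg_left b1 (by positivity)).trans_eq ?_
      rw [b2, hε]
      field_simp
      ring
    · exact (sum_le_sum fun T hT => iso_bound h0.le hp h2 h3 h4 hn hm ht T
        (mem_filter.1 hT).2.2).trans (sum_le_sum_of_subset_of_nonneg
        (fun T hT => mem_erase.2 ⟨(mem_filter.1 hT).2.1, mem_univ _⟩) fun _ _ _ => by positivity)

theorem jensen {Ω : Type} [Fintype Ω] {w : Ω → ℝ} (hw : ∀ ω, 0 ≤ w ω) (hw1 : ∑ ω, w ω = 1)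
    {P E : Ω → ℝ} {a b : ℝ} (h : ∀ ω, P ω ^ 2 ≤ a * E ω + b) :
    (∑ ω, w ω * P ω) ^ 2 ≤ a * ∑ ω, w ω * E ω + b := by
  have h1 : ∀ c : ℝ, ∑ ω, w ω * (2 * c * P ω + -c ^ 2) ≤ ∑ ω, w ω * (a * E ω + b) := fun c =>
    sum_le_sum fun ω _ => mul_le_mul_of_nonneg_left (by nlinarith [h ω, sq_nonneg (P ω - c)]) (hw ω)
  have h2 := h1 (∑ ω, w ω * P ω)
  simp only [mul_add, sum_add_distrib, ← sum_mul, hw1, mul_left_comm (w _), ← mul_sum] at h2
  linarith

end Pool.Agent.Lib.MP_29d7aa_lc.Low
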