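import Pool.Agent.Lib.MP_29d7aa_lc.Prob

/-!
The failure probability of the block cancellation algorithm.
-/

set_option autoImplicit false

noncomputable section

namespace Pool.Agent.Lib.MP_29d7aa_lc

open Finset Classical

variable {p : ℝ} {n : ℕ}

/-- Rows as lists. -/
def rows (l : List (Fin n → Bool)) : List (List Bool) := l.map List.ofFn

/-- Standard basis vectors. -/
def tgt (i j : ℕ) : List ℤ := List.replicate i 0 ++ 1 :: List.replicate j 0

theorem tgt_spec {R₁ R₂ : List (List Bool)} {r : List Bool} {g : Grp} {j : ℕ}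
    (h : pat (R₁ ++ r :: R₂) g = tgt R₁.length j) :
    (isU (R₁ ++ r :: R₂) g && decide (val r g = 1)) = true := by
  have h1 : ((R₁ ++ r :: R₂).map fun r => val r g * val r g) =
      (pat (R₁ ++ r :: R₂) g).map fun z => z * z := by
    rw [pat, List.map_map]
    rfl
  have h2 : ((R₁ ++ r :: R₂).map fun r => val r g) = pat (R₁ ++ r :: R₂) g := rfl
  have h3 : val r g = 1 := by
    rw [pat, tgt, List.map_append, List.map_cons] at h
    exact (List.cons.inj (List.append_inj h (by simp)).2).1
  rw [isU, h1, h2, h, h3]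
  simp [tgt]

theorem prob_one {g : Grp} (hn : (g.map Prod.fst).Nodup) (hlt : ∀ i ∈ g.map Prod.fst, i < n)
    (z : ℤ) : E1 p (fun a : Fin n → Bool => if val (List.ofFn a) g = z then 1 else 0) =
      T p (g.map Prod.snd) fun y => if y = z then 1 else 0 := by
  have := E1_val (p := p) g hn hlt (fun y => if y = z then 1 else 0) (fun _ => 1)
    (fun _ _ _ _ => rfl)
  simpa [E1_const] using this

theorem prob_pat {g : Grp} (hn : (g.map Prod.fst).Nodup) (hlt : ∀ i ∈ g.map Prod.fst, i < n)
    (e : List ℤ) : ExL p e.length (fun l : List (Fin n → Bool) =>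
      if pat (rows l) g = e then 1 else 0) =
      (e.map fun z => T p (g.map Prod.snd) fun y => if y = z then 1 else 0).prod := by
  have := ExL_map (p := p) (fun a : Fin n → Bool => val (List.ofFn a) g) e
  simp only [prob_one hn hlt] at this
  rw [← this]
  simp only [pat, rows, List.map_map, Function.comp_def]

theorem prob_pat2 {g g' : Grp} (hn : (g.map Prod.fst).Nodup) (hlt : ∀ i ∈ g.map Prod.fst, i < n)
    (hn' : (g'.map Prod.fst).Nodup) (hlt' : ∀ i ∈ g'.map Prod.fst, i < n)
    (hd : List.Disjoint (g.map Prod.fst) (g'.map Prod.fst)) (hs : g'.map Prod.snd = g.map Prod.snd)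
    (e : List ℤ) : ExL p e.length (fun l : List (Fin n → Bool) =>
      if pat (rows l) g = e ∧ pat (rows l) g' = e then 1 else 0) =
      (e.map fun z => T p (g.map Prod.snd) fun y => if y = z then 1 else 0).prod ^ 2 := by
  have h1 := ExL_map (p := p)
    (fun a : Fin n → Bool => (val (List.ofFn a) g, val (List.ofFn a) g')) (e.map fun z => (z, z))
  have h2 : ∀ z : ℤ, E1 p (fun a : Fin n → Bool =>
      if (val (List.ofFn a) g, val (List.ofFn a) g') = (z, z) then 1 else 0) =
      (T p (g.map Prod.snd) fun y => if y = z then 1 else 0) ^ 2 := by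
    intro z
    have := E1_val (p := p) g hn hlt (fun y => if y = z then 1 else 0)
      (fun a => if val (List.ofFn a) g' = z then 1 else 0)
      (fun a j b hj => by rw [val_update a j b (fun h => hd hj h)])
    rw [prob_one hn' hlt', hs, ← sq] at this
    rw [← this]
    congr 1
    funext a
    by_cases a1 : val (List.ofFn a) g = z <;> by_cases a2 : val (List.ofFn a) g' = z <;>
      simp [a1, a2]
  rw [List.length_map, List.map_map] at h1
  simp only [Function.comp_def, h2] at h1
  simp only [sq] at h1 ⊢
  rw [← List.prod_map_mul, ← h1]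
  congr 1
  funext l
  congr 1
  simp only [pat, rows, List.map_map, Function.comp_def, eq_iff_iff]
  clear h1
  induction l generalizing e with
  | nil => cases e <;> simp
  | cons a l ih =>
    cases e with
    | nil => simp
    | cons z e =>
      simp only [List.map_cons, List.cons.injEq, Prod.mk.injEq, ← ih e]
      tauto

theorem tgt_prob (h0 : 0 ≤ p) (h1 : p ≤ 1 / 2) (k i j : ℕ) :
    p / 2 ^ ((k + 2) * (i + 1 + j)) ≤
      ((tgt i j).map fun z => T p (sig k) fun y => if y = z then 1 else 0).prod := by
  have a0 := T_sig_zero h0 h1 k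
  have a1 := T_sig_one h0 h1 k
  simp only [tgt, List.map_append, List.map_replicate, List.map_cons, List.prod_append,
    List.prod_replicate, List.prod_cons]
  have e : p / 2 ^ ((k + 2) * (i + 1 + j)) =
      (1 / 2 ^ (k + 2)) ^ i * (p / 2 ^ (k + 2) * (1 / 2 ^ (k + 2)) ^ j) := by
    rw [pow_mul, pow_add _ (i + 1), pow_add _ i, one_div_pow, one_div_pow]
    field_simp
  rw [e]
  have b0 : (0 : ℝ) ≤ 1 / 2 ^ (k + 2) := by positivity
  have b1 : (0 : ℝ) ≤ p / 2 ^ (k + 2) := by positivity
  have b2 := b0.trans a0
  have b3 := b1.trans a1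
  gcongr

theorem block_bad (h0 : 0 ≤ p) (h1 : p ≤ 1 / 2) {k b B : ℕ} (hB : (k + 2) * b ≤ B) {G : List Grp}
    (hn : (G.flatten.map Prod.fst).Nodup) (hlt : ∀ i ∈ G.flatten.map Prod.fst, i < n)
    (hs : ∀ g ∈ G, g.map Prod.snd = sig k) {μ : ℝ} (hμ : 0 < μ) (hG : μ ≤ G.length * (p / 2 ^ B))
    {Φ : ℕ} (hΦ : 2 * (Φ : ℝ) ≤ μ) :
    ExL p b (fun l : List (Fin n → Bool) => if ∃ r ∈ rows l,
      G.countP (fun g => isU (rows l) g && decide (val r g = 1)) < Φ then 1 else 0) ≤
      b * (4 / μ) := by
  rw [List.map_flatten, List.nodup_flatten, List.pairwise_map] at hn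
  have hn1 : ∀ g ∈ G, (g.map Prod.fst).Nodup := fun g hg => hn.1 _ (List.mem_map_of_mem hg)
  have hlt1 : ∀ g ∈ G, ∀ i ∈ g.map Prod.fst, i < n := fun g hg i hi =>
    hlt i ((List.sublist_flatten_of_mem hg).map _ |>.subset hi)
  let π : ℕ → ℝ := fun i =>
    ((tgt i (b - 1 - i)).map fun z => T p (sig k) fun y => if y = z then 1 else 0).prod
  have hπ : ∀ i < b, μ ≤ G.length * π i := by
    intro i hi
    refine hG.trans (mul_le_mul_of_nonneg_left (le_trans ?_ (tgt_prob h0 h1 k i _))
      (Nat.cast_nonneg _))
    rw [show i + 1 + (b - 1 - i) = b by omega]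
    exact div_le_div_of_nonneg_left h0 (by positivity) (pow_le_pow_right₀ (by norm_num) hB)
  have hv : ∀ i < b, ExL p b (fun l : List (Fin n → Bool) =>
      ((G.countP fun g => decide (pat (rows l) g = tgt i (b - 1 - i)) : ℝ) - G.length * π i) ^ 2) ≤
      G.length * π i := by
    intro i hi
    have hl : (tgt i (b - 1 - i)).length = b := by simp [tgt]; omega
    refine ExL_var b (fun g l => pat (rows l) g = tgt i (b - 1 - i)) (π i) G (fun g hg => ?_) ?_
    · have := prob_pat (p := p) (hn1 g hg) (hlt1 g hg) (tgt i (b - 1 - i))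
      rwa [hl, hs g hg] at this
    · refine List.Pairwise.imp_of_mem (fun {g g'} hg hg' hd => ?_) hn.2
      have := prob_pat2 (p := p) (hn1 g hg) (hlt1 g hg) (hn1 g' hg') (hlt1 g' hg') hd
        ((hs g' hg').trans (hs g hg).symm) (tgt i (b - 1 - i))
      rwa [hl, hs g hg] at this
  calc _ ≤ ExL p b (fun l : List (Fin n → Bool) => ∑ i ∈ range b, 4 / (G.length * π i) ^ 2 *
        ((G.countP fun g => decide (pat (rows l) g = tgt i (b - 1 - i)) : ℝ) -
          G.length * π i) ^ 2) := by
        refine ExL_mono h0 (by linarith) b fun l hl => ?_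
        split_ifs with h
        · obtain ⟨r, hr, hc⟩ := h
          obtain ⟨R₁, R₂, hR⟩ := List.append_of_mem hr
          have hi : R₁.length < b := by
            have := congrArg List.length hR
            simp [rows] at this
            omega
          refine le_trans ?_ (single_le_sum (f := fun i => 4 / (G.length * π i) ^ 2 *
            ((G.countP fun g => decide (pat (rows l) g = tgt i (b - 1 - i)) : ℝ) -
              G.length * π i) ^ 2) (fun i _ => by positivity) (mem_range.2 hi))
          have h2 : G.countP (fun g => decide (pat (rows l) g = tgt R₁.length (b - 1 - R₁.length))) ≤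
              G.countP (fun g => isU (rows l) g && decide (val r g = 1)) := by
            refine List.countP_mono_left fun g _ hg => ?_
            rw [hR] at hg ⊢
            exact tgt_spec (of_decide_eq_true hg)
          have h3 : ((G.countP (fun g =>
              decide (pat (rows l) g = tgt R₁.length (b - 1 - R₁.length))) : ℕ) : ℝ) ≤ Φ := by
            exact_mod_cast h2.trans hc.le
          have h4 := hπ _ hi
          generalize (G.length : ℝ) * π R₁.length = ν at *
          generalize ((G.countP (fun g =>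
              decide (pat (rows l) g = tgt R₁.length (b - 1 - R₁.length))) : ℕ) : ℝ) = c at *
          have h5 : 0 < ν := by linarith
          rw [div_mul_eq_mul_div, le_div_iff₀ (by positivity)]
          nlinarith
        · exact sum_nonneg fun i _ => by positivity
    _ ≤ ∑ i ∈ range b, 4 / μ := by
        rw [ExL_sum]
        refine sum_le_sum fun i hi => ?_
        have h2 := hv i (mem_range.1 hi)
        have h4 := hπ i (mem_range.1 hi)
        rw [ExL_mul]
        generalize (G.length : ℝ) * π i = ν at *
        have h5 : 0 < ν := by linarith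
        calc _ ≤ 4 / ν ^ 2 * ν := mul_le_mul_of_nonneg_left h2 (by positivity)
          _ = 4 / ν := by field_simp
          _ ≤ 4 / μ := div_le_div_of_nonneg_left (by norm_num) hμ h4
    _ = _ := by simp

/-- Admissible block sizes. -/
def Ok (B : ℕ) : ℕ → List ℕ → Prop
  | _, [] => True
  | k, b :: bs => (k + 2) * b ≤ B ∧ Ok B (k + 1) bs

theorem main_bound (h0 : 0 < p) (h1 : p ≤ 1 / 2) {B L m : ℕ}
    (hΦ : 2 * ((2 * 2 ^ L * 2 ^ B * (2 + 2 ^ L * m) ^ L : ℕ) : ℝ) ≤ n * p / (2 * 2 ^ L * 2 ^ B))
    (bs : List ℕ) : ∀ (k m' : ℕ) (s : Grp × List Grp), Ok B k bs → k + bs.length ≤ L →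
      m' ≤ bs.sum → m' ≤ m → (s.1.map Prod.fst : List ℕ) + ids s.2 = (List.range n : List ℕ) →
      (∀ g ∈ s.2, g.map Prod.snd = sig k) →
      s.1.length + 2 * 2 ^ L * 2 ^ B ≤ 2 * 2 ^ L * 2 ^ B * (2 + 2 ^ L * m) ^ k →
      ExL p m' (fun l : List (Fin n → Bool) => if ∃ r ∈ rows l,
        1 < (val r (run bs (rows l) s)).natAbs then 1 else 0) ≤
        m' * (4 / (n * p / (2 * 2 ^ L * 2 ^ B))) := by
  induction bs with
  | nil =>
    intro k m' s _ _ hm _ _ _ _
    obtain rfl : m' = 0 := by simpa using hm
    simp [ExL, rows]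
  | cons b bs ih =>
    intro k m' s hok hk hm hm' hid hs hx
    rw [List.length_cons] at hk
    rw [List.sum_cons] at hm
    set μ : ℝ := n * p / (2 * 2 ^ L * 2 ^ B) with hμ
    set Φ : ℕ := 2 * 2 ^ L * 2 ^ B * (2 + 2 ^ L * m) ^ L with hΦ'
    have hΦ0 : 0 < Φ := by positivity
    have hΦ1 : (0 : ℝ) < Φ := by exact_mod_cast hΦ0
    have hxΦ : s.1.length + 2 * 2 ^ L * 2 ^ B ≤ Φ :=
      hx.trans (Nat.mul_le_mul_left _ (Nat.pow_le_pow_right (by omega) (by omega)))
    have hlen : ∀ g ∈ s.2, g.length = 2 ^ k := fun g hg => by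
      rw [← length_sig, ← hs g hg, List.length_map]
    have hkL : 2 ^ k ≤ 2 ^ L := Nat.pow_le_pow_right (by omega) (by omega)
    have hnd : (s.2.flatten.map Prod.fst).Nodup := by
      have : ((List.range n : List ℕ) : Multiset ℕ).Nodup := List.nodup_range
      rw [← hid] at this
      exact (Multiset.nodup_add.1 this).2.1
    have hlt : ∀ i ∈ s.2.flatten.map Prod.fst, i < n := fun i hi => by
      have : i ∈ ((List.range n : List ℕ) : Multiset ℕ) := by
        rw [← hid]
        exact Multiset.mem_add.2 (Or.inr hi)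
      simpa using this
    have hG : μ ≤ s.2.length * (p / 2 ^ B) := by
      have a1 := congrArg Multiset.card hid
      simp only [Multiset.card_add, Multiset.coe_card, List.length_map, ids,
        List.length_range] at a1
      have a2 := length_flatten_le (W := s.2) (N := 2 ^ L) fun g hg => (hlen g hg).trans_le hkL
      have a3 : (n : ℝ) ≤ Φ + 2 ^ L * s.2.length := by exact_mod_cast (by omega)
      have a4 : μ ≤ n := by
        rw [hμ, mul_div_assoc]
        refine mul_le_of_le_one_right (Nat.cast_nonneg _) ((div_le_one (by positivity)).2 ?_)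
        have b1 : (1 : ℝ) ≤ 2 ^ L := one_le_pow₀ (by norm_num)
        have b2 : (1 : ℝ) ≤ 2 ^ B := one_le_pow₀ (by norm_num)
        nlinarith
      have a5 : (n : ℝ) ≤ 2 * 2 ^ L * s.2.length := by linarith
      rw [hμ, div_le_iff₀ (by positivity)]
      calc n * p ≤ 2 * 2 ^ L * s.2.length * p := by gcongr
        _ = _ := by field_simp
    have hb : (k + 2) * min b m' ≤ B := (Nat.mul_le_mul_left _ (min_le_left _ _)).trans hok.1
    have hbad := block_bad (n := n) h0.le h1 hb hnd hlt hs (by linarith) hG hΦ
    have hQ : ∀ l : List (Fin n → Bool), l.length = min b m' →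
        (2 * 2 ^ k + 1) ^ (rows l).length ≤ 2 ^ B := fun l hl => by
      have a1 : 2 * 2 ^ k + 1 ≤ 2 ^ (k + 2) := by
        have := Nat.one_le_two_pow (n := k)
        rw [pow_add]
        omega
      rw [rows, List.length_map, hl]
      exact (Nat.pow_le_pow_left a1 _).trans
        (by rw [← pow_mul]; exact Nat.pow_le_pow_right (by omega) hb)
    have hkQ : 2 ^ k * 2 ^ B ≤ 2 ^ L * 2 ^ B := Nat.mul_le_mul_right _ hkL
    have e : m' = min b m' + (m' - min b m') := by omega
    rw [e, ExL_append, Nat.cast_add, add_mul, ← ExL_const (p := p) (n := n) (min b m')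
      (((m' - min b m' : ℕ) : ℝ) * (4 / μ))]
    refine le_trans ?_ (add_le_add_left hbad _)
    rw [← ExL_add]
    refine ExL_mono h0.le (by linarith) _ fun l hl => ?_
    have hst := step_spec (rows l) s
    have hl' : (rows l).length ≤ m := by rw [rows, List.length_map, hl]; omega
    have hx' := hst.len (2 ^ k) (2 ^ B) (fun g hg => (hlen g hg).le) (hQ l hl)
    have ih' := ih (k + 1) (m' - min b m') (step (rows l) s) hok.2 (by omega) (by omega) (by omega)
      (hst.ids_eq.trans hid) (hst.sig hs) (by
        have a1 : (s.1.length + 2 ^ k * 2 ^ B) * (1 + 2 ^ k * (rows l).length) ≤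
            (s.1.length + 2 ^ L * 2 ^ B) * (1 + 2 ^ L * m) := by gcongr
        have a2 := Nat.mul_le_mul_right (2 + 2 ^ L * m) hx
        rw [pow_succ _ k, ← mul_assoc]
        refine le_trans ?_ a2
        generalize 2 ^ L * m = u at *
        rw [mul_assoc 2] at *
        generalize 2 ^ L * 2 ^ B = v at *
        nlinarith [Nat.zero_le (u * v)])
    refine le_trans ?_ (add_le_add_right ih' _)
    rw [← ExL_const (p := p) (n := n) (m' - min b m') (if ∃ r ∈ rows l, s.2.countP
      (fun g => isU (rows l) g && decide (val r g = 1)) < Φ then 1 else 0), ← ExL_add]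
    refine ExL_mono h0.le (by linarith) _ fun l' hl'' => ?_
    have a1 : rows (l ++ l') = rows l ++ rows l' := List.map_append
    have a2 : (rows l ++ rows l').take b = rows l ∧ (rows l ++ rows l').drop b = rows l' := by
      by_cases hc : b ≤ m'
      · have : (rows l).length = b := by rw [rows, List.length_map]; omega
        exact ⟨List.take_left' this, List.drop_left' this⟩
      · obtain rfl : l' = [] := List.length_eq_zero_iff.1 (by omega)
        have : (rows l).length ≤ b := by rw [rows, List.length_map]; omega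
        simp only [rows, List.map_nil, List.append_nil] at this ⊢
        exact ⟨List.take_of_length_le this, List.drop_of_length_le this⟩
    rw [a1, run, a2.1, a2.2]
    by_cases c1 : ∃ r ∈ rows l ++ rows l', 1 < (val r (run bs (rows l') (step (rows l) s))).natAbs
    · rw [if_pos c1]
      obtain ⟨r, hr, hr'⟩ := c1
      rcases List.mem_append.1 hr with hr | hr
      · rw [if_pos]
        · split_ifs <;> norm_num
        refine ⟨r, hr, lt_of_not_ge fun hc => ?_⟩
        rw [run_old _ _ _ (hst.zero (Or.inl hr))] at hr'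
        have := hst.good (2 ^ k) (2 ^ B) (fun g hg => (hlen g hg).le) (hQ l hl) r hr
          (le_trans (by rw [mul_assoc 2] at hxΦ; omega) hc)
        omega
      · have c2 : ∃ r ∈ rows l', 1 < (val r (run bs (rows l') (step (rows l) s))).natAbs :=
          ⟨r, hr, hr'⟩
        rw [if_pos c2]
        split_ifs <;> norm_num
    · rw [if_neg c1]
      split_ifs <;> norm_num

end Pool.Agent.Lib.MP_29d7aa_lc
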