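import Mathlib

/-!
Resampling noise on random Boolean matrices: positivity and stability of low degree polynomials.
-/

set_option autoImplicit false

noncomputable section

namespace Pool.Agent.Lib.MP_29d7aa_lc.Low

open Finset

/-- Boolean matrices. -/
abbrev Mat (m n : ℕ) : Type := Fin m → Fin n → Bool

/-- The Bernoulli weight. -/
def pr (p : ℝ) (b : Bool) : ℝ := if b then p else 1 - p

/-- The joint weight of a bit and of its resampled copy. -/
def kap (p ε : ℝ) (b c : Bool) : ℝ := pr p b * ((if b = c then 1 - ε else 0) + ε * pr p c)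

variable {m n : ℕ} {p ε : ℝ}

/-- Expectation over a random matrix. -/
def Ex (p : ℝ) (F : Mat m n → ℝ) : ℝ := ∑ A, (∏ i, ∏ j, pr p (A i j)) * F A

/-- Expectation over a random matrix and its resampled copy. -/
def J (p ε : ℝ) (F : Mat m n → Mat m n → ℝ) : ℝ :=
  ∑ A, ∑ B, (∏ i, ∏ j, kap p ε (A i j) (B i j)) * F A B

theorem kap_nonneg (h0 : 0 ≤ p) (h1 : p ≤ 1) (h2 : 0 ≤ ε) (h3 : ε ≤ 1) (b c : Bool) :
    0 ≤ kap p ε b c := by
  have h4 : ∀ b, 0 ≤ pr p b := fun b => by unfold pr; split_ifs <;> linarith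
  exact mul_nonneg (h4 b) (add_nonneg (by split_ifs <;> linarith) (mul_nonneg h2 (h4 c)))

theorem kap_symm (b c : Bool) : kap p ε b c = kap p ε c b := by
  cases b <;> cases c <;> simp [kap, pr] <;> ring

theorem kap_sum (b : Bool) : ∑ c, kap p ε b c = pr p b := by
  cases b <;> simp [kap, pr] <;> ring

theorem sum_mat (φ : Fin m → Fin n → Bool → ℝ) :
    ∑ A : Mat m n, ∏ i, ∏ j, φ i j (A i j) = ∏ i, ∏ j, ∑ b, φ i j b := by
  simp only [Fintype.prod_sum]

theorem J_add (F G : Mat m n → Mat m n → ℝ) :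
    J p ε (fun A B => F A B + G A B) = J p ε F + J p ε G := by
  simp only [J, mul_add, sum_add_distrib]

theorem J_mul (c : ℝ) (F : Mat m n → Mat m n → ℝ) :
    J p ε (fun A B => c * F A B) = c * J p ε F := by
  simp only [J, mul_sum, mul_left_comm]

theorem J_sum {ι : Type} (s : Finset ι) (F : ι → Mat m n → Mat m n → ℝ) :
    J p ε (fun A B => ∑ i ∈ s, F i A B) = ∑ i ∈ s, J p ε (F i) := by
  simp only [J, mul_sum]
  exact (sum_congr rfl fun A _ => sum_comm).trans sum_comm

theorem J_mono (h0 : 0 ≤ p) (h1 : p ≤ 1) (h2 : 0 ≤ ε) (h3 : ε ≤ 1)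
    {F G : Mat m n → Mat m n → ℝ} (h : ∀ A B, F A B ≤ G A B) : J p ε F ≤ J p ε G :=
  sum_le_sum fun A _ => sum_le_sum fun B _ => mul_le_mul_of_nonneg_left (h A B)
    (prod_nonneg fun _ _ => prod_nonneg fun _ _ => kap_nonneg h0 h1 h2 h3 _ _)

theorem J_left (F : Mat m n → ℝ) : J p ε (fun A _ => F A) = Ex p F := by
  refine sum_congr rfl fun A _ => ?_
  rw [← sum_mul, sum_mat fun i j b => kap p ε (A i j) b]
  simp only [kap_sum]

theorem J_right (F : Mat m n → ℝ) : J p ε (fun _ B => F B) = Ex p F := by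
  rw [← J_left (ε := ε), J, sum_comm]
  simp only [J, kap_symm (p := p) (ε := ε)]

theorem J_zero (F : Mat m n → Mat m n → ℝ) : J p 0 F = Ex p fun A => F A A := by
  refine sum_congr rfl fun A _ => ?_
  rw [sum_eq_single A]
  · simp [kap]
  · intro B _ hB
    obtain ⟨i, hi⟩ := Function.ne_iff.1 hB
    obtain ⟨j, hj⟩ := Function.ne_iff.1 hi
    rw [prod_eq_zero (mem_univ i) (prod_eq_zero (mem_univ j) (by simp [kap, hj.symm])), zero_mul]
  · simp

/-- The centred monomials. -/
def psi (p : ℝ) (S : Finset (Fin m × Fin n)) (A : Mat m n) : ℝ :=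
  ∏ e ∈ S, ((if A e.1 e.2 then 1 else 0) - p)

theorem J_psi (S T : Finset (Fin m × Fin n)) : J p ε (fun A B => psi p S A * psi p T B) =
    if S = T then ((1 - ε) * (p * (1 - p))) ^ S.card else 0 := by
  have h1 : ∀ (S : Finset (Fin m × Fin n)) (A : Mat m n), psi p S A =
      ∏ i, ∏ j, if (i, j) ∈ S then (if A i j then 1 else 0) - p else 1 := by
    intro S A
    rw [psi, ← Fintype.prod_prod_type' fun i j =>
      if (i, j) ∈ S then (if A i j then 1 else 0) - p else 1, prod_ite_mem, univ_inter]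
  simp only [J, h1, ← prod_mul_distrib]
  rw [sum_congr rfl fun A _ => sum_mat fun i j c => kap p ε (A i j) c *
    ((if (i, j) ∈ S then (if A i j then 1 else 0) - p else 1) *
      if (i, j) ∈ T then (if c then 1 else 0) - p else 1),
    sum_mat fun i j b => ∑ c, kap p ε b c *
    ((if (i, j) ∈ S then (if b then 1 else 0) - p else 1) *
      if (i, j) ∈ T then (if c then 1 else 0) - p else 1),
    ← Fintype.prod_prod_type' fun i j => ∑ b, ∑ c, kap p ε b c *
    ((if (i, j) ∈ S then (if b then 1 else 0) - p else 1) *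
      if (i, j) ∈ T then (if c then 1 else 0) - p else 1)]
  split_ifs with h
  · subst h
    rw [← prod_const, ← univ_inter S, ← prod_ite_mem, univ_inter]
    refine prod_congr rfl fun e _ => ?_
    by_cases he : e ∈ S <;> simp [he, kap, pr] <;> ring
  · obtain ⟨e, he⟩ : ∃ e, ¬(e ∈ S ↔ e ∈ T) := by
      by_contra hc
      push Not at hc
      exact h (Finset.ext hc)
    refine prod_eq_zero (mem_univ e) ?_
    by_cases h2 : e ∈ S <;> by_cases h3 : e ∈ T <;> simp [h2, h3, kap, pr] at he ⊢ <;> ring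

/-- Functions of degree at most `D`. -/
def V (p : ℝ) (m n D : ℕ) : Submodule ℝ (Mat m n → ℝ) :=
  Submodule.span ℝ (Set.range fun S : {S : Finset (Fin m × Fin n) // S.card ≤ D} => psi p S.1)

theorem prod_mem {D : ℕ} (U : Finset (Fin m × Fin n)) (hU : U.card ≤ D)
    (α β : Fin m × Fin n → ℝ) : (fun A : Mat m n =>
      ∏ e ∈ U, (β e * ((if A e.1 e.2 then 1 else 0) - p) + α e)) ∈ V p m n D := by
  have : (fun A : Mat m n => ∏ e ∈ U, (β e * ((if A e.1 e.2 then 1 else 0) - p) + α e)) =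
      ∑ T ∈ U.powerset, ((∏ e ∈ T, β e) * ∏ e ∈ U \ T, α e) • psi p T := by
    funext A
    rw [prod_add, Finset.sum_apply]
    refine sum_congr rfl fun T _ => ?_
    rw [prod_mul_distrib, Pi.smul_apply, smul_eq_mul, psi]
    ring
  rw [this]
  exact Submodule.sum_mem _ fun T hT => Submodule.smul_mem _ _ (Submodule.subset_span
    ⟨⟨T, (card_le_card (mem_powerset.1 hT)).trans hU⟩, rfl⟩)

theorem all_mem (F : Mat m n → ℝ) : F ∈ V p m n (Fintype.card (Fin m × Fin n)) := by
  have : F = ∑ B : Mat m n, F B • fun A : Mat m n => ∏ e : Fin m × Fin n,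
      ((if B e.1 e.2 then 1 else -1) * ((if A e.1 e.2 then 1 else 0) - p) + pr p (B e.1 e.2)) := by
    funext A
    rw [Finset.sum_apply, sum_eq_single A]
    · rw [Pi.smul_apply, prod_eq_one, smul_eq_mul, mul_one]
      intro e _
      cases A e.1 e.2 <;> simp [pr]
    · intro B _ hB
      obtain ⟨i, hi⟩ := Function.ne_iff.1 hB
      obtain ⟨j, hj⟩ := Function.ne_iff.1 hi
      rw [Pi.smul_apply, prod_eq_zero (mem_univ (i, j)), smul_zero]
      cases h1 : A i j <;> cases h2 : B i j <;> simp [pr, h1, h2] at hj ⊢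
    · simp
  rw [this]
  exact Submodule.sum_mem _ fun B _ => Submodule.smul_mem _ _ (prod_mem _ le_rfl _ _)

theorem poly_mem {D : ℕ} (f : MvPolynomial (Fin m × Fin n) ℝ) (hf : f.totalDegree ≤ D) :
    (fun A : Mat m n => MvPolynomial.eval (fun e => if A e.1 e.2 then (1 : ℝ) else 0) f) ∈
      V p m n D := by
  have : (fun A : Mat m n => MvPolynomial.eval (fun e => if A e.1 e.2 then (1 : ℝ) else 0) f) =
      ∑ d ∈ f.support, f.coeff d • fun A : Mat m n =>
        ∏ e ∈ d.support, (1 * ((if A e.1 e.2 then 1 else 0) - p) + p) := by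
    funext A
    rw [MvPolynomial.eval_eq, Finset.sum_apply]
    refine sum_congr rfl fun d _ => ?_
    rw [Pi.smul_apply, smul_eq_mul]
    congr 1
    refine prod_congr rfl fun e he => ?_
    cases A e.1 e.2 <;> simp [Finsupp.mem_support_iff.1 he]
  rw [this]
  refine Submodule.sum_mem _ fun d hd => Submodule.smul_mem _ _ (prod_mem _ ?_ _ _)
  refine le_trans ?_ ((MvPolynomial.le_totalDegree hd).trans hf)
  rw [Finsupp.sum, card_eq_sum_ones]
  exact sum_le_sum fun e he => Nat.one_le_iff_ne_zero.2 (Finsupp.mem_support_iff.1 he)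

theorem J_expand {D : ℕ} (c : {S : Finset (Fin m × Fin n) // S.card ≤ D} → ℝ) (ε : ℝ) :
    J p ε (fun A B => (∑ S, c S • psi p S.1) A * (∑ S, c S • psi p S.1) B) =
      ∑ S, c S ^ 2 * ((1 - ε) * (p * (1 - p))) ^ S.1.card := by
  simp only [Finset.sum_apply, Pi.smul_apply, smul_eq_mul, sum_mul_sum, J_sum]
  refine sum_congr rfl fun S _ => ?_
  rw [sum_congr rfl fun T _ => show J p ε (fun A B => c S * psi p S.1 A * (c T * psi p T.1 B)) =
    if S = T then c S * c T * ((1 - ε) * (p * (1 - p))) ^ S.1.card else 0 from ?_]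
  · simp [sq]
  · simp only [mul_mul_mul_comm (c S), J_mul, J_psi, Subtype.ext_iff, mul_ite, mul_zero]

theorem psd (h0 : 0 ≤ p) (h1 : p ≤ 1) (h3 : ε ≤ 1) (F : Mat m n → ℝ) :
    Ex p F ^ 2 ≤ J p ε fun A B => F A * F B := by
  obtain ⟨c, rfl⟩ := (Submodule.mem_span_range_iff_exists_fun _).1 (all_mem (p := p) F)
  have h4 : Ex p (∑ S, c S • psi p S.1) = c ⟨∅, by simp⟩ := by
    have := fun S => J_psi (m := m) (n := n) (p := p) (ε := ε) S ∅
    simp only [show ∀ B : Mat m n, psi p ∅ B = 1 from fun B => rfl, mul_one] at this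
    rw [← J_left (ε := ε)]
    simp only [Finset.sum_apply, Pi.smul_apply, smul_eq_mul, J_sum, J_mul, this]
    rw [sum_eq_single ⟨∅, by simp⟩]
    · simp
    · intro S _ hS
      rw [if_neg fun h => hS (Subtype.ext h), mul_zero]
    · simp
  rw [J_expand, h4]
  refine le_trans (by simp) (single_le_sum (f := fun S => c S ^ 2 *
    ((1 - ε) * (p * (1 - p))) ^ S.1.card) (fun S _ => ?_) (mem_univ ⟨∅, by simp⟩))
  have : 0 ≤ 1 - p := by linarith
  have : 0 ≤ 1 - ε := by linarith
  positivity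

theorem stable (h0 : 0 ≤ p) (h1 : p ≤ 1) (h2 : 0 ≤ ε) (h3 : ε ≤ 1) {D : ℕ} {F : Mat m n → ℝ}
    (hF : F ∈ V p m n D) :
    J p ε (fun A B => (F A - F B) ^ 2) ≤ 2 * ε * D * Ex p fun A => F A ^ 2 := by
  have e : (fun A B => (F A - F B) ^ 2) =
      fun A B => F A ^ 2 + (F B ^ 2 + (-2) * (F A * F B)) := by
    funext A B
    ring
  rw [e, J_add, J_add, J_mul, J_left, J_right]
  have e2 : (Ex p fun A => F A ^ 2) = J p 0 fun A B => F A * F B := by
    simp only [J_zero, sq]
  rw [e2]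
  obtain ⟨c, rfl⟩ := (Submodule.mem_span_range_iff_exists_fun _).1 hF
  rw [J_expand, J_expand, mul_sum, mul_sum, ← sum_add_distrib, ← sum_add_distrib]
  refine sum_le_sum fun S _ => ?_
  have a1 := one_add_mul_le_pow (a := -ε) (by linarith) S.1.card
  have a2 : (S.1.card : ℝ) ≤ D := by exact_mod_cast S.2
  have a3 : 0 ≤ c S ^ 2 * (p * (1 - p)) ^ S.1.card := by
    have : 0 ≤ 1 - p := by linarith
    positivity
  rw [← sub_eq_add_neg] at a1
  rw [sub_zero, one_mul, mul_pow (1 - ε), mul_left_comm (c S ^ 2)]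
  generalize c S ^ 2 * (p * (1 - p)) ^ S.1.card = u at *
  nlinarith [mul_le_mul_of_nonneg_right a1 a3, mul_le_mul_of_nonneg_right a2 (mul_nonneg h2 a3)]

end Pool.Agent.Lib.MP_29d7aa_lc.Low
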