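import Pool.Agent.Lib.MP_29d7aa_lc.Final
import Pool.Agent.Lib.MP_acf5a6_lc.Arith

/-!
The algorithm runs in polynomial time.
-/

set_option autoImplicit false

namespace Pool.Agent.Lib.MP_29d7aa_lc

open Pool.Agent.Lib.MP_acf5a6_lc N487b59b3

variable {α β : Type} [N487b59b3 α] [N487b59b3 β]

theorem headD_filter_zipIdx {β : Type} (l : List β) (i : ℕ) (d : β) :
    ((l.zipIdx.filter (fun x => decide (x.2 = i))).map (fun x => x.1)).headD d = l.getD i d := by
  have key : ∀ (l : List β) (k i : ℕ), (((l.zipIdx k).filter
      (fun x => decide (x.2 = i + k))).map (fun x => x.1)).headD d = l.getD i d := by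
    intro l
    induction l with
    | nil => simp
    | cons a l ih =>
      intro k i
      cases i with
      | zero => simp
      | succ i =>
        have := ih (k + 1) i
        rw [List.zipIdx_cons, List.filter_cons_of_neg (by simp), List.getD_cons_succ, ← this,
          show i + 1 + k = i + (k + 1) by omega]
  exact key l 0 i

@[fun_prop] theorem listGetD_PT {l : α → List β} {i : α → ℕ} {d : α → β} (hl : PT l) (hi : PT i)
    (hd : PT d) : PT (fun a => (l a).getD (i a) (d a)) :=
  PT.of_eq (f := fun a => (((l a).zipIdx.filter (fun x => decide (x.2 = i a))).map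
    (fun x => x.1)).headD (d a)) (by fun_prop) (fun _ => headD_filter_zipIdx _ _ _)

@[fun_prop] theorem natDiv_PT {f g : α → ℕ} (hf : PT f) (hg : PT g) :
    PT (fun a => f a / g a) := by
  have h1 := PT.foldlA (g := fun a (r : ℕ × ℕ) (b : Bool) => if g a ≤ Nat.bit b r.2 then
      (Nat.bit true r.1, Nat.bit b r.2 - g a) else (Nat.bit false r.1, Nat.bit b r.2))
    (h := fun _ => (0, 0)) (l := fun a => (f a).bits.reverse) (by fun_prop) (PT.const _)
    (by fun_prop) (PB.const 3) (fun a c b => by
      obtain ⟨q, r⟩ := c
      have h2 := sz_bit b r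
      have h3 := sz_nat_mono (Nat.sub_le (Nat.bit b r) (g a))
      have h4 := sz_bit true q
      have h5 := sz_bit false q
      split_ifs <;> simp only [sz_pair] <;> omega)
  refine (PT.ite' (p := fun a => g a = 0) (by fun_prop) (PT.const 0) (PT.fst h1)).of_eq
    (fun a => ?_)
  split_ifs with h0
  · simp [h0]
  have h0 : 0 < g a := Nat.pos_of_ne_zero h0
  rw [List.foldl_reverse]
  suffices H : ∀ n : ℕ, n.bits.foldr (fun (b : Bool) (r : ℕ × ℕ) => if g a ≤ Nat.bit b r.2 then
      (Nat.bit true r.1, Nat.bit b r.2 - g a) else (Nat.bit false r.1, Nat.bit b r.2)) (0, 0) =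
      (n / g a, n % g a) by rw [H]
  intro n
  induction n using Nat.binaryRec' with
  | zero => simp
  | bit b n hn ih =>
    rw [Nat.bits_append_bit n b hn, List.foldr_cons, ih]
    have h1 := Nat.mod_lt n h0
    have h2 := Nat.div_add_mod n (g a)
    have h3 : b.toNat ≤ 1 := Bool.toNat_le b
    simp only [Nat.bit_val, Bool.toNat_true, Bool.toNat_false, add_zero]
    split_ifs with h
    · exact Prod.ext_iff.2 (by
        have := (Nat.div_mod_unique (a := 2 * n + b.toNat) (c := 2 * (n % g a) + b.toNat - g a)
          (d := 2 * (n / g a) + 1) h0).2 ⟨by zify [h] at *; linarith, by omega⟩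
        exact ⟨this.1.symm, this.2.symm⟩)
    · exact Prod.ext_iff.2 (by
        have := (Nat.div_mod_unique (a := 2 * n + b.toNat) (c := 2 * (n % g a) + b.toNat)
          (d := 2 * (n / g a)) h0).2 ⟨by linarith, by omega⟩
        exact ⟨this.1.symm, this.2.symm⟩)

theorem take_drop_zipIdx {β : Type} (l : List β) (i : ℕ) :
    (l.zipIdx.filter fun x => decide (x.2 < i)).map (fun x => x.1) = l.take i ∧
    (l.zipIdx.filter fun x => decide (i ≤ x.2)).map (fun x => x.1) = l.drop i := by
  have key : ∀ (l : List β) (k : ℕ),
      ((l.zipIdx k).filter fun x => decide (x.2 < i)).map (fun x => x.1) = l.take (i - k) ∧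
      ((l.zipIdx k).filter fun x => decide (i ≤ x.2)).map (fun x => x.1) = l.drop (i - k) := by
    intro l
    induction l with
    | nil => simp
    | cons a l ih =>
      intro k
      have := ih (k + 1)
      by_cases h : k < i
      · rw [show i - k = i - (k + 1) + 1 by omega, List.zipIdx_cons,
          List.filter_cons_of_pos (by simpa using h), List.filter_cons_of_neg (by simpa using h),
          List.map_cons, this.1, this.2]
        exact ⟨rfl, rfl⟩
      · rw [show i - (k + 1) = 0 by omega] at this
        rw [show i - k = 0 by omega, List.zipIdx_cons,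
          List.filter_cons_of_neg (by simpa using h), List.filter_cons_of_pos (by simpa using h),
          List.map_cons, this.1, this.2]
        exact ⟨rfl, rfl⟩
  exact key l 0

@[fun_prop] theorem take_PT {l : α → List β} {i : α → ℕ} (hl : PT l) (hi : PT i) :
    PT (fun a => (l a).take (i a)) :=
  PT.of_eq (f := fun a => ((l a).zipIdx.filter fun x => decide (x.2 < i a)).map (fun x => x.1))
    (by fun_prop) (fun _ => (take_drop_zipIdx _ _).1)

@[fun_prop] theorem drop_PT {l : α → List β} {i : α → ℕ} (hl : PT l) (hi : PT i) :
    PT (fun a => (l a).drop (i a)) :=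
  PT.of_eq (f := fun a => ((l a).zipIdx.filter fun x => decide (i a ≤ x.2)).map (fun x => x.1))
    (by fun_prop) (fun _ => (take_drop_zipIdx _ _).2)

@[fun_prop] theorem val_PT {r : α → List Bool} {g : α → Grp} (hr : PT r) (hg : PT g) :
    PT (fun a => val (r a) (g a)) := by
  unfold val sg
  fun_prop

@[fun_prop] theorem neg_PT {g : α → Grp} (hg : PT g) : PT (fun a => neg (g a)) := by
  unfold neg
  fun_prop

@[fun_prop] theorem pat_PT {R : α → List (List Bool)} {g : α → Grp} (hR : PT R) (hg : PT g) :
    PT (fun a => pat (R a) (g a)) := by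
  unfold pat
  fun_prop

@[fun_prop] theorem isU_PT {R : α → List (List Bool)} {g : α → Grp} (hR : PT R) (hg : PT g) :
    PT (fun a => isU (R a) (g a)) := by
  unfold isU
  fun_prop

@[fun_prop] theorem dot_PT {R : α → List (List Bool)} {g x : α → Grp} (hR : PT R) (hg : PT g)
    (hx : PT x) : PT (fun a => dot (R a) (g a) (x a)) := by
  unfold dot
  fun_prop

theorem sz_neg (g : Grp) : sz (neg g) = sz g := by
  induction g with
  | nil => rfl
  | cons e g ih =>
    obtain ⟨j, s⟩ := e
    have : neg ((j, s) :: g) = (j, !s) :: neg g := rfl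
    simp [this, ih]

theorem sz_flatten_le (G : List Grp) : sz G.flatten ≤ sz G := by
  induction G with
  | nil => simp
  | cons g G ih => simp; omega

theorem sz_filter (l : List β) (c : β → Bool) :
    sz (l.filter c) + sz (l.filter fun x => !c x) = sz l := by
  induction l with
  | nil => simp
  | cons a l ih => cases h : c a <;> simp [h] <;> omega

@[fun_prop] theorem pairUp_PT {R : α → List (List Bool)} {G : α → List Grp} (hR : PT R)
    (hG : PT G) : PT (fun a => pairUp (R a) (G a)) :=
  PT.foldlA (g := fun a => pairStep (R a)) (by unfold pairStep; fun_prop) (PT.const _) hG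
    (B := fun x => 4 * sz x.2 + 2)
    (((PB.const 4).mul (PB.of_PT (by fun_prop))).add (PB.const 2)) (fun a s g => by
      obtain ⟨w, q⟩ := s
      have h1 := sz_filter w fun h => decide (pat (R a) h = pat (R a) g)
      have h2 := sz_flatten_le (w.filter fun h => decide (pat (R a) h = pat (R a) g))
      unfold pairStep
      cases (w.filter fun h => decide (pat (R a) h = pat (R a) g)).isEmpty <;>
        simp only [cond_true, cond_false, sz_pair, sz_cons, sz_append, sz_neg, fm_eq] <;> omega)

theorem fix_PT {R : α → List (List Bool)} {G : α → List Grp} {x : α → Grp × List Grp} (hR : PT R)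
    (hG : PT G) (hx : PT x) : PT (fun a => (G a).foldl (fixStep (R a)) (x a)) :=
  PT.foldlA (g := fun a => fixStep (R a)) (by unfold fixStep; fun_prop) hx hG
    (B := fun x => 2 * sz x.2 + 1)
    (((PB.const 2).mul (PB.of_PT (by fun_prop))).add (PB.const 1)) (fun a s g => by
      obtain ⟨w, q⟩ := s
      unfold fixStep
      cases decide (dot (R a) g w = 0) <;> cases decide ((dot (R a) g w).toNat = 0) <;>
        simp only [cond_true, cond_false, sz_pair, sz_cons, sz_append, sz_neg] <;> omega)

@[fun_prop] theorem step_PT {R : α → List (List Bool)} {s : α → Grp × List Grp} (hR : PT R)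
    (hs : PT s) : PT (fun a => step (R a) (s a)) := by
  have h1 : PT fun a => pairUp (R a) ((s a).2.filter fun g => !isU (R a) g) := by fun_prop
  have h2 := fix_PT hR (G := fun a => (s a).2.filter fun g => isU (R a) g) (by fun_prop)
    (x := fun a => (((pairUp (R a) ((s a).2.filter fun g => !isU (R a) g)).1.flatMap fun h => h) ++
      (s a).1, [])) (by fun_prop)
  have h3 := pairUp_PT hR (PT.snd h2)
  exact PT.prodMk (PT.append (PT.flatMap (f := fun _ h => h) (by fun_prop) (PT.fst h3)) (PT.fst h2))
    (PT.append (PT.snd h1) (PT.snd h3))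

/-- One level acting on the remaining rows and the state. -/
def lvl (t : List (List Bool) × Grp × List Grp) (b : ℕ) : List (List Bool) × Grp × List Grp :=
  (t.1.drop b, step (t.1.take b) t.2)

theorem run_eq (bs : List ℕ) (t : List (List Bool) × Grp × List Grp) : run bs t.1 t.2 =
    ((bs.foldl lvl t).2.2.flatMap fun h => h) ++ (bs.foldl lvl t).2.1 := by
  induction bs generalizing t with
  | nil => rfl
  | cons b bs ih => exact ih (lvl t b)

theorem sz_grp (g : Grp) :
    sz g = (((g.map Prod.fst : List ℕ) : Multiset ℕ).map fun j => 4 * sz j + 5).sum := by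
  induction g with
  | nil => rfl
  | cons e g ih =>
    obtain ⟨j, s⟩ := e
    rw [List.map_cons, ← Multiset.cons_coe, Multiset.map_cons, Multiset.sum_cons, ← ih]
    simp
    omega

theorem lvl_sz (bs : List ℕ) (t : List (List Bool) × Grp × List Grp) (h : ∀ g ∈ t.2.2, g ≠ []) :
    sz (bs.foldl lvl t) ≤ 2 * sz t.1 + 2 + 3 * (sz t.2.1 + sz t.2.2.flatten) := by
  induction bs generalizing t with
  | nil =>
    obtain ⟨A, x, G⟩ := t
    have : sz G ≤ 3 * sz G.flatten := by
      induction G with
      | nil => simp
      | cons g G ih =>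
        have h1 := ih fun x hx => h x (List.mem_cons_of_mem _ hx)
        have h2 := List.length_pos_iff.2 (h g List.mem_cons_self)
        have h3 := length_le_sz g
        simp only [sz_cons, List.flatten_cons, sz_append]
        omega
    simp only [List.foldl_nil, sz_pair]
    omega
  | cons b bs ih =>
    have hs := step_spec (t.1.take b) t.2
    have h1 := ih (lvl t b) fun x hx => by
      obtain ⟨g, hg, g', -, -, rfl⟩ := hs.pairs x hx
      simp [h g hg]
    have h2 := congrArg (fun M : Multiset ℕ => (M.map fun j => 4 * sz j + 5).sum) hs.ids_eq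
    simp only [Multiset.map_add, Multiset.sum_add, ids, ← sz_grp] at h2
    have h3 := sz_drop_le t.1 b
    simp only [lvl] at h1
    rw [List.foldl_cons, lvl]
    omega

theorem out_PT : PT out := by
  have h1 : PT fun A : List (List Bool) => List.range A.length := PT.urange' (PT.ulen' PT.id')
  have h2 : PT fun A : List (List Bool) => List.range (A.headD []).length :=
    PT.urange' (PT.ulen' (by fun_prop))
  have h3 : PT fun A : List (List Bool) => lev A.length := by
    unfold lev
    fun_prop
  have h4 : PT fun A : List (List Bool) => List.range (lev A.length) :=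
    (take_PT h1 h3).of_eq fun A => by rw [List.take_range, min_eq_left (lev_le_self _)]
  have h5 : PT fun A : List (List Bool) => blocks A.length := by
    unfold blocks bet
    fun_prop
  have h6 : PT fun A : List (List Bool) => init (A.headD []).length := by
    unfold init
    fun_prop
  have h7 := PT.foldl (g := fun _ : List (List Bool) => lvl)
    (h := fun A => (A, [], init (A.headD []).length)) (by unfold lvl; fun_prop) (by fun_prop) h5
    ((((PB.const 2).mul PB.self).add (PB.const 2)).add ((PB.const 3).mul (PB.of_PT h6)))
    (fun A i => by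
      have a1 := lvl_sz ((blocks A.length).take i) (A, [], init (A.headD []).length)
        (by simp [init])
      have a2 := sz_flatten_le (init (A.headD []).length)
      simp only [sz_nil] at a1
      omega)
  have h8 : PT fun A : List (List Bool) =>
      run (blocks A.length) A ([], init (A.headD []).length) :=
    (PT.append (PT.flatMap (f := fun _ h => h) (by fun_prop) (PT.snd (PT.snd h7)))
      (PT.fst (PT.snd h7))).of_eq fun A => (run_eq _ (A, [], init (A.headD []).length)).symm
  have h9 : PT fun z : List ℕ × Grp =>
      z.1.map fun j => !z.2.all fun y => !decide (y = (j, true)) := by fun_prop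
  refine (PT.comp h9 (PT.prodMk h2 h8)).of_eq fun A => List.map_congr_left fun j _ => ?_
  rw [Bool.eq_iff_iff]
  simp

end Pool.Agent.Lib.MP_29d7aa_lc
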