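import Pool.Agent.Lib.MP_29d7aa_lc.Step

/-!
Expectations over random rows and the law of signed sums.
-/

set_option autoImplicit false

noncomputable section

namespace Pool.Agent.Lib.MP_29d7aa_lc

open Finset

/-- Expectation over a random row. -/
def E1 (p : ℝ) {n : ℕ} (F : (Fin n → Bool) → ℝ) : ℝ :=
  ∑ a, (∏ j, if a j then p else 1 - p) * F a

/-- Expectation over a list of independent random rows. -/
def ExL (p : ℝ) {n : ℕ} : ℕ → (List (Fin n → Bool) → ℝ) → ℝ
  | 0, F => F []
  | k + 1, F => E1 p fun a => ExL p k fun l => F (a :: l)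

variable {p : ℝ} {n : ℕ}

theorem E1_add (F G : (Fin n → Bool) → ℝ) : E1 p (fun a => F a + G a) = E1 p F + E1 p G := by
  simp [E1, mul_add, sum_add_distrib]

theorem E1_mul (c : ℝ) (F : (Fin n → Bool) → ℝ) : E1 p (fun a => c * F a) = c * E1 p F := by
  simp only [E1, mul_sum]
  exact sum_congr rfl fun a _ => by ring

theorem E1_const (c : ℝ) : E1 p (fun _ : Fin n → Bool => c) = c := by
  have := Fintype.piFinset_univ (α := Fin n) (β := fun _ => Bool) ▸
    (Finset.prod_univ_sum (fun _ : Fin n => (univ : Finset Bool))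
      (fun _ b => if b then p else 1 - p))
  rw [E1, ← sum_mul, ← this]
  simp

theorem E1_mono (h0 : 0 ≤ p) (h1 : p ≤ 1) {F G : (Fin n → Bool) → ℝ} (h : ∀ a, F a ≤ G a) :
    E1 p F ≤ E1 p G :=
  sum_le_sum fun a _ => mul_le_mul_of_nonneg_left (h a)
    (prod_nonneg fun j _ => by split_ifs <;> linarith)

theorem E1_split (j : Fin n) (F : (Fin n → Bool) → ℝ) :
    E1 p F = (1 - p) * E1 p (fun a => F (Function.update a j false)) +
      p * E1 p (fun a => F (Function.update a j true)) := by
  obtain ⟨n, rfl⟩ : ∃ k, n = k + 1 := ⟨n - 1, by have := j.pos; omega⟩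
  have key : ∀ G : (Fin (n + 1) → Bool) → ℝ, E1 p G =
      (1 - p) * E1 p (fun a => G (j.insertNth false a)) +
        p * E1 p (fun a => G (j.insertNth true a)) := by
    intro G
    rw [E1, ← (Fin.insertNthEquiv (fun _ => Bool) j).sum_comp, Fintype.sum_prod_type,
      Fintype.sum_bool, add_comm]
    simp only [E1, Fin.insertNthEquiv, Equiv.coe_fn_mk, Fin.prod_univ_succAbove _ j,
      Fin.insertNth_apply_same, Fin.insertNth_apply_succAbove, mul_sum, mul_assoc]
    simp
  rw [key F, key fun a => F (Function.update a j false), key fun a => F (Function.update a j true)]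
  simp only [Fin.update_insertNth]
  ring

theorem ExL_add (k : ℕ) (F G : List (Fin n → Bool) → ℝ) :
    ExL p k (fun l => F l + G l) = ExL p k F + ExL p k G := by
  induction k generalizing F G with
  | zero => rfl
  | succ k ih => simp only [ExL, ih, E1_add]

theorem ExL_mul (k : ℕ) (c : ℝ) (F : List (Fin n → Bool) → ℝ) :
    ExL p k (fun l => c * F l) = c * ExL p k F := by
  induction k generalizing F with
  | zero => rfl
  | succ k ih => simp only [ExL, ih, E1_mul]

theorem ExL_const (k : ℕ) (c : ℝ) : ExL p k (fun _ : List (Fin n → Bool) => c) = c := by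
  induction k with
  | zero => rfl
  | succ k ih => simp only [ExL, ih, E1_const]

theorem ExL_mono (h0 : 0 ≤ p) (h1 : p ≤ 1) (k : ℕ) {F G : List (Fin n → Bool) → ℝ}
    (h : ∀ l, l.length = k → F l ≤ G l) : ExL p k F ≤ ExL p k G := by
  induction k generalizing F G with
  | zero => exact h [] rfl
  | succ k ih => exact E1_mono h0 h1 fun a => ih fun l hl => h _ (by simp [hl])

theorem ExL_append (k k' : ℕ) (F : List (Fin n → Bool) → ℝ) :
    ExL p (k + k') F = ExL p k fun l => ExL p k' fun l' => F (l ++ l') := by
  induction k generalizing F with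
  | zero => simp [ExL]
  | succ k ih =>
    rw [Nat.add_right_comm]
    simp only [ExL, ih, List.cons_append]

theorem ExL_sum {ι : Type} (k : ℕ) (s : Finset ι) (F : ι → List (Fin n → Bool) → ℝ) :
    ExL p k (fun l => ∑ i ∈ s, F i l) = ∑ i ∈ s, ExL p k (F i) := by
  classical
  induction s using Finset.induction_on with
  | empty => simpa using ExL_const k 0
  | insert i s hi ih => simp only [sum_insert hi, ExL_add, ih]

theorem ExL_ofFn (m : ℕ) (F : List (Fin n → Bool) → ℝ) :
    ExL p m F = ∑ A : Fin m → Fin n → Bool,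
      (∏ i, ∏ j, if A i j then p else 1 - p) * F (List.ofFn A) := by
  induction m generalizing F with
  | zero => simp [ExL]
  | succ m ih =>
    rw [← (Fin.consEquiv fun _ => Fin n → Bool).sum_comp, Fintype.sum_prod_type]
    simp only [ExL, ih, E1, Fin.consEquiv, Equiv.coe_fn_mk, Fin.prod_univ_succ, Fin.cons_zero,
      Fin.cons_succ, List.ofFn_succ, mul_sum, mul_assoc]

theorem ExL_map {β : Type} [DecidableEq β] (φ : (Fin n → Bool) → β) (e : List β) :
    ExL p e.length (fun l => if l.map φ = e then 1 else 0) =
      (e.map fun z => E1 p fun a => if φ a = z then 1 else 0).prod := by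
  induction e with
  | nil => simp [ExL]
  | cons z e ih =>
    simp only [List.length_cons, ExL, List.map_cons, List.cons.injEq, List.prod_cons]
    rw [← ih, mul_comm, ← E1_mul]
    congr 1
    funext a
    rw [mul_comm, ← ExL_mul]
    congr 1
    funext l
    by_cases h1 : φ a = z <;> by_cases h2 : l.map φ = e <;> simp [h1, h2]

/-- Expectation over the signed sum of independent bits. -/
def T (p : ℝ) : List Bool → (ℤ → ℝ) → ℝ
  | [], F => F 0
  | s :: σ, F => (1 - p) * T p σ F + p * T p σ fun y => F (sg s + y)

theorem T_mul (σ : List Bool) (c : ℝ) (F : ℤ → ℝ) : T p σ (fun y => c * F y) = c * T p σ F := by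
  induction σ generalizing F with
  | nil => rfl
  | cons s σ ih =>
    simp only [T]
    rw [ih, ih fun y => F (sg s + y)]
    ring

theorem T_add (σ : List Bool) (F G : ℤ → ℝ) :
    T p σ (fun y => F y + G y) = T p σ F + T p σ G := by
  induction σ generalizing F G with
  | nil => rfl
  | cons s σ ih =>
    simp only [T]
    rw [ih, ih (fun y => F (sg s + y)) fun y => G (sg s + y)]
    ring

theorem T_const (σ : List Bool) (c : ℝ) : T p σ (fun _ => c) = c := by
  induction σ with
  | nil => rfl
  | cons s σ ih =>
    simp only [T, ih]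
    ring

theorem T_sum {ι : Type} (σ : List Bool) (s : Finset ι) (F : ι → ℤ → ℝ) :
    T p σ (fun y => ∑ i ∈ s, F i y) = ∑ i ∈ s, T p σ (F i) := by
  classical
  induction s using Finset.induction_on with
  | empty => simpa using T_const σ 0
  | insert i s hi ih => simp only [sum_insert hi, T_add, ih]

theorem T_mono (h0 : 0 ≤ p) (h1 : p ≤ 1) (σ : List Bool) {F G : ℤ → ℝ}
    (h : ∀ y, y.natAbs ≤ σ.length → F y ≤ G y) : T p σ F ≤ T p σ G := by
  induction σ generalizing F G with
  | nil => exact h 0 le_rfl
  | cons s σ ih =>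
    have hs : (sg s).natAbs = 1 := by cases s <;> rfl
    refine add_le_add (mul_le_mul_of_nonneg_left (ih fun y hy => h y ?_) (by linarith))
      (mul_le_mul_of_nonneg_left (ih fun y hy => h _ ?_) h0)
    · rw [List.length_cons]; omega
    · rw [List.length_cons]; omega

theorem T_nonneg (h0 : 0 ≤ p) (h1 : p ≤ 1) (σ : List Bool) {F : ℤ → ℝ} (h : ∀ y, 0 ≤ F y) :
    0 ≤ T p σ F := by
  have := T_mono h0 h1 σ (F := fun _ => 0) (G := F) fun y _ => h y
  rwa [T_const] at this

theorem T_append (σ τ : List Bool) (F : ℤ → ℝ) :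
    T p (σ ++ τ) F = T p σ fun y => T p τ fun z => F (y + z) := by
  induction σ generalizing F with
  | nil => simp [T]
  | cons s σ ih => simp only [List.cons_append, T, ih, add_assoc]

theorem T_not (σ : List Bool) (F : ℤ → ℝ) :
    T p (σ.map fun s => !s) F = T p σ fun y => F (-y) := by
  induction σ generalizing F with
  | nil => simp [T]
  | cons s σ ih => simp only [List.map_cons, T, ih, sg_not, neg_add]

theorem T_collision (h0 : 0 ≤ p) (h1 : p ≤ 1) (σ : List Bool) :
    1 / (2 * σ.length + 1 : ℝ) ≤ T p (σ ++ σ.map fun s => !s) fun y => if y = 0 then 1 else 0 := by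
  set S := Finset.Icc (-(σ.length : ℤ)) σ.length with hS
  have hm : ∀ y : ℤ, y.natAbs ≤ σ.length → y ∈ S := fun y hy => by
    simp only [hS, Finset.mem_Icc]; omega
  have h2 : ∑ c ∈ S, (T p σ fun y => if y = c then 1 else 0) ^ 2 ≤
      T p (σ ++ σ.map fun s => !s) fun y => if y = 0 then 1 else 0 := by
    simp only [T_append, T_not, sq]
    simp only [← T_mul, ← T_sum]
    refine T_mono h0 h1 σ fun y hy => ?_
    simp only [mul_comm (T p σ _), ← T_mul, ← T_sum]
    refine T_mono h0 h1 σ fun z hz => ?_
    by_cases h : y = z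
    · simp [h, hm z hz]
    · have h' : y + -z ≠ 0 := by omega
      simp only [h', if_false]
      refine (sum_eq_zero fun c _ => ?_).le
      by_cases e : y = c
      · have : z ≠ c := by omega
        simp [this]
      · simp [e]
  have h3 : (1 : ℝ) ≤ ∑ c ∈ S, T p σ fun y => if y = c then 1 else 0 := by
    rw [← T_sum]
    refine (T_const (p := p) σ 1).symm.trans_le (T_mono h0 h1 σ fun y hy => ?_)
    simp [hm y hy]
  have h4 := sq_sum_le_card_mul_sum_sq (s := S)
    (f := fun c => T p σ fun y => if y = c then 1 else 0)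
  have h5 : (S.card : ℝ) = 2 * σ.length + 1 := by
    have : ((σ.length : ℤ) + 1 - -(σ.length : ℤ)).toNat = 2 * σ.length + 1 := by omega
    rw [hS, Int.card_Icc, this]
    push_cast
    ring
  rw [h5] at h4
  rw [div_le_iff₀ (by positivity)]
  nlinarith [mul_le_mul_of_nonneg_left h2 (show (0 : ℝ) ≤ 2 * σ.length + 1 by positivity)]

theorem sig_head (k : ℕ) : ∃ σ, sig k = true :: σ := by
  induction k with
  | zero => exact ⟨[], rfl⟩
  | succ k ih =>
    obtain ⟨σ, h⟩ := ih
    exact ⟨_, by rw [sig, h, List.cons_append]⟩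

theorem T_sig_zero (h0 : 0 ≤ p) (h1 : p ≤ 1 / 2) (k : ℕ) :
    1 / 2 ^ (k + 2) ≤ T p (sig k) fun y => if y = 0 then 1 else 0 := by
  cases k with
  | zero => simp [sig, T, sg]; linarith
  | succ k =>
    refine le_trans ?_ (T_collision h0 (by linarith) (sig k))
    rw [length_sig]
    refine one_div_le_one_div_of_le (by positivity) ?_
    have : (1 : ℝ) ≤ 2 ^ k := one_le_pow₀ (by norm_num)
    push_cast
    rw [pow_add, pow_add]
    linarith

theorem T_sig_one (h0 : 0 ≤ p) (h1 : p ≤ 1 / 2) (k : ℕ) :
    p / 2 ^ (k + 2) ≤ T p (sig k) fun y => if y = 1 then 1 else 0 := by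
  cases k with
  | zero => simp [sig, T, sg]; linarith
  | succ k =>
    obtain ⟨σ, h⟩ := sig_head k
    have hl : σ.length + 1 = 2 ^ k := by rw [← length_sig, h, List.length_cons]
    have hl' : (σ.length : ℝ) + 1 = 2 ^ k := by exact_mod_cast hl
    have h2 := T_collision h0 (by linarith) σ
    have h3 : (1 - p) * T p (σ ++ σ.map fun s => !s) (fun y => if y = 0 then 1 else 0) ≤
        T p (σ ++ (true :: σ).map fun s => !s) (fun y => if sg true + y = 1 then 1 else 0) := by
      simp only [T_append, ← T_mul]
      refine T_mono h0 (by linarith) σ fun y _ => ?_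
      simp only [List.map_cons, T, sg, cond_true, add_eq_left, T_mul]
      exact le_add_of_nonneg_right (mul_nonneg h0
        (T_nonneg h0 (by linarith) _ fun z => by split_ifs <;> norm_num))
    have h4 : 0 ≤ T p (σ ++ (true :: σ).map fun s => !s) (fun y => if y = 1 then 1 else 0) :=
      T_nonneg h0 (by linarith) _ fun z => by split_ifs <;> norm_num
    have h5 : 1 / (2 * 2 ^ k : ℝ) ≤ 1 / (2 * σ.length + 1 : ℝ) :=
      one_div_le_one_div_of_le (by positivity) (by linarith)
    have h6 : p / 2 ^ (k + 1 + 2) ≤ p * (1 / 2 * (1 / (2 * 2 ^ k))) := by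
      rw [div_eq_mul_one_div]
      refine mul_le_mul_of_nonneg_left ?_ h0
      rw [one_div_mul_one_div, pow_add, pow_add]
      refine one_div_le_one_div_of_le (by positivity) ?_
      have : (0 : ℝ) ≤ 2 ^ k := by positivity
      linarith
    rw [sig, h, List.cons_append, T]
    refine h6.trans (le_add_of_nonneg_of_le (mul_nonneg (by linarith) h4)
      (mul_le_mul_of_nonneg_left (le_trans ?_ h3) h0))
    exact mul_le_mul (by linarith) (h5.trans h2) (by positivity) (by linarith)

theorem val_update (a : Fin n → Bool) (j : Fin n) (b : Bool) {g : Grp}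
    (hj : j.val ∉ g.map Prod.fst) :
    val (List.ofFn (Function.update a j b)) g = val (List.ofFn a) g := by
  unfold val
  congr 1
  refine List.map_congr_left fun e he => ?_
  have h : e.1 ≠ j.val := fun h => hj (List.mem_map.2 ⟨e, he, h⟩)
  congr 1
  by_cases hn : e.1 < n
  · have : (⟨e.1, hn⟩ : Fin n) ≠ j := fun h' => h (congrArg Fin.val h')
    simp [List.getD_eq_getElem?_getD, hn, Function.update_of_ne this]
  · simp [List.getD_eq_getElem?_getD, hn]

/-- Independence of a signed sum from everything that does not look at its columns. -/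
theorem E1_val (g : Grp) (hn : (g.map Prod.fst).Nodup) (hlt : ∀ i ∈ g.map Prod.fst, i < n)
    (F : ℤ → ℝ) (G : (Fin n → Bool) → ℝ)
    (hG : ∀ a (j : Fin n) b, j.val ∈ g.map Prod.fst → G (Function.update a j b) = G a) :
    E1 p (fun a => F (val (List.ofFn a) g) * G a) = T p (g.map Prod.snd) F * E1 p G := by
  induction g generalizing F with
  | nil => simp [T, E1_mul]
  | cons e g ih =>
    rw [List.map_cons, List.nodup_cons] at hn
    have he : e.1 < n := hlt _ (by simp)
    have ih' := fun F => ih hn.2 (fun i hi => hlt i (by simp at hi ⊢; tauto)) F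
      (fun a j b hj => hG a j b (by simp at hj ⊢; tauto))
    have h1 : ∀ (a : Fin n → Bool) (b : Bool),
        (List.ofFn (Function.update a ⟨e.1, he⟩ b)).getD e.1 false = b := fun a b => by
      simp [List.getD_eq_getElem?_getD, he]
    rw [E1_split ⟨e.1, he⟩]
    simp only [val_cons, h1, val_update (j := ⟨e.1, he⟩) _ _ hn.1,
      hG _ ⟨e.1, he⟩ _ (by simp), cond_true, cond_false, zero_add, List.map_cons, T]
    rw [ih' F, ih' fun y => F (sg e.2 + y)]
    ring

/-- Second moment bound for pairwise independent indicators. -/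
theorem ExL_var {ι : Type} (k : ℕ) (I : ι → List (Fin n → Bool) → Prop) [∀ g l, Decidable (I g l)]
    (π : ℝ) (G : List ι) (h1 : ∀ g ∈ G, ExL p k (fun l => if I g l then 1 else 0) = π)
    (h2 : G.Pairwise fun g g' => ExL p k (fun l => if I g l ∧ I g' l then 1 else 0) = π ^ 2) :
    ExL p k (fun l => ((G.countP fun g => decide (I g l) : ℝ) - G.length * π) ^ 2) ≤
      G.length * π := by
  induction G with
  | nil => simp [ExL_const]
  | cons g G ih =>
    rw [List.pairwise_cons] at h2
    have h3 := ih (fun x hx => h1 x (List.mem_cons_of_mem _ hx)) h2.2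
    have hg := h1 g List.mem_cons_self
    have h4 : ∀ H : List ι, (∀ x ∈ H, x ∈ G) → ExL p k (fun l => ((if I g l then 1 else 0) - π) *
        ((H.countP fun g => decide (I g l) : ℝ) - H.length * π)) = 0 := by
      intro H
      induction H with
      | nil => simp [ExL_const]
      | cons x H ih =>
        intro hH
        have e1 := ih fun y hy => hH y (List.mem_cons_of_mem _ hy)
        have e2 := h2.1 x (hH x List.mem_cons_self)
        have e3 := h1 x (List.mem_cons_of_mem _ (hH x List.mem_cons_self))
        have e4 : (fun l => ((if I g l then 1 else 0) - π) *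
            (((x :: H).countP fun g => decide (I g l) : ℝ) - (x :: H).length * π)) =
            fun l => ((if I g l then 1 else 0) - π) *
              ((H.countP fun g => decide (I g l) : ℝ) - H.length * π) +
              ((if I g l ∧ I x l then 1 else 0) + ((-π) * (if I g l then 1 else 0) +
                ((-π) * (if I x l then 1 else 0) + π ^ 2))) := by
          funext l
          by_cases a1 : I g l <;> by_cases a2 : I x l <;> simp [a1, a2] <;> ring
        rw [e4, ExL_add, ExL_add, ExL_add, ExL_add, ExL_mul, ExL_mul, ExL_const, e1, e2, e3, hg]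
        ring
    have e4 : (fun l => (((g :: G).countP fun g => decide (I g l) : ℝ) -
        (g :: G).length * π) ^ 2) =
        fun l => ((G.countP fun g => decide (I g l) : ℝ) - G.length * π) ^ 2 +
          (2 * (((if I g l then 1 else 0) - π) *
            ((G.countP fun g => decide (I g l) : ℝ) - G.length * π)) +
            ((1 - 2 * π) * (if I g l then 1 else 0) + π ^ 2)) := by
      funext l
      by_cases a1 : I g l <;> simp [a1] <;> ring
    rw [e4, ExL_add, ExL_add, ExL_add, ExL_mul, ExL_mul, ExL_const, h4 G fun _ h => h, hg]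
    push_cast [List.length_cons]
    nlinarith [sq_nonneg π]

end Pool.Agent.Lib.MP_29d7aa_lc
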