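import Pool.Agent.Lib.MP_29d7aa_lc.Alg

/-!
Properties of one level and of the whole run.
-/

set_option autoImplicit false

namespace Pool.Agent.Lib.MP_29d7aa_lc

theorem length_flatten_le {W : List Grp} {N : ℕ} (h : ∀ g ∈ W, g.length ≤ N) :
    W.flatten.length ≤ N * W.length := by
  induction W with
  | nil => simp
  | cons g W ih =>
    have h1 := h g List.mem_cons_self
    have h2 := ih fun x hx => h x (List.mem_cons_of_mem _ hx)
    simp only [List.flatten_cons, List.length_append, List.length_cons, mul_add]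
    omega

theorem val_flatten_zero {r : List Bool} {W : List Grp} (h : ∀ g ∈ W, val r g = 0) :
    val r W.flatten = 0 := by
  rw [val_flatten]
  exact List.sum_eq_zero fun z hz => by
    obtain ⟨g, hg, rfl⟩ := List.mem_map.1 hz
    exact h g hg

theorem val_flatten_unit {R : List (List Bool)} {r : List Bool} (hr : r ∈ R) {W : List Grp}
    (hU : ∀ g ∈ W, isU R g = true) (hn : (W.map (pat R)).Nodup) :
    (val r W.flatten).natAbs ≤ 1 := by
  have h1 : ∀ g ∈ W, val r g ≠ 0 → val r g = 1 ∧ ∀ r' ∈ R, r' ≠ r → val r' g = 0 := by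
    intro g hg h
    obtain ⟨r0, R', hp, h1, h0⟩ := isU_spec (hU g hg)
    have hr0 : r = r0 := by
      rcases List.mem_cons.1 (hp.subset hr) with h' | h'
      · exact h'
      · exact absurd (h0 r h') h
    subst hr0
    refine ⟨h1, fun r' hr' hne => ?_⟩
    rcases List.mem_cons.1 (hp.subset hr') with h' | h'
    · exact absurd h' hne
    · exact h0 r' h'
  induction W with
  | nil => simp
  | cons g W ih =>
    rw [List.map_cons, List.nodup_cons] at hn
    rw [List.flatten_cons, val_append]
    by_cases h : val r g = 0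
    · rw [h, zero_add]
      exact ih (fun x hx => hU x (List.mem_cons_of_mem _ hx)) hn.2
        (fun x hx => h1 x (List.mem_cons_of_mem _ hx))
    · have h2 := h1 g List.mem_cons_self h
      rw [val_flatten_zero, h2.1]
      · rfl
      intro g' hg'
      by_contra hc
      have h3 := h1 g' (List.mem_cons_of_mem _ hg') hc
      refine hn.1 (List.mem_map.2 ⟨g', hg', List.map_congr_left fun r' hr' => ?_⟩)
      by_cases e : r' = r
      · rw [e, h2.1, h3.1]
      · rw [h2.2 r' hr' e, h3.2 r' hr' e]

theorem defect_le (R : List (List Bool)) (x : Grp) : defect R x ≤ R.length * x.length := by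
  unfold defect
  induction R with
  | nil => simp
  | cons r R ih =>
    have := natAbs_val_le r x
    simp only [List.map_cons, List.sum_cons, List.length_cons, add_mul]
    omega

/-- The properties of one level. -/
structure StepSpec (R : List (List Bool)) (s t : Grp × List Grp) : Prop where
  ids_eq : (t.1.map Prod.fst : List ℕ) + ids t.2 = (s.1.map Prod.fst : List ℕ) + ids s.2
  pairs : ∀ h ∈ t.2, ∃ g ∈ s.2, ∃ g' ∈ s.2, pat R g = pat R g' ∧ h = g ++ neg g'
  old : ∀ r, (∀ g ∈ s.2, val r g = 0) → val r t.1 = val r s.1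
  len : ∀ N Q : ℕ, (∀ g ∈ s.2, g.length ≤ N) → (2 * N + 1) ^ R.length ≤ Q →
    t.1.length ≤ (s.1.length + N * Q) * (1 + N * R.length) + N * Q
  good : ∀ N Q : ℕ, (∀ g ∈ s.2, g.length ≤ N) → (2 * N + 1) ^ R.length ≤ Q → ∀ r ∈ R,
    s.1.length + N * Q ≤ s.2.countP (fun g => isU R g && decide (val r g = 1)) →
    (val r t.1).natAbs ≤ 1

theorem step_spec (R : List (List Bool)) (s : Grp × List Grp) : StepSpec R s (step R s) := by
  have ha := pairUp_inv R (Q := fun g => g ∈ s.2) (G := s.2.filter fun g => !isU R g)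
    (fun g hg => (List.mem_filter.1 hg).1)
  have hb := fun (N : ℕ) (hN : ∀ g ∈ s.2, g.length ≤ N) => fix_inv R N
    (Q := fun g => g ∈ s.2 ∧ isU R g = true)
    (((pairUp R (s.2.filter fun g => !isU R g)).1.flatMap fun h => h) ++ s.1)
    (U := s.2.filter fun g => isU R g)
    (fun g hg => ⟨List.mem_filter.1 hg, (List.mem_filter.1 hg).2, hN g (List.mem_filter.1 hg).1⟩)
  have hb0 := hb s.2.flatten.length (fun g hg => (List.sublist_flatten_of_mem hg).length_le)
  have hc := pairUp_inv R hb0.keep
  unfold step
  simp only [fm_eq] at *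
  set a := pairUp R (s.2.filter fun g => !isU R g)
  set b := (s.2.filter fun g => isU R g).foldl (fixStep R) (a.1.flatten ++ s.1, [])
  set c := pairUp R b.2
  have hx1 : ∀ N Q : ℕ, (∀ g ∈ s.2, g.length ≤ N) → (2 * N + 1) ^ R.length ≤ Q →
      (a.1.flatten ++ s.1).length ≤ s.1.length + N * Q := by
    intro N Q hN hQ
    have h1 := length_flatten_le (W := a.1) (N := N) fun g hg => hN g (ha.wait g hg)
    have h2 := (length_le_of_nodup (fun g hg => hN g (ha.wait g hg)) ha.nodup).trans hQ
    have h3 := Nat.mul_le_mul_left N h2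
    rw [List.length_append]
    omega
  refine ⟨?_, ?_, ?_, ?_, ?_⟩
  · have h1 := ha.ids_eq
    have h2 := hb0.ids_eq
    have h3 := hc.ids_eq
    have h4 := ids_filter s.2 (fun g => isU R g)
    rw [← h4, ← h1, ids_append]
    simp only [List.map_append, ← Multiset.coe_add] at h2 ⊢
    change ids c.1 + _ + _ = _
    change _ = ids a.1 + _ + _ at h2
    rw [← h3] at h2
    calc _ = (↑(b.1.map Prod.fst) + (ids c.1 + ids c.2)) + ids a.2 := by abel
      _ = _ := by rw [h2]; abel
  · intro h hh
    rcases List.mem_append.1 hh with hh | hh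
    · obtain ⟨g, g', h1, h2, h3, h4⟩ := ha.pairs h hh
      exact ⟨g, h1, g', h2, h3, h4⟩
    · obtain ⟨g, g', h1, h2, h3, h4⟩ := hc.pairs h hh
      exact ⟨g, h1.1, g', h2.1, h3, h4⟩
  · intro r hr
    rw [val_append, val_flatten_zero fun g hg => hr g (hc.wait g hg).1, zero_add,
      hb0.old r fun g hg => hr g hg.1, val_append,
      val_flatten_zero fun g hg => hr g (ha.wait g hg), zero_add]
  · intro N Q hN hQ
    have h1 := length_flatten_le (W := c.1) (N := N) fun g hg => hN g (hc.wait g hg).1
    have h2 := (length_le_of_nodup (fun g hg => hN g (hc.wait g hg).1) hc.nodup).trans hQ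
    have h3 := Nat.mul_le_mul_left N h2
    have h4 := (hb N hN).len
    have h5 := hx1 N Q hN hQ
    have h6 := Nat.mul_le_mul_left N ((defect_le R (a.1.flatten ++ s.1)).trans
      (Nat.mul_le_mul_left _ h5))
    have h7 : (s.1.length + N * Q) * (1 + N * R.length) =
        s.1.length + N * Q + N * (R.length * (s.1.length + N * Q)) := by ring
    rw [List.length_append]
    omega
  · intro N Q hN hQ r hr hcount
    have h1 := hb0.dec r hr
    have h2 := (natAbs_val_le r _).trans (hx1 N Q hN hQ)
    rw [List.countP_filter] at h1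
    have h3 : s.2.countP (fun g => decide (val r g = 1) && isU R g) =
        s.2.countP (fun g => isU R g && decide (val r g = 1)) := by
      simp only [Bool.and_comm]
    have h4 : val r b.1 = 0 := by omega
    rw [val_append, h4, add_zero]
    exact val_flatten_unit hr (fun g hg => (hc.wait g hg).2) hc.nodup

theorem StepSpec.zero {R : List (List Bool)} {s t : Grp × List Grp} (h : StepSpec R s t)
    {r : List Bool} (hr : r ∈ R ∨ ∀ g ∈ s.2, val r g = 0) : ∀ g ∈ t.2, val r g = 0 := by
  intro x hx
  obtain ⟨g, hg, g', hg', h1, rfl⟩ := h.pairs x hx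
  rcases hr with hr | hr
  · simp [val_eq_of_pat h1 hr]
  · simp [hr g hg, hr g' hg']

theorem StepSpec.sig {R : List (List Bool)} {s t : Grp × List Grp} (h : StepSpec R s t)
    {k : ℕ} (hs : ∀ g ∈ s.2, g.map Prod.snd = sig k) :
    ∀ g ∈ t.2, g.map Prod.snd = Pool.Agent.Lib.MP_29d7aa_lc.sig (k + 1) := by
  intro x hx
  obtain ⟨g, hg, g', hg', -, rfl⟩ := h.pairs x hx
  rw [List.map_append, snd_neg, hs g hg, hs g' hg']
  rfl

theorem run_old (bs : List ℕ) (A : List (List Bool)) (s : Grp × List Grp) {r : List Bool}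
    (hr : ∀ g ∈ s.2, val r g = 0) : val r (run bs A s) = val r s.1 := by
  induction bs generalizing A s with
  | nil => rw [run, fm_eq, val_append, val_flatten_zero hr, zero_add]
  | cons b bs ih =>
    have h := step_spec (A.take b) s
    rw [run, ih _ _ (h.zero (Or.inr hr)), h.old r hr]

theorem run_ids (bs : List ℕ) (A : List (List Bool)) (s : Grp × List Grp) :
    ((run bs A s).map Prod.fst : Multiset ℕ) = (s.1.map Prod.fst : List ℕ) + ids s.2 := by
  induction bs generalizing A s with
  | nil =>
    rw [run, fm_eq, List.map_append, ← Multiset.coe_add, add_comm]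
    rfl
  | cons b bs ih => rw [run, ih, (step_spec (A.take b) s).ids_eq]

end Pool.Agent.Lib.MP_29d7aa_lc
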