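import Pool.Agent.Lib.MP_29d7aa_lc.LowMain

/-!
Instability of every rule that finds a colouring of small discrepancy: an overlap gap along a
doubling chain of resamplings.
-/

set_option autoImplicit false

noncomputable section

namespace Pool.Agent.Lib.MP_29d7aa_lc.Str

open Finset Classical Pool.Agent.Lib.MP_29d7aa_lc.Low

theorem chain_aux {X : Type} [Fintype X] (w : X → ℝ) (hw : ∀ a, 0 ≤ w a) (hw1 : ∑ a, w a = 1)
    (T : ℕ → X → X → ℝ) (hT0 : ∀ j a b, 0 ≤ T j a b) (hT1 : ∀ j a, ∑ b, T j a b = 1)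
    (hTs : ∀ j a b, w a * T j a b = w b * T j b a)
    (hT2 : ∀ j a c, T (j + 1) a c = ∑ b, T j a b * T j b c)
    (S : X → Prop) [DecidablePred S] (d : X → X → ℝ) (hd : ∀ a b, d a b = d b a)
    (hd3 : ∀ a b c, d a c ≤ d a b + d b c) (k G : ℝ) (N : ℕ)
    (hG : ∀ j ≤ N, ∑ a, ∑ b, w a * T j a b *
      (if S a ∧ S b ∧ k < d a b ∧ d a b ≤ 2 * k then 1 else 0) ≤ G) (j : ℕ) (hj : j ≤ N) :
    ∃ K : X → X → ℝ, (∀ a b, 0 ≤ K a b) ∧
      (∀ a b, K a b ≤ T j a b * if S a ∧ S b then 1 else 0) ∧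
      (∀ a b, w a * K a b = w b * K b a) ∧
      (∑ a, ∑ b, w a * T 0 a b * (if S a ∧ S b ∧ d a b ≤ k then 1 else 0)) ^ 2 ^ j ≤
        ∑ a, ∑ b, w a * K a b ∧
      ∑ a, ∑ b, w a * K a b * (if k < d a b then 1 else 0) ≤ (2 ^ j - 1) * G := by
  induction j with
  | zero =>
    refine ⟨fun a b => T 0 a b * (if S a ∧ S b ∧ d a b ≤ k then 1 else 0), fun a b => ?_,
      fun a b => ?_, fun a b => ?_, ?_, ?_⟩
    · exact mul_nonneg (hT0 _ _ _) (by split_ifs <;> norm_num)
    · refine mul_le_mul_of_nonneg_left ?_ (hT0 _ _ _)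
      by_cases h : S a ∧ S b ∧ d a b ≤ k
      · rw [if_pos h, if_pos ⟨h.1, h.2.1⟩]
      · rw [if_neg h]
        split_ifs <;> norm_num
    · rw [← mul_assoc, ← mul_assoc, hTs 0 a b, hd b a]
      congr 2
      exact propext (by tauto)
    · simp only [pow_zero, pow_one, mul_assoc, le_refl]
    · rw [pow_zero, sub_self, zero_mul]
      refine le_of_eq (sum_eq_zero fun a _ => sum_eq_zero fun b _ => ?_)
      by_cases h : k < d a b
      · simp [not_le.2 h]
      · rw [if_neg h, mul_zero]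
  | succ j ih =>
    obtain ⟨K, k0, k1, k2, k3, k4⟩ := ih (by omega)
    have k5 : ∀ a b, K a b ≤ T j a b := fun a b => (k1 a b).trans
      (mul_le_of_le_one_right (hT0 _ _ _) (by split_ifs <;> norm_num))
    have k6 : ∀ a b, ¬(S a ∧ S b) → K a b = 0 := fun a b h =>
      le_antisymm (by simpa [h] using k1 a b) (k0 a b)
    have r1 : ∀ a, ∑ b, K a b ≤ 1 := fun a => (sum_le_sum fun b _ => k5 a b).trans_eq (hT1 j a)
    have r0 : ∀ a, 0 ≤ ∑ b, K a b := fun a => sum_nonneg fun b _ => k0 a b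
    have n1 : ∀ a c, ∑ b, K a b * K b c ≤ T (j + 1) a c * if S a ∧ S c then 1 else 0 := by
      intro a c
      split_ifs with h
      · rw [mul_one, hT2]
        exact sum_le_sum fun b _ => mul_le_mul (k5 a b) (k5 b c) (k0 b c) (hT0 _ _ _)
      · rw [mul_zero]
        refine le_of_eq (sum_eq_zero fun b _ => ?_)
        by_cases h' : S a ∧ S b
        · rw [k6 b c fun h'' => h ⟨h'.1, h''.2⟩, mul_zero]
        · rw [k6 a b h', zero_mul]
    have n2 : ∀ a c, w a * ∑ b, K a b * K b c = ∑ b, w b * (K b a * K b c) := fun a c => by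
      rw [mul_sum]
      exact sum_congr rfl fun b _ => by rw [← mul_assoc, k2, mul_assoc]
    refine ⟨fun a c => ∑ b, K a b * K b c, fun a c => sum_nonneg fun b _ =>
      mul_nonneg (k0 _ _) (k0 _ _), n1, fun a c => ?_, ?_, ?_⟩
    · rw [n2, n2]
      exact sum_congr rfl fun b _ => by ring
    · have e1 : ∑ a, ∑ c, w a * ∑ b, K a b * K b c = ∑ b, w b * (∑ c, K b c) ^ 2 := by
        simp only [n2]
        rw [sum_congr rfl fun a _ => sum_comm, sum_comm]
        refine sum_congr rfl fun b _ => ?_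
        rw [sq, sum_mul_sum, mul_sum]
        exact sum_congr rfl fun a _ => by rw [mul_sum]
      have e2 := jensen (P := fun b => ∑ c, K b c) (E := fun b => (∑ c, K b c) ^ 2) (a := 1)
        (b := 0) hw hw1 fun b => by simp
      rw [e1, pow_succ, pow_mul]
      simp only [← mul_sum] at k3
      refine le_trans (pow_le_pow_left₀ (pow_nonneg (sum_nonneg fun a _ => ?_) _) ?_ 2)
        (by simpa using e2)
      · exact sum_nonneg fun b _ => mul_nonneg (mul_nonneg (hw _) (hT0 _ _ _))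
          (by split_ifs <;> norm_num)
      · simpa only [mul_assoc, ← mul_sum] using k3
    · have e1 : ∀ a c, (w a * ∑ b, K a b * K b c) * (if k < d a c then 1 else 0) ≤
          ∑ b, w a * K a b * (if k < d a b then 1 else 0) * K b c +
          ∑ b, w b * K b c * (if k < d b c then 1 else 0) * K b a +
          w a * T (j + 1) a c * (if S a ∧ S c ∧ k < d a c ∧ d a c ≤ 2 * k then 1 else 0) := by
        intro a c
        have e2 : (w a * ∑ b, K a b * K b c) * (if k < d a c ∧ d a c ≤ 2 * k then 1 else 0) ≤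
            w a * T (j + 1) a c * (if S a ∧ S c ∧ k < d a c ∧ d a c ≤ 2 * k then 1 else 0) := by
          refine le_trans (mul_le_mul_of_nonneg_right (mul_le_mul_of_nonneg_left (n1 a c) (hw a))
            (by split_ifs <;> norm_num)) (le_of_eq ?_)
          by_cases h1 : S a <;> by_cases h2 : S c <;> simp [h1, h2]
        refine le_trans ?_ (add_le_add_right e2 _)
        rw [mul_sum, sum_mul, sum_mul, ← sum_add_distrib, ← sum_add_distrib]
        refine sum_le_sum fun b _ => ?_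
        have e3 : w b * K b c * (if k < d b c then 1 else 0) * K b a =
            w a * (K a b * K b c) * (if k < d b c then 1 else 0) := by
          rw [← mul_assoc, k2 a b]
          ring
        have e4 : 0 ≤ w a * (K a b * K b c) := mul_nonneg (hw a) (mul_nonneg (k0 _ _) (k0 _ _))
        have e5 : (if k < d a c then (1 : ℝ) else 0) ≤ (if k < d a b then 1 else 0) +
            (if k < d b c then 1 else 0) + (if k < d a c ∧ d a c ≤ 2 * k then 1 else 0) := by
          have := hd3 a b c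
          by_cases h1 : k < d a b <;> by_cases h2 : k < d b c <;> by_cases h3 : k < d a c <;>
            by_cases h4 : d a c ≤ 2 * k <;> simp [h1, h2, h3, h4]
          linarith [not_lt.1 h1, not_lt.1 h2, not_le.1 h4]
        rw [e3]
        nlinarith [mul_le_mul_of_nonneg_left e5 e4]
      refine (sum_le_sum fun a _ => sum_le_sum fun c _ => e1 a c).trans ?_
      simp only [sum_add_distrib]
      have i0 : ∀ a b, 0 ≤ w a * K a b * (if k < d a b then 1 else 0) := fun a b =>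
        mul_nonneg (mul_nonneg (hw _) (k0 _ _)) (by split_ifs <;> norm_num)
      have e6 : ∑ a, ∑ c, ∑ b, w a * K a b * (if k < d a b then 1 else 0) * K b c ≤
          ∑ a, ∑ b, w a * K a b * (if k < d a b then 1 else 0) := by
        refine sum_le_sum fun a _ => ?_
        rw [sum_comm]
        refine sum_le_sum fun b _ => ?_
        rw [← mul_sum]
        exact mul_le_of_le_one_right (i0 a b) (r1 b)
      have e7 : ∑ a, ∑ c, ∑ b, w b * K b c * (if k < d b c then 1 else 0) * K b a ≤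
          ∑ b, ∑ c, w b * K b c * (if k < d b c then 1 else 0) := by
        rw [sum_comm, sum_congr rfl fun c _ => sum_comm, sum_comm]
        refine sum_le_sum fun b _ => sum_le_sum fun c _ => ?_
        rw [← mul_sum]
        exact mul_le_of_le_one_right (i0 b c) (r1 b)
      have e8 := hG (j + 1) hj
      rw [pow_succ]
      linarith

theorem chain {X : Type} [Fintype X] (w : X → ℝ) (hw : ∀ a, 0 ≤ w a) (hw1 : ∑ a, w a = 1)
    (T : ℕ → X → X → ℝ) (hT0 : ∀ j a b, 0 ≤ T j a b) (hT1 : ∀ j a, ∑ b, T j a b = 1)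
    (hTs : ∀ j a b, w a * T j a b = w b * T j b a)
    (hT2 : ∀ j a c, T (j + 1) a c = ∑ b, T j a b * T j b c)
    (S : X → Prop) [DecidablePred S] (d : X → X → ℝ) (hd : ∀ a b, d a b = d b a)
    (hd3 : ∀ a b c, d a c ≤ d a b + d b c) (k G : ℝ) (hG0 : 0 ≤ G) (N : ℕ)
    (hG : ∀ j ≤ N, ∑ a, ∑ b, w a * T j a b *
      (if S a ∧ S b ∧ k < d a b ∧ d a b ≤ 2 * k then 1 else 0) ≤ G) :
    (∑ a, ∑ b, w a * T 0 a b * (if S a ∧ S b ∧ d a b ≤ k then 1 else 0)) ^ 2 ^ N ≤
      2 ^ N * G + ∑ a, ∑ b, w a * T N a b * (if S a ∧ S b ∧ d a b ≤ k then 1 else 0) := by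
  obtain ⟨K, k0, k1, -, k3, k4⟩ := chain_aux w hw hw1 T hT0 hT1 hTs hT2 S d hd hd3 k G N hG N le_rfl
  have e : ∑ a, ∑ b, w a * K a b ≤ ∑ a, ∑ b, (w a * K a b * (if k < d a b then 1 else 0) +
      w a * T N a b * (if S a ∧ S b ∧ d a b ≤ k then 1 else 0)) := by
    refine sum_le_sum fun a _ => sum_le_sum fun b _ => ?_
    have e1 := mul_le_mul_of_nonneg_left (k1 a b) (hw a)
    have e2 := mul_nonneg (hw a) (hT0 N a b)
    by_cases h : k < d a b
    · simp [h, not_le.2 h]
    · by_cases h1 : S a <;> by_cases h2 : S b <;> simpa [h, not_lt.1 h, h1, h2] using e1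
  simp only [sum_add_distrib] at e
  linarith

variable {m n : ℕ} {p ε : ℝ}

/-- The weight of a row of independent bits with biases `q`. -/
def pw (q : Fin n → ℝ) (b : Fin n → Bool) : ℝ := ∏ j, pr (q j) (b j)

theorem pr_nonneg (h0 : 0 ≤ p) (h1 : p ≤ 1) (b : Bool) : 0 ≤ pr p b := by
  unfold pr
  split_ifs <;> linarith

theorem pw_nonneg {q : Fin n → ℝ} (h0 : ∀ j, 0 ≤ q j) (h1 : ∀ j, q j ≤ 1) (b : Fin n → Bool) :
    0 ≤ pw q b := prod_nonneg fun j _ => pr_nonneg (h0 j) (h1 j) _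

theorem pw_sum (q : Fin n → ℝ) : ∑ b, pw q b = 1 := by
  rw [show ∑ b, pw q b = ∏ j, ∑ b, pr (q j) b from (Fintype.prod_sum fun j b => pr (q j) b).symm]
  simp [pr]

theorem norm_bit {q α : ℝ} (h0 : 0 ≤ q) (h1 : q ≤ 1) (hα : |α| ≤ 1) :
    ‖∑ b : Bool, (pr q b : ℂ) * Complex.exp (((if b then α else 0 : ℝ) : ℂ) * Complex.I)‖ ≤
      Real.exp (-(α ^ 2 / 5 * (q * (1 - q)))) := by
  have h2 := Real.cos_le_one_sub_mul_cos_sq (x := α) (hα.trans (by linarith [Real.pi_gt_three]))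
  have h3 : 1 / 5 ≤ 2 / Real.pi ^ 2 := by
    rw [div_le_div_iff₀ (by norm_num) (by positivity)]
    nlinarith [Real.pi_lt_d2, Real.pi_pos]
  have h4 : 0 ≤ q * (1 - q) := mul_nonneg h0 (by linarith)
  have h5 : α ^ 2 / 5 ≤ 1 - Real.cos α := by nlinarith [sq_nonneg α]
  refine abs_le_of_sq_le_sq' ?_ (Real.exp_pos _).le |>.2
  rw [Complex.sq_norm, Complex.normSq_apply, ← Real.exp_nat_mul]
  refine le_trans ?_ (Real.add_one_le_exp _)
  simp [pr, Complex.exp_ofReal_mul_I_re, Complex.exp_ofReal_mul_I_im]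
  nlinarith [Real.sin_sq_add_cos_sq α, mul_le_mul_of_nonneg_left h5 h4]

theorem anti (q c : Fin n → ℝ) (h0 : ∀ j, 0 ≤ q j) (h1 : ∀ j, q j ≤ 1) (hc : ∀ j, |c j| ≤ 2)
    (z : ℝ) {l : ℝ} (hl : 1 ≤ l) :
    ∑ b, pw q b * (if |∑ j, (if b j then c j else 0) - z| ≤ l then 1 else 0) ≤
      8 / 15 * (1 + Real.exp (-((∑ j, c j ^ 2 * (q j * (1 - q j))) / (20 * l ^ 2)))) := by
  obtain ⟨θ, hθ⟩ : ∃ θ : ℝ, θ = 1 / (2 * l) := ⟨_, rfl⟩
  have t0 : 0 < θ := by rw [hθ]; positivity
  have t1 : θ * l = 1 / 2 := by rw [hθ]; field_simp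
  have t2 : θ ≤ 1 / 2 := by nlinarith
  have e1 : ∑ b, (pw q b : ℂ) * Complex.exp (((θ * (∑ j, (if b j then c j else 0) - z) : ℝ) : ℂ) *
      Complex.I) = Complex.exp (((-(θ * z) : ℝ) : ℂ) * Complex.I) * ∏ j, ∑ b : Bool,
        (pr (q j) b : ℂ) * Complex.exp (((if b then θ * c j else 0 : ℝ) : ℂ) * Complex.I) := by
    rw [Fintype.prod_sum, mul_sum]
    refine sum_congr rfl fun b _ => ?_
    rw [prod_mul_distrib, ← Complex.exp_sum, mul_left_comm, ← Complex.exp_add, pw,
      Complex.ofReal_prod, ← sum_mul, ← add_mul, ← Complex.ofReal_sum, ← Complex.ofReal_add]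
    congr 4
    rw [mul_sub, mul_sum]
    simp only [mul_ite, mul_zero]
    exact sub_eq_neg_add _ _
  have e2 : ∑ b, pw q b * Real.cos (θ * (∑ j, (if b j then c j else 0) - z)) ≤
      Real.exp (-((∑ j, c j ^ 2 * (q j * (1 - q j))) / (20 * l ^ 2))) := by
    have e3 := congrArg Complex.re e1
    simp only [Complex.re_sum, Complex.re_ofReal_mul, Complex.exp_ofReal_mul_I_re] at e3
    rw [e3]
    refine (Complex.re_le_norm _).trans ?_
    rw [norm_mul, Complex.norm_exp_ofReal_mul_I, one_mul, norm_prod]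
    refine (prod_le_prod (fun j _ => norm_nonneg _) fun j _ => norm_bit (h0 j) (h1 j) ?_).trans
      (le_of_eq ?_)
    · rw [abs_mul, abs_of_pos t0]
      nlinarith [hc j, abs_nonneg (c j)]
    · rw [← Real.exp_sum, sum_div, ← sum_neg_distrib]
      congr 1
      refine sum_congr rfl fun j _ => ?_
      rw [hθ]
      field_simp
      ring
  calc _ ≤ ∑ b, pw q b * (8 / 15 * (1 + Real.cos (θ * (∑ j, (if b j then c j else 0) - z)))) := by
        refine sum_le_sum fun b _ => mul_le_mul_of_nonneg_left ?_ (pw_nonneg h0 h1 b)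
        generalize ∑ j, (if b j then c j else 0) - z = s
        split_ifs with h
        · have a1 := Real.one_sub_sq_div_two_le_cos (x := θ * s)
          have a2 : |θ * s| ≤ 1 / 2 := by
            rw [abs_mul, abs_of_pos t0]
            nlinarith
          have a3 := sq_le_sq' (abs_le.1 a2).1 (abs_le.1 a2).2
          linarith
        · linarith [Real.neg_one_le_cos (θ * s)]
    _ = 8 / 15 * (1 + ∑ b, pw q b * Real.cos (θ * (∑ j, (if b j then c j else 0) - z))) := by
        simp only [mul_left_comm (pw q _), ← mul_sum, mul_add (pw q _), sum_add_distrib, mul_one,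
          pw_sum]
    _ ≤ _ := by linarith

theorem pw_pair (q : Fin n → ℝ) (j l : Fin n) :
    ∑ b, pw q b * (((if b j then 1 else 0) - q j) * ((if b l then 1 else 0) - q l)) =
      if j = l then q j * (1 - q j) else 0 := by
  have h : ∀ b : Fin n → Bool,
      pw q b * (((if b j then 1 else 0) - q j) * ((if b l then 1 else 0) - q l)) =
      ∏ i, pr (q i) (b i) * ((if i = j then (if b i then 1 else 0) - q i else 1) *
        if i = l then (if b i then 1 else 0) - q i else 1) := by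
    intro b
    simp only [prod_mul_distrib, prod_ite_eq', mem_univ, if_true, pw]
  simp only [h]
  rw [← Fintype.prod_sum fun i b => pr (q i) b * ((if i = j then (if b then 1 else 0) - q i else 1) *
    if i = l then (if b then 1 else 0) - q i else 1)]
  split_ifs with hjl
  · subst hjl
    rw [prod_eq_single j]
    · simp [pr]
      ring
    · intro i _ hi
      simp [pr, hi]
    · simp
  · refine prod_eq_zero (mem_univ j) ?_
    simp [pr, hjl]
    ring

theorem pw_var (q c : Fin n → ℝ) :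
    ∑ b, pw q b * (∑ j, c j * ((if b j then 1 else 0) - q j)) ^ 2 =
      ∑ j, c j ^ 2 * (q j * (1 - q j)) := by
  simp only [sq, sum_mul_sum]
  simp only [mul_sum]
  rw [sum_comm]
  refine sum_congr rfl fun j _ => ?_
  rw [sum_comm, sum_congr rfl fun l _ => show ∑ b : Fin n → Bool, pw q b *
    (c j * ((if b j then 1 else 0) - q j) * (c l * ((if b l then 1 else 0) - q l))) =
      if j = l then c j * c l * (q j * (1 - q j)) else 0 from ?_]
  · simp
  · rw [show (if j = l then c j * c l * (q j * (1 - q j)) else 0) =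
      c j * c l * if j = l then q j * (1 - q j) else 0 by simp, ← pw_pair, mul_sum]
    exact sum_congr rfl fun b _ => by ring

theorem pw_mean (q : Fin n → ℝ) (j : Fin n) : ∑ b, pw q b * (if b j then 1 else 0) = q j := by
  have h : ∀ b : Fin n → Bool, pw q b * (if b j then 1 else 0) =
      ∏ i, pr (q i) (b i) * (if i = j then (if b i then 1 else 0) else 1) := by
    intro b
    simp only [prod_mul_distrib, prod_ite_eq', mem_univ, if_true, pw]
  simp only [h]
  rw [← Fintype.prod_sum fun i b => pr (q i) b * (if i = j then (if b then 1 else 0) else 1),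
    prod_eq_single j]
  · simp [pr]
  · intro i _ hi
    simp [pr, hi]
  · simp

/-- The bias of a resampled bit given the original bit. -/
def cq (p ε : ℝ) (a : Bool) : ℝ := if a then 1 - ε + ε * p else ε * p

theorem kap_eq (a b : Bool) : kap p ε a b = pr p a * pr (cq p ε a) b := by
  cases a <;> cases b <;> simp [kap, pr, cq] <;> exact Or.inl (by ring)

theorem cq_comp (a c : Bool) :
    ∑ b, pr (cq p ε a) b * pr (cq p ε b) c = pr (cq p (1 - (1 - ε) ^ 2) a) c := by
  cases a <;> cases c <;> simp [pr, cq] <;> ring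

theorem cq_nonneg (h0 : 0 ≤ p) (h2 : 0 ≤ ε) (h3 : ε ≤ 1) (a : Bool) : 0 ≤ cq p ε a := by
  have := mul_nonneg h2 h0
  unfold cq
  split_ifs <;> linarith

theorem cq_le (h1 : p ≤ 1) (h2 : 0 ≤ ε) (h3 : ε ≤ 1) (a : Bool) : cq p ε a ≤ 1 := by
  have := mul_le_mul_of_nonneg_left h1 h2
  unfold cq
  split_ifs <;> linarith

theorem J_eq (F : Mat m n → Mat m n → ℝ) : J p ε F = ∑ A, ∑ B, (∏ i, pw (fun _ => p) (A i)) *
    (∏ i, pw (fun j => cq p ε (A i j)) (B i)) * F A B := by
  simp only [J, kap_eq, prod_mul_distrib, pw]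

theorem J_cond (h0 : 0 ≤ p) (h1 : p ≤ 1) (h2 : 0 ≤ ε) (h3 : ε ≤ 1)
    (φ : Mat m n → Fin m → (Fin n → Bool) → ℝ) (ψ : (Fin n → Bool) → ℝ)
    (hφ : ∀ A i b, 0 ≤ φ A i b)
    (h : ∀ A i, ∑ b, pw (fun j => cq p ε (A i j)) b * φ A i b ≤ ψ (A i)) :
    J p ε (fun A B => ∏ i, φ A i (B i)) ≤ (∑ a, pw (fun _ => p) a * ψ a) ^ m := by
  rw [J_eq, ← Fin.prod_const, Fintype.prod_sum]
  refine sum_le_sum fun A _ => ?_
  simp only [mul_assoc, ← mul_sum, prod_mul_distrib]
  refine mul_le_mul_of_nonneg_left ?_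
    (prod_nonneg fun i _ => pw_nonneg (fun _ => h0) (fun _ => h1) _)
  simp only [← prod_mul_distrib]
  rw [← Fintype.prod_sum fun i b => pw (fun j => cq p ε (A i j)) b * φ A i b]
  exact prod_le_prod (fun i _ => sum_nonneg fun b _ => mul_nonneg (pw_nonneg
    (fun _ => cq_nonneg h0 h2 h3 _) (fun _ => cq_le h1 h2 h3 _) _) (hφ _ _ _)) fun i _ => h A i

theorem J_snd (u : (Fin n → Bool) → ℝ) :
    J p ε (fun _ B : Mat m n => ∏ i, u (B i)) = (∑ b, pw (fun _ => p) b * u b) ^ m := by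
  rw [J_right, ← Fin.prod_const, Fintype.prod_sum]
  simp only [Ex, pw, prod_mul_distrib]

/-- Differences of two colourings with support at most `r`. -/
def cs (n : ℕ) (r : ℝ) : Finset (Fin n → ℤ) :=
  (Fintype.piFinset fun _ => ({-2, 0, 2} : Finset ℤ)).filter fun c =>
    ((univ.filter fun j => c j ≠ 0).card : ℝ) ≤ r

theorem cs_card (hn : 1 ≤ n) (r : ℝ) : ((cs n r).card : ℝ) ≤ Real.exp (r * Real.log n + 2) := by
  have hn' : (1 : ℝ) ≤ n := by exact_mod_cast hn
  have h1 : ∀ c ∈ cs n r, (1 : ℝ) ≤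
      Real.exp (r * Real.log n) * ∏ j, if c j ≠ 0 then 1 / (n : ℝ) else 1 := by
    intro c hc
    rw [prod_ite, prod_const_one, mul_one, prod_const, one_div, ← Real.exp_log (x := n) (by linarith),
      ← Real.exp_neg, ← Real.exp_nat_mul, Real.log_exp, ← Real.exp_add]
    refine Real.one_le_exp ?_
    nlinarith [(mem_filter.1 hc).2, Real.log_nonneg hn']
  calc ((cs n r).card : ℝ) = ∑ c ∈ cs n r, 1 := by simp
    _ ≤ ∑ c ∈ cs n r, Real.exp (r * Real.log n) * ∏ j, if c j ≠ 0 then 1 / (n : ℝ) else 1 :=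
        sum_le_sum h1
    _ ≤ ∑ c ∈ Fintype.piFinset fun _ : Fin n => ({-2, 0, 2} : Finset ℤ),
        Real.exp (r * Real.log n) * ∏ j, if c j ≠ 0 then 1 / (n : ℝ) else 1 :=
        sum_le_sum_of_subset_of_nonneg (filter_subset _ _) fun c _ _ => mul_nonneg
          (Real.exp_pos _).le (prod_nonneg fun j _ => by split_ifs <;> positivity)
    _ = Real.exp (r * Real.log n) * ∏ _j : Fin n, (1 + 2 / (n : ℝ)) := by
        rw [← mul_sum, ← prod_univ_sum (fun _ : Fin n => ({-2, 0, 2} : Finset ℤ))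
          fun _ v => if v ≠ 0 then 1 / (n : ℝ) else 1]
        congr 2
        funext j
        rw [sum_insert (by norm_num), sum_insert (by norm_num), sum_singleton]
        simp
        ring
    _ ≤ _ := by
        rw [Real.exp_add]
        refine mul_le_mul_of_nonneg_left ((Real.prod_one_add_le_exp_sum _ fun _ => by
          positivity).trans (le_of_eq ?_)) (Real.exp_pos _).le
        rw [sum_const, card_univ, Fintype.card_fin, nsmul_eq_mul]
        congr 1
        field_simp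

theorem sub_mem {x y : Fin n → ℤ} (hx : ∀ j, x j = 1 ∨ x j = -1) (hy : ∀ j, y j = 1 ∨ y j = -1)
    {r : ℝ} (h : (hammingDist x y : ℝ) ≤ r) : (fun j => y j - x j) ∈ cs n r ∧
      (univ.filter fun j => y j - x j ≠ 0).card = hammingDist x y := by
  have e : (univ.filter fun j => y j - x j ≠ 0).card = hammingDist x y := by
    unfold hammingDist
    congr 1
    ext j
    simp [sub_eq_zero, eq_comm]
  refine ⟨mem_filter.2 ⟨Fintype.mem_piFinset.2 fun j => ?_, by rw [e]; exact h⟩, e⟩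
  rcases hx j with h | h <;> rcases hy j with h' | h' <;> simp [h, h']

theorem rs_cast (b : Fin n → Bool) (x : Fin n → ℤ) :
    ((|rs b x| : ℤ) : ℝ) = |∑ j, if b j then (x j : ℝ) else 0| := by
  simp [rs]

theorem fin_step {Δ : ℝ} (x : Mat m n → Fin n → ℤ) (hx : ∀ A j, x A j = 1 ∨ x A j = -1)
    (hn : 1 ≤ n) (h0 : 0 ≤ p) (h1 : p ≤ 1 / 2) (h2 : 0 ≤ ε) (h3 : ε ≤ 1) (hΔ : 1 ≤ Δ)
    (hV : 20 * Δ ^ 2 ≤ ε * p * n) (k : ℝ) :
    J p ε (fun A B => if (∀ i, ((|rs (B i) (x B)| : ℤ) : ℝ) ≤ Δ) ∧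
      (hammingDist (x A) (x B) : ℝ) ≤ k then 1 else 0) ≤
      Real.exp (k * Real.log n + 2) * (9 / 10) ^ m := by
  have h1' : p ≤ 1 := by linarith
  refine (J_mono h0 h1' h2 h3 (G := fun A B => ∑ c ∈ cs n k, ∏ i,
    if |∑ j, (if B i j then (if c j = 0 then (x A j : ℝ) else -x A j) else 0) - 0| ≤ Δ
      then 1 else 0) fun A B => ?_).trans ?_
  · have a0 : ∀ c ∈ cs n k, (0 : ℝ) ≤ ∏ i,
        if |∑ j, (if B i j then (if c j = 0 then (x A j : ℝ) else -x A j) else 0) - 0| ≤ Δ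
          then 1 else 0 := fun c _ => prod_nonneg fun i _ => by split_ifs <;> norm_num
    split_ifs with h
    · refine le_trans (le_of_eq (prod_eq_one fun i _ => if_pos ?_).symm)
        (single_le_sum a0 (sub_mem (hx A) (hx B) h.2).1)
      have := h.1 i
      rw [rs_cast] at this
      rw [sub_zero]
      refine le_trans (le_of_eq ?_) this
      congr 1
      refine sum_congr rfl fun j _ => ?_
      rcases hx A j with h | h <;> rcases hx B j with h' | h' <;> simp [h, h']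
    · exact sum_nonneg a0
  · rw [J_sum]
    refine (sum_le_card_nsmul _ _ ((9 / 10) ^ m) fun c _ => ?_).trans ?_
    · refine (J_cond h0 h1' h2 h3 (fun A i b =>
        if |∑ j, (if b j then (if c j = 0 then (x A j : ℝ) else -x A j) else 0) - 0| ≤ Δ
          then 1 else 0) (fun _ => 9 / 10) (fun A i b => by split_ifs <;> norm_num)
          fun A i => ?_).trans_eq (by rw [← sum_mul, pw_sum, one_mul])
      have a1 : ∀ j, (if c j = 0 then (x A j : ℝ) else -x A j) ^ 2 = 1 := fun j => by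
        rcases hx A j with h | h <;> simp [h]
      refine (anti _ _ (fun _ => cq_nonneg h0 h2 h3 _) (fun _ => cq_le h1' h2 h3 _)
        (fun j => ?_) 0 hΔ).trans ?_
      · exact abs_le_of_sq_le_sq (by rw [a1]; norm_num) (by norm_num)
      · have a2 : ∑ _j : Fin n, ε * p / 2 ≤ ∑ j, (if c j = 0 then (x A j : ℝ) else -x A j) ^ 2 *
            (cq p ε (A i j) * (1 - cq p ε (A i j))) := sum_le_sum fun j _ => by
          rw [a1, one_mul]
          have b1 := mul_nonneg h2 h0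
          have b2 := mul_le_mul_of_nonneg_left h1 h2
          unfold cq
          split_ifs
          · have b3 : p ≤ 1 - ε + ε * p := by nlinarith
            nlinarith [mul_le_mul b3 (show ε / 2 ≤ 1 - (1 - ε + ε * p) by linarith) (by linarith)
              (by linarith)]
          · nlinarith
        rw [sum_const, card_univ, Fintype.card_fin, nsmul_eq_mul] at a2
        generalize ∑ j, (if c j = 0 then (x A j : ℝ) else -x A j) ^ 2 *
            (cq p ε (A i j) * (1 - cq p ε (A i j))) = W at *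
        have a3 : 1 / 2 ≤ W / (20 * Δ ^ 2) := by
          rw [le_div_iff₀ (by positivity)]
          linarith
        have a4 : Real.exp (-(W / (20 * Δ ^ 2))) ≤ 2 / 3 := by
          rw [Real.exp_neg, inv_le_comm₀ (Real.exp_pos _) (by norm_num)]
          linarith [Real.add_one_le_exp (W / (20 * Δ ^ 2))]
        linarith
    · rw [nsmul_eq_mul]
      exact mul_le_mul_of_nonneg_right (cs_card hn k) (by positivity)

theorem win_bound {Δ k : ℝ} (h0 : 0 ≤ p) (h1 : p ≤ 1 / 2) (hΔ : 1 ≤ Δ)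
    (hk : 750000 * Δ ^ 2 ≤ k * p) {c : Fin n → ℤ} {r : ℝ} (hc : c ∈ cs n r)
    (hc' : k < (univ.filter fun j => c j ≠ 0).card) (z : ℝ) :
    ∑ b, pw (fun _ => p) b * ((1 + 3 * if |∑ j, (if b j then (c j : ℝ) else 0) - z| ≤ 158 * Δ
      then 1 else 0) / 3) ≤ 9 / 10 := by
  have a0 : ∀ j, c j = -2 ∨ c j = 0 ∨ c j = 2 := fun j => by
    simpa using Fintype.mem_piFinset.1 (mem_filter.1 hc).1 j
  have a1 := anti (fun _ => p) (fun j => (c j : ℝ)) (fun _ => h0) (fun _ => by linarith)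
    (fun j => by rcases a0 j with h | h | h <;> simp [h]) z (l := 158 * Δ) (by linarith)
  have a2 : ∑ j, (c j : ℝ) ^ 2 = 4 * (univ.filter fun j => c j ≠ 0).card := by
    rw [← sum_boole, mul_sum]
    refine sum_congr rfl fun j _ => ?_
    rcases a0 j with h | h | h <;> simp [h] <;> norm_num
  rw [← sum_mul, a2] at a1
  have a3 : 3 ≤ 4 * ((univ.filter fun j => c j ≠ 0).card : ℝ) * (p * (1 - p)) /
      (20 * (158 * Δ) ^ 2) := by
    rw [le_div_iff₀ (by positivity)]
    have b1 := mul_le_mul_of_nonneg_right hc'.le h0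
    have b2 : 0 ≤ ((univ.filter fun j => c j ≠ 0).card : ℝ) * p := by positivity
    nlinarith [mul_le_mul_of_nonneg_left h1 b2, sq_nonneg Δ]
  generalize 4 * ((univ.filter fun j => c j ≠ 0).card : ℝ) * (p * (1 - p)) /
      (20 * (158 * Δ) ^ 2) = W at *
  have a4 : Real.exp (-W) ≤ 1 / 16 := by
    rw [Real.exp_neg, inv_le_comm₀ (Real.exp_pos _) (by norm_num)]
    refine le_trans ?_ (Real.exp_le_exp.2 a3)
    have b1 := Real.exp_one_gt_d9
    rw [show (3 : ℝ) = (3 : ℕ) * 1 by norm_num, Real.exp_nat_mul]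
    refine le_trans (by norm_num) (pow_le_pow_left₀ (by norm_num) b1.le 3)
  simp only [← mul_div_assoc, ← sum_div, mul_add, sum_add_distrib, mul_one, pw_sum,
    mul_left_comm (pw _ _), ← mul_sum]
  linarith

theorem noise_bound {Δ : ℝ} (x : Mat m n → Fin n → ℤ) (hx : ∀ A j, x A j = 1 ∨ x A j = -1)
    (h0 : 0 ≤ p) (h1 : p ≤ 1) (h2 : 0 ≤ ε) (h3 : ε ≤ 1) (hΔ : 1 ≤ Δ)
    (hV : ε * p * n ≤ 80 * Δ ^ 2) :
    J p ε (fun A B => ∏ i, (1 + 255 / (155 * Δ) ^ 2 * (∑ j, (x A j : ℝ) *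
      ((if B i j then 1 else 0) - cq p ε (A i j))) ^ 2) / 3) ≤ (9 / 10) ^ m := by
  refine (J_cond h0 h1 h2 h3 (fun A i b => (1 + 255 / (155 * Δ) ^ 2 * (∑ j, (x A j : ℝ) *
      ((if b j then 1 else 0) - cq p ε (A i j))) ^ 2) / 3)
      (fun a => (1 + 255 / (155 * Δ) ^ 2 * ∑ j, (ε * p + ε * if a j then 1 else 0)) / 3)
      (fun A i b => by positivity) fun A i => ?_).trans (pow_le_pow_left₀ (sum_nonneg fun a _ =>
        mul_nonneg (pw_nonneg (fun _ => h0) (fun _ => h1) _) (by positivity)) ?_ _)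
  · simp only [← mul_div_assoc, ← sum_div, mul_add (pw _ _), mul_one, mul_left_comm (pw _ _)]
    rw [sum_add_distrib, pw_sum, ← mul_sum, pw_var (fun j => cq p ε (A i j)) fun j => (x A j : ℝ)]
    gcongr with j
    have b0 : (x A j : ℝ) ^ 2 = 1 := by rcases hx A j with h | h <;> simp [h]
    have b1 := mul_nonneg h2 h0
    have b2 := cq_nonneg h0 h2 h3 (A i j)
    have b3 := cq_le h1 h2 h3 (A i j)
    rw [b0, one_mul]
    unfold cq at *
    split_ifs at * <;> nlinarith
  · have a1 : ∑ a : Fin n → Bool, pw (fun _ => p) a * ∑ j, (ε * p + ε * if a j then 1 else 0) =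
        2 * (ε * p * n) := by
      simp only [mul_sum]
      rw [sum_comm]
      simp only [mul_add, sum_add_distrib, mul_left_comm (pw _ _), ← mul_sum, pw_mean, ← sum_mul,
        pw_sum, sum_const, card_univ, Fintype.card_fin, nsmul_eq_mul]
      ring
    simp only [← mul_div_assoc, ← sum_div, mul_add (pw _ _), mul_one,
      mul_left_comm (pw _ _) (255 / (155 * Δ) ^ 2)]
    rw [sum_add_distrib, pw_sum, ← mul_sum, a1]
    have a2 : 255 / (155 * Δ) ^ 2 * (2 * (ε * p * n)) ≤ 17 / 10 := by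
      rw [div_mul_eq_mul_div, div_le_iff₀ (by positivity)]
      nlinarith [sq_nonneg Δ]
    linarith

theorem gap_step {Δ k : ℝ} (x : Mat m n → Fin n → ℤ) (hx : ∀ A j, x A j = 1 ∨ x A j = -1)
    (hn : 1 ≤ n) (h0 : 0 ≤ p) (h1 : p ≤ 1 / 2) (h2 : 0 ≤ ε) (h3 : ε ≤ 1) (hΔ : 1 ≤ Δ)
    (hV : ε * p * n ≤ 80 * Δ ^ 2) (hk : 750000 * Δ ^ 2 ≤ k * p) :
    J p ε (fun A B => if (∀ i, ((|rs (A i) (x A)| : ℤ) : ℝ) ≤ Δ) ∧
      (∀ i, ((|rs (B i) (x B)| : ℤ) : ℝ) ≤ Δ) ∧ k < hammingDist (x A) (x B) ∧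
      (hammingDist (x A) (x B) : ℝ) ≤ 2 * k then 1 else 0) ≤
      (Real.exp (2 * k * Real.log n + 2) * (2 * n + 1) + 1) * (9 / 10) ^ m := by
  have h1' : p ≤ 1 := by linarith
  let u : (Fin n → ℤ) × ℤ → (Fin n → Bool) → ℝ := fun c b =>
    (1 + 3 * if |∑ j, (if b j then (c.1 j : ℝ) else 0) - c.2| ≤ 158 * Δ then 1 else 0) / 3
  let C := ((cs n (2 * k)).filter fun c => k < (univ.filter fun j => c j ≠ 0).card) ×ˢ
    Icc (-(n : ℤ)) n
  have u0 : ∀ c b, 0 ≤ u c b := fun c b => by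
    simp only [u]
    split_ifs <;> norm_num
  refine (J_mono h0 h1' h2 h3 (G := fun A B => ∑ c ∈ C, ∏ i, u c (B i) +
    ∏ i, (1 + 255 / (155 * Δ) ^ 2 * (∑ j, (x A j : ℝ) *
      ((if B i j then 1 else 0) - cq p ε (A i j))) ^ 2) / 3) fun A B => ?_).trans ?_
  · have a0 : ∀ c ∈ C, 0 ≤ ∏ i, u c (B i) := fun c _ => prod_nonneg fun i _ => u0 _ _
    have a1 : 0 ≤ ∏ i, (1 + 255 / (155 * Δ) ^ 2 * (∑ j, (x A j : ℝ) *
      ((if B i j then 1 else 0) - cq p ε (A i j))) ^ 2) / 3 := prod_nonneg fun i _ => by positivity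
    split_ifs with h
    swap
    · exact add_nonneg (sum_nonneg a0) a1
    obtain ⟨s1, s2, s3, s4⟩ := h
    obtain ⟨c1, c2⟩ := sub_mem (hx A) (hx B) s4
    have c3 : |∑ j, (x A j : ℝ)| ≤ n := (abs_sum_le_sum_abs _ _).trans (le_of_eq (by
      rw [sum_congr rfl fun j _ => show |(x A j : ℝ)| = 1 by rcases hx A j with h | h <;> simp [h]]
      simp))
    have c4 : |-(ε * p * ∑ j, (x A j : ℝ))| ≤ n := by
      rw [abs_neg, abs_mul, abs_of_nonneg (mul_nonneg h2 h0)]
      exact (mul_le_of_le_one_left (abs_nonneg _) (mul_le_one₀ h3 h0 h1')).trans c3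
    have c5 : ((fun j => x B j - x A j), ⌊-(ε * p * ∑ j, (x A j : ℝ))⌋) ∈ C := by
      refine mem_product.2 ⟨mem_filter.2 ⟨c1, by rw [c2]; exact s3⟩, mem_Icc.2 ⟨?_, ?_⟩⟩
      · exact Int.le_floor.2 (by simpa using (abs_le.1 c4).1)
      · exact_mod_cast (Int.floor_le _).trans (abs_le.1 c4).2
    have c6 := single_le_sum a0 c5
    have c7 : ∀ i, 1 ≤ u ((fun j => x B j - x A j), ⌊-(ε * p * ∑ j, (x A j : ℝ))⌋) (B i) ^ 4 *
        ((1 + 255 / (155 * Δ) ^ 2 * (∑ j, (x A j : ℝ) *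
          ((if B i j then 1 else 0) - cq p ε (A i j))) ^ 2) / 3) := by
      intro i
      have d1 := s1 i
      have d2 := s2 i
      rw [rs_cast] at d1 d2
      have d3 : ∑ j, (if B i j then ((x B j - x A j : ℤ) : ℝ) else 0) =
          (∑ j, if B i j then (x B j : ℝ) else 0) - (∑ j, (x A j : ℝ) *
          ((if B i j then 1 else 0) - cq p ε (A i j))) -
          (1 - ε) * (∑ j, if A i j then (x A j : ℝ) else 0) - ε * p * ∑ j, (x A j : ℝ) := by
        simp only [mul_sum, ← sum_sub_distrib]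
        refine sum_congr rfl fun j _ => ?_
        cases A i j <;> cases B i j <;> simp [cq] <;> ring
      simp only [u, d3]
      generalize ∑ j, (x A j : ℝ) * ((if B i j then 1 else 0) - cq p ε (A i j)) = N at *
      generalize (∑ j, if B i j then (x B j : ℝ) else 0) = β at *
      generalize (∑ j, if A i j then (x A j : ℝ) else 0) = α at *
      generalize ε * p * ∑ j, (x A j : ℝ) = γ at *
      have d4 : 0 ≤ 255 / (155 * Δ) ^ 2 * N ^ 2 := by positivity
      split_ifs with hw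
      · linarith
      · have d5 : 155 * Δ ≤ |N| := by
          by_contra hc
          have e1 := Int.floor_le (-γ)
          have e2 := Int.lt_floor_add_one (-γ)
          have e3 : |(1 - ε) * α| ≤ Δ := by
            rw [abs_mul, abs_of_nonneg (by linarith)]
            nlinarith [abs_nonneg α]
          rw [not_le, abs_lt] at hc
          rw [abs_le] at d2 e3
          exact hw (abs_le.2 ⟨by linarith, by linarith⟩)
        have d6 : 255 ≤ 255 / (155 * Δ) ^ 2 * N ^ 2 := by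
          rw [div_mul_eq_mul_div, le_div_iff₀ (by positivity), ← sq_abs N]
          have := pow_le_pow_left₀ (by linarith) d5 2
          linarith
        linarith
    have c8 := prod_le_prod (s := univ) (fun i _ => zero_le_one) fun i _ => c7 i
    rw [prod_const_one, prod_mul_distrib, prod_pow] at c8
    have c9 := a0 _ c5
    by_contra hc
    have c10 := pow_le_one₀ (n := 4) c9 (by linarith)
    nlinarith
  · rw [J_add, J_sum, add_mul, one_mul]
    refine add_le_add ((sum_le_card_nsmul _ _ ((9 / 10) ^ m) fun c hc => ?_).trans ?_)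
      (noise_bound x hx h0 h1' h2 h3 hΔ hV)
    · rw [J_snd]
      have := mem_filter.1 (mem_product.1 hc).1
      exact pow_le_pow_left₀ (sum_nonneg fun b _ => mul_nonneg
        (pw_nonneg (fun _ => h0) (fun _ => h1') _) (u0 _ _)) (win_bound h0 h1 hΔ hk this.1 this.2 _) _
    · rw [nsmul_eq_mul, card_product, Nat.cast_mul]
      refine mul_le_mul_of_nonneg_right (mul_le_mul (le_trans ?_ (cs_card hn (2 * k))) (le_of_eq ?_)
        (by positivity) (by positivity)) (by positivity)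
      · exact_mod_cast card_filter_le _ _
      · rw [Int.card_Icc, show (n : ℤ) + 1 - -n = ((2 * n + 1 : ℕ) : ℤ) by push_cast; ring,
          Int.toNat_natCast]
        push_cast
        ring

theorem total_bound (hn : 2 ≤ n) (hm : 320 * Real.log n ≤ m) {L : ℝ} (hL : L ≤ 2 * n) :
    L * ((Real.exp (m / 20 + 2) * (2 * n + 1) + 1) * (9 / 10) ^ m) +
      Real.exp (m / 40 + 2) * (9 / 10) ^ m ≤ Real.exp (-(m / 40)) := by
  have hn' : (2 : ℝ) ≤ n := by exact_mod_cast hn
  have hm0 : (0 : ℝ) ≤ m := Nat.cast_nonneg _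
  have a1 : Real.exp 2 ≤ 8 := by
    rw [show (2 : ℝ) = 1 + 1 by norm_num, Real.exp_add]
    nlinarith [Real.exp_one_lt_d9, Real.exp_pos 1]
  have a2 : (9 / 10 : ℝ) ^ m ≤ Real.exp (-(m / 10)) := by
    rw [show -((m : ℝ) / 10) = m * -(1 / 10) by ring, Real.exp_nat_mul]
    exact pow_le_pow_left₀ (by norm_num) (by linarith [Real.one_sub_le_exp_neg (1 / 10)]) _
  have a3 : (n : ℝ) ^ 8 ≤ Real.exp (m / 40) := by
    rw [← Real.exp_log (x := (n : ℝ) ^ 8) (by positivity), Real.log_pow]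
    exact Real.exp_le_exp.2 (by push_cast; linarith)
  have a4 : 1 ≤ Real.exp (m / 20) := Real.one_le_exp (by positivity)
  have a5 : Real.exp (m / 40) ≤ Real.exp (m / 20) := Real.exp_le_exp.2 (by linarith)
  have a6 : 2 * n * (8 * (2 * n + 1) + 1) + 8 ≤ (n : ℝ) ^ 8 := by
    have b1 : (2 : ℝ) ^ 6 ≤ n ^ 6 := by gcongr
    have b2 : (n : ℝ) ^ 8 = n ^ 6 * n ^ 2 := by ring
    nlinarith [mul_le_mul_of_nonneg_right b1 (sq_nonneg (n : ℝ))]
  have a7 : L * (Real.exp (m / 20 + 2) * (2 * n + 1) + 1) + Real.exp (m / 40 + 2) ≤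
      Real.exp (m / 20) * (2 * n * (8 * (2 * n + 1) + 1) + 8) := by
    rw [Real.exp_add, Real.exp_add]
    have b1 : Real.exp (m / 20) * Real.exp 2 * (2 * n + 1) + 1 ≤
        Real.exp (m / 20) * 8 * (2 * n + 1) + Real.exp (m / 20) := by gcongr
    have b2 : Real.exp (m / 40) * Real.exp 2 ≤ Real.exp (m / 20) * 8 := by gcongr
    have b3 := mul_le_mul hL b1 (by positivity) (by positivity)
    linarith
  calc _ = (L * (Real.exp (m / 20 + 2) * (2 * n + 1) + 1) + Real.exp (m / 40 + 2)) *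
        (9 / 10) ^ m := by ring
    _ ≤ Real.exp (m / 20) * Real.exp (m / 40) * Real.exp (-(m / 10)) :=
        mul_le_mul (a7.trans (mul_le_mul_of_nonneg_left (a6.trans a3) (by positivity))) a2
          (by positivity) (by positivity)
    _ = _ := by
        rw [← Real.exp_add, ← Real.exp_add]
        congr 1
        ring

theorem params {Δ K : ℝ} (hn : 2 ≤ n) (hm : m ≤ n) (hp : p ≤ 1 / 2) (hΔ : 1 ≤ Δ)
    (ht : 30000000 * Δ ^ 2 * Real.log n ≤ p * m) (hK : 1 ≤ K) (hK' : K ≤ m) :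
    0 < p ∧ 0 < Real.log n ∧ 320 * Real.log n ≤ m ∧ 80 * Δ ^ 2 ≤ p * n ∧
      0 ≤ 40 * Δ ^ 2 * K / (p * m * n) ∧ 40 * Δ ^ 2 * K / (p * m * n) ≤ 1 := by
  have hn' : (2 : ℝ) ≤ n := by exact_mod_cast hn
  have hm' : (m : ℝ) ≤ n := by exact_mod_cast hm
  have hl : 1 / 2 ≤ Real.log n := by
    have := Real.log_two_gt_d9
    have := Real.log_le_log (by norm_num) hn'
    linarith
  have d1 : 1 ≤ Δ ^ 2 := one_le_pow₀ hΔ
  have d2 : 1 * (1 / 2) ≤ Δ ^ 2 * Real.log n := by gcongr
  have hm0 : (0 : ℝ) < m := by linarith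
  have h0 : 0 < p := by
    by_contra hc
    nlinarith
  have d3 : 1 * Real.log n ≤ Δ ^ 2 * Real.log n := by gcongr
  have d4 : Δ ^ 2 * (1 / 2) ≤ Δ ^ 2 * Real.log n := by gcongr
  have d5 : p * m ≤ p * n := by gcongr
  have d6 : p * m ≤ 1 / 2 * m := by gcongr
  have d7 : 80 * Δ ^ 2 ≤ p * n := by linarith
  refine ⟨h0, by linarith, by linarith, d7, by positivity, ?_⟩
  rw [div_le_one (by positivity)]
  nlinarith [mul_le_mul d7 hK' (by linarith) (by positivity)]

theorem close_bound {Δ K : ℝ} (x : Mat m n → Fin n → ℤ) (hx : ∀ A j, x A j = 1 ∨ x A j = -1)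
    (hn : 2 ≤ n) (hm : m ≤ n) (hp : p ≤ 1 / 2) (hΔ : 1 ≤ Δ)
    (ht : 30000000 * Δ ^ 2 * Real.log n ≤ p * m) (hK : 1 ≤ K) (hK' : K ≤ m) :
    J p (40 * Δ ^ 2 * K / (p * m * n)) (fun A B => if (∀ i, ((|rs (A i) (x A)| : ℤ) : ℝ) ≤ Δ) ∧
      (∀ i, ((|rs (B i) (x B)| : ℤ) : ℝ) ≤ Δ) ∧
      (hammingDist (x A) (x B) : ℝ) ≤ m / (40 * Real.log n) then 1 else 0) ≤
      Real.exp (-(K / 80)) := by
  obtain ⟨h0, hl, hm1, hpn, e0, e1⟩ := params hn hm hp hΔ ht hK hK'
  have hn' : (2 : ℝ) ≤ n := by exact_mod_cast hn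
  have hm' : (m : ℝ) ≤ n := by exact_mod_cast hm
  have hm0 : (0 : ℝ) < m := by linarith
  have h1 : p ≤ 1 := by linarith
  obtain ⟨N, n1, n2⟩ : ∃ N : ℕ, (m : ℝ) ≤ 2 ^ N * K ∧ 2 ^ N * K ≤ 2 * m := by
    obtain ⟨N, a1, a2⟩ := exists_nat_pow_near (x := m / K) (y := 2)
      (by rw [le_div_iff₀ (by linarith)]; linarith) (by norm_num)
    rw [le_div_iff₀ (by linarith)] at a1
    rw [div_lt_iff₀ (by linarith)] at a2
    exact ⟨N + 1, a2.le, by rw [pow_succ]; linarith⟩
  have e2 : 40 * Δ ^ 2 * K / (p * m * n) * p * n * m = 40 * Δ ^ 2 * K := by field_simp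
  generalize 40 * Δ ^ 2 * K / (p * m * n) = δ at *
  have d1 : 0 < Δ ^ 2 := by positivity
  have e3 : 2 ^ N * δ * p * n ≤ 80 * Δ ^ 2 := by
    refine le_of_mul_le_mul_right ?_ hm0
    calc 2 ^ N * δ * p * n * m = 40 * Δ ^ 2 * (2 ^ N * K) := by linear_combination 2 ^ N * e2
      _ ≤ 40 * Δ ^ 2 * (2 * m) := by gcongr
      _ = _ := by ring
  have e4 : 40 * Δ ^ 2 ≤ 2 ^ N * δ * p * n := by
    refine le_of_mul_le_mul_right ?_ hm0
    calc 40 * Δ ^ 2 * m ≤ 40 * Δ ^ 2 * (2 ^ N * K) := by gcongr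
      _ = _ := by linear_combination -2 ^ N * e2
  have e5 : 2 ^ N * δ ≤ 1 := by
    refine le_of_mul_le_mul_right ?_ (show 0 < p * n by positivity)
    linarith
  let ε : ℕ → ℝ := fun j => 1 - (1 - δ) ^ 2 ^ j
  have f0 : ∀ j, 0 ≤ ε j := fun j => sub_nonneg.2 (pow_le_one₀ (by linarith) (by linarith))
  have f1 : ∀ j, ε j ≤ 1 := fun j => sub_le_self _ (pow_nonneg (by linarith) _)
  have f2 : ∀ j ≤ N, ε j * p * n ≤ 80 * Δ ^ 2 := fun j hj => by
    have a1 := one_add_mul_le_pow (a := -δ) (by linarith) (2 ^ j)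
    have a2 : (2 : ℝ) ^ j ≤ 2 ^ N := pow_le_pow_right₀ (by norm_num) hj
    have a3 : ε j ≤ 2 ^ N * δ := by
      simp only [ε]
      rw [← sub_eq_add_neg] at a1
      push_cast at a1
      nlinarith
    exact le_trans (by gcongr) e3
  have f3 : 20 * Δ ^ 2 ≤ ε N * p * n := by
    have a1 := one_add_mul_le_pow (a := δ) (by linarith) (2 ^ N)
    have a2 : (1 - δ) ^ 2 ^ N * (1 + δ) ^ 2 ^ N ≤ 1 := by
      rw [← mul_pow]
      exact pow_le_one₀ (by nlinarith) (by nlinarith)
    have a3 : 0 ≤ (1 - δ) ^ 2 ^ N := pow_nonneg (by linarith) _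
    push_cast at a1
    have a4 : 2 ^ N * δ / 2 ≤ ε N := by
      simp only [ε]
      have a5 : 0 ≤ 2 ^ N * δ := by positivity
      have a6 := mul_le_mul_of_nonneg_left a1 a3
      generalize 2 ^ N * δ = y at *
      generalize (1 - δ) ^ 2 ^ N = z at *
      by_contra hc
      nlinarith [mul_le_mul_of_nonneg_right (not_le.1 hc).le (show 0 ≤ 1 + y by linarith)]
    have a5 : 2 ^ N * δ / 2 * p * n ≤ ε N * p * n := by gcongr
    linarith
  have hk : 750000 * Δ ^ 2 ≤ m / (40 * Real.log n) * p := by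
    rw [div_mul_eq_mul_div, le_div_iff₀ (by positivity)]
    linarith
  have key := chain (fun A : Mat m n => ∏ i, pw (fun _ => p) (A i))
    (fun A => prod_nonneg fun i _ => pw_nonneg (fun _ => h0.le) (fun _ => h1) _)
    (by rw [← Fintype.prod_sum fun _ a => pw (fun _ => p) a]; simp [pw_sum])
    (fun j A B => ∏ i, pw (fun l => cq p (ε j) (A i l)) (B i))
    (fun j A B => prod_nonneg fun i _ => pw_nonneg (fun _ => cq_nonneg h0.le (f0 j) (f1 j) _)
      (fun _ => cq_le h1 (f0 j) (f1 j) _) _)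
    (fun j A => by rw [← Fintype.prod_sum fun i b => pw (fun l => cq p (ε j) (A i l)) b]
                   simp [pw_sum])
    (fun j A B => by simp only [pw, ← prod_mul_distrib, ← kap_eq, kap_symm (b := A _ _)])
    (fun j A C => by
      simp only [pw, ← prod_mul_distrib]
      rw [sum_mat fun i l b => pr (cq p (ε j) (A i l)) b * pr (cq p (ε j) b) (C i l)]
      simp only [cq_comp, ε, sub_sub_cancel, pow_succ 2 j, pow_mul])
    (fun A => ∀ i, ((|rs (A i) (x A)| : ℤ) : ℝ) ≤ Δ) (fun A B => (hammingDist (x A) (x B) : ℝ))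
    (fun A B => by rw [hammingDist_comm])
    (fun A B C => by exact_mod_cast hammingDist_triangle _ _ _) (m / (40 * Real.log n))
    ((Real.exp (2 * (m / (40 * Real.log n)) * Real.log n + 2) * (2 * n + 1) + 1) * (9 / 10) ^ m)
    (by positivity) N fun j hj => by
      have := gap_step x hx (by omega) h0.le hp (f0 j) (f1 j) hΔ (f2 j hj) hk
      rwa [J_eq] at this
  have g1 := (J_mono h0.le h1 (f0 N) (f1 N) (F := fun A B =>
    if (∀ i, ((|rs (A i) (x A)| : ℤ) : ℝ) ≤ Δ) ∧ (∀ i, ((|rs (B i) (x B)| : ℤ) : ℝ) ≤ Δ) ∧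
      (hammingDist (x A) (x B) : ℝ) ≤ m / (40 * Real.log n) then 1 else 0) fun A B => by
        split_ifs with c1 c2
        · exact le_rfl
        · exact absurd c1.2 c2
        · norm_num
        · exact le_rfl).trans
    (fin_step x hx (by omega) h0.le hp (f0 N) (f1 N) hΔ f3 (m / (40 * Real.log n)))
  have g2 : 2 * (m / (40 * Real.log n)) * Real.log n = m / 20 := by
    field_simp
    ring
  have g3 : m / (40 * Real.log n) * Real.log n = m / 40 := by field_simp
  have g4 : ε 0 = δ := by simp [ε]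
  rw [J_eq, g3] at g1
  rw [g2, g4] at key
  have g5 := total_bound hn hm1 (L := 2 ^ N) (by
    nlinarith [mul_le_mul_of_nonneg_left hK (show (0 : ℝ) ≤ 2 ^ N by positivity)])
  rw [J_eq]
  refine le_of_pow_le_pow_left₀ (n := 2 ^ N) (by positivity) (Real.exp_pos _).le ?_
  rw [← Real.exp_nat_mul]
  refine le_trans ?_ (g5.trans (Real.exp_le_exp.2 (by push_cast; linarith)))
  exact key.trans (add_le_add_right g1 _)

theorem stable_det {Δ K : ℝ} (x : Mat m n → Fin n → ℤ) (hx : ∀ A j, x A j = 1 ∨ x A j = -1)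
    (hn : 2 ≤ n) (hm : m ≤ n) (hp : p ≤ 1 / 2) (hΔ : 1 ≤ Δ)
    (ht : 30000000 * Δ ^ 2 * Real.log n ≤ p * m) (hK : 1 ≤ K) (hK' : K ≤ m)
    (S : Mat m n → Prop) [DecidablePred S]
    (hS : ∀ A, S A → ∀ i, ((|rs (A i) (x A)| : ℤ) : ℝ) ≤ Δ) :
    Ex p (fun A => if S A then 1 else 0) ^ 2 ≤
      J p (40 * Δ ^ 2 * K / (p * m * n)) (fun A B => if S A ∧ S B ∧
        m / (40 * Real.log n) < (hammingDist (x A) (x B) : ℝ) then 1 else 0) +
      Real.exp (-(K / 80)) := by
  obtain ⟨h0, -, -, -, e0, e1⟩ := params hn hm hp hΔ ht hK hK'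
  have h1 : p ≤ 1 := by linarith
  refine (psd h0.le h1 e1 _).trans (le_trans ?_
    (add_le_add_right (close_bound x hx hn hm hp hΔ ht hK hK') _))
  rw [← J_add]
  refine J_mono h0.le h1 e0 e1 fun A B => ?_
  by_cases cA : S A
  · by_cases cB : S B
    · by_cases c : m / (40 * Real.log n) < (hammingDist (x A) (x B) : ℝ)
      · rw [if_pos cA, if_pos cB, if_pos ⟨cA, cB, c⟩]
        split_ifs <;> norm_num
      · rw [if_pos cA, if_pos cB, if_pos (c := _ ∧ _ ∧ _ ≤ _) ⟨hS A cA, hS B cB, not_lt.1 c⟩]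
        split_ifs <;> norm_num
    · rw [if_neg cB, mul_zero]
      split_ifs <;> norm_num
  · rw [if_neg cA, zero_mul]
    split_ifs <;> norm_num

/-- Low degree maps do not find colourings of discrepancy at most `Δ`. -/
theorem low_all {D : ℕ} {Δ K : ℝ} (F : Fin n → Mat m n → ℝ) (hn : 2 ≤ n) (hm : m ≤ n)
    (hp : p ≤ 1 / 2) (hΔ : 1 ≤ Δ) (ht : 30000000 * Δ ^ 2 * Real.log n ≤ p * m) (hK : 1 ≤ K)
    (hK' : K ≤ m) (hF : ∀ j, F j ∈ V p m n D) :
    Ex p (fun A : Mat m n => if ∃ x : Fin n → ℤ, (∀ j, x j = 1 ∨ x j = -1) ∧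
      (∀ i, ((|rs (A i) x| : ℤ) : ℝ) ≤ Δ) ∧
      ((univ.filter fun j => (x j : ℝ) * F j A < 1).card : ℝ) ≤
        m / (160 * Real.log n) then 1 else 0) ^ 2 ≤
      1600 * K * D * Δ ^ 2 * Real.log n / (p * m * m * n) * Ex p (fun A => ∑ j, F j A ^ 2) +
        Real.exp (-(K / 80)) := by
  obtain ⟨h0, hl, hm1, -, e0, e1⟩ := params hn hm hp hΔ ht hK hK'
  have hm0 : (0 : ℝ) < m := by linarith
  have hn' : (2 : ℝ) ≤ n := by exact_mod_cast hn
  have h1 : p ≤ 1 := by linarith
  let S : Mat m n → (Fin n → ℤ) → Prop := fun A x => (∀ j, x j = 1 ∨ x j = -1) ∧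
    (∀ i, ((|rs (A i) x| : ℤ) : ℝ) ≤ Δ) ∧
      ((univ.filter fun j => (x j : ℝ) * F j A < 1).card : ℝ) ≤ m / (160 * Real.log n)
  have hx : ∀ A, ∃ x : Fin n → ℤ, (∀ j, x j = 1 ∨ x j = -1) ∧ ((∃ y, S A y) → S A x) := fun A => by
    by_cases h : ∃ y, S A y
    · exact ⟨h.choose, h.choose_spec.1, fun _ => h.choose_spec⟩
    · exact ⟨1, fun _ => Or.inl rfl, fun h' => absurd h' h⟩
  choose x hx1 hx using hx
  refine (stable_det x hx1 hn hm hp hΔ ht hK hK' (fun A => ∃ y, S A y)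
    fun A h => (hx A h).2.1).trans (add_le_add_left ((J_mono h0.le h1 e0 e1 (G := fun A B =>
      20 * Real.log n / m * ∑ j, (F j A - F j B) ^ 2) fun A B => ?_).trans ?_) _)
  · split_ifs with c
    swap
    · positivity
    obtain ⟨x1, -, x3⟩ := hx A c.1
    obtain ⟨y1, -, y3⟩ := hx B c.2.1
    have c2 := c.2.2
    unfold hammingDist at c2
    set T := univ.filter fun j => x A j ≠ x B j with hT
    set E := univ.filter (fun j => (x A j : ℝ) * F j A < 1) ∪
      univ.filter (fun j => (x B j : ℝ) * F j B < 1) with hE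
    have d1 : (T \ E).card • (4 : ℝ) ≤ ∑ j ∈ T \ E, (F j A - F j B) ^ 2 :=
      card_nsmul_le_sum _ _ _ fun j hj => by
        simp only [hT, hE, mem_sdiff, mem_filter, mem_univ, true_and, mem_union, not_or,
          not_lt] at hj
        rcases x1 j with h | h <;> rcases y1 j with h' | h' <;> simp [h, h'] at hj <;> nlinarith
    have d2 : ∑ j ∈ T \ E, (F j A - F j B) ^ 2 ≤ ∑ j, (F j A - F j B) ^ 2 :=
      sum_le_sum_of_subset_of_nonneg (subset_univ _) fun _ _ _ => sq_nonneg _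
    have d3 : (T.card : ℝ) ≤ (T \ E).card + ((univ.filter fun j =>
        (x A j : ℝ) * F j A < 1).card + (univ.filter fun j => (x B j : ℝ) * F j B < 1).card) := by
      exact_mod_cast (card_le_card_sdiff_add_card (s := T) (t := E)).trans
        (Nat.add_le_add_left (card_union_le _ _) _)
    rw [le_div_iff₀ (by positivity)] at x3 y3
    rw [div_lt_iff₀ (by positivity)] at c2
    rw [nsmul_eq_mul] at d1
    rw [div_mul_eq_mul_div, le_div_iff₀ hm0]
    nlinarith [mul_le_mul_of_nonneg_left d3 hl.le, mul_le_mul_of_nonneg_left (d1.trans d2) hl.le]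
  · rw [J_mul, J_sum]
    have b1 := sum_le_sum fun j (_ : j ∈ univ) => stable h0.le h1 e0 e1 (hF j)
    have b2 : Ex p (fun A => ∑ j, F j A ^ 2) = ∑ j, Ex p fun A => F j A ^ 2 := by
      simp only [← J_left (ε := 0), J_sum]
    rw [← mul_sum] at b1
    refine (mul_le_mul_of_nonneg_left b1 (by positivity)).trans_eq ?_
    rw [b2]
    field_simp
    ring

end Pool.Agent.Lib.MP_29d7aa_lc.Str
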